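import Pool.Agent.Lib.MP_7d2bee_an.Classes

/-!
# Starting elements of bounded angular degree
-/

set_option autoImplicit false

namespace Pool.Agent.Lib.MP_7d2bee_an

open MeasureTheory

/-- the point `x` of the plane as a complex number `x₁ + i x₂` -/
def toC (x : Plane) : ℂ := ⟨x 0, x 1⟩

/-- `f` has angular degree at most `n`: almost everywhere on the disk
`f(x) = ∑_{l ≤ n} (a_l(|x|) Re z ^ l + b_l(|x|) Im z ^ l)` with `z = x₁ + i x₂`. In polar
coordinates this is `∑_{l ≤ n} (A_l(r) cos lφ + B_l(r) sin lφ)`. For `n = 0` these are the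
radial functions. -/
def AngularDegreeLE (n : ℕ) (f : L2D) : Prop :=
  ∃ a b : ℕ → ℝ → ℝ, ∀ᵐ x ∂diskMeasure, f x =
    ∑ l ∈ Finset.range (n + 1), (a l ‖x‖ * (toC x ^ l).re + b l ‖x‖ * (toC x ^ l).im)

end Pool.Agent.Lib.MP_7d2bee_an
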