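import Pool.Agent.Lib.MP_7d2bee_an.Radial

/-!
# Two-sided bounds on classes of starting elements
-/

set_option autoImplicit false

namespace Pool.Agent.Lib.MP_7d2bee_an

open MeasureTheory Filter Topology Finset

theorem totalDegree_lin_le (a b : ℝ) :
    (MvPolynomial.C a * MvPolynomial.X 0 + MvPolynomial.C b * MvPolynomial.X 1 :
      MvPolynomial (Fin 2) ℝ).totalDegree ≤ 1 := by
  refine (MvPolynomial.totalDegree_add _ _).trans (max_le ?_ ?_)
  · refine (MvPolynomial.totalDegree_mul _ _).trans ?_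
    rw [MvPolynomial.totalDegree_C, MvPolynomial.totalDegree_X]
  · refine (MvPolynomial.totalDegree_mul _ _).trans ?_
    rw [MvPolynomial.totalDegree_C, MvPolynomial.totalDegree_X]

theorem polySet_mono {K L : ℕ} (h : K ≤ L) : polySet K ⊆ polySet L := by
  rintro u ⟨p, hp, hu⟩
  exact ⟨p, hp.trans h, hu⟩

theorem polySet_add {K : ℕ} {u v : L2D} (hu : u ∈ polySet K) (hv : v ∈ polySet K) :
    u + v ∈ polySet K := by
  obtain ⟨p, hp, hp'⟩ := hu
  obtain ⟨q, hq, hq'⟩ := hv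
  refine ⟨p + q, (MvPolynomial.totalDegree_add _ _).trans (max_le hp hq), ?_⟩
  filter_upwards [hp', hq', Lp.coeFn_add u v] with x h1 h2 h3
  rw [h3, Pi.add_apply, h1, h2, map_add]

theorem polySet_smul {K : ℕ} {u : L2D} (hu : u ∈ polySet K) (c : ℝ) : c • u ∈ polySet K := by
  obtain ⟨p, hp, hp'⟩ := hu
  refine ⟨MvPolynomial.C c * p, ?_, ?_⟩
  · refine (MvPolynomial.totalDegree_mul _ _).trans ?_
    rw [MvPolynomial.totalDegree_C, zero_add]
    exact hp
  · filter_upwards [hp', Lp.coeFn_smul c u] with x h1 h2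
    rw [h2, Pi.smul_apply, h1, map_mul, MvPolynomial.eval_C, smul_eq_mul]

theorem polySet_sum {K : ℕ} {ι : Type} (s : Finset ι) {u : ι → L2D}
    (hu : ∀ i ∈ s, u i ∈ polySet K) : ∑ i ∈ s, u i ∈ polySet K := by
  classical
  induction s using Finset.induction_on with
  | empty => simpa using zero_mem_polySet K
  | insert i s hi ih =>
    rw [Finset.sum_insert hi]
    exact polySet_add (hu i (Finset.mem_insert_self _ _))
      (ih fun j hj => hu j (Finset.mem_insert_of_mem hj))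

theorem uL_mem_polySet (k : ℕ) (e : Plane) : uL k e ∈ polySet k := by
  set q := Polynomial.Chebyshev.U ℝ (k : ℤ) with hq
  set L : MvPolynomial (Fin 2) ℝ :=
    MvPolynomial.C (e 0) * MvPolynomial.X 0 + MvPolynomial.C (e 1) * MvPolynomial.X 1 with hL
  refine ⟨∑ i ∈ range (k + 1), MvPolynomial.C (q.coeff i) * L ^ i, ?_, ?_⟩
  · refine MvPolynomial.totalDegree_finsetSum_le fun i hi => ?_
    refine (MvPolynomial.totalDegree_mul _ _).trans ?_
    rw [MvPolynomial.totalDegree_C, zero_add]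
    refine (MvPolynomial.totalDegree_pow _ _).trans ?_
    have h1 := totalDegree_lin_le (e 0) (e 1)
    have h2 := mem_range.1 hi
    calc i * L.totalDegree ≤ i * 1 := Nat.mul_le_mul_left i h1
      _ ≤ k := by omega
  · filter_upwards [(memLp_cont (continuous_uF k e)).coeFn_toLp] with x h
    rw [uL, h, uF, chU, ← hq]
    have hdeg : q.natDegree < k + 1 := by
      rw [hq, Polynomial.Chebyshev.natDegree_U_natCast]; omega
    rw [Polynomial.eval_eq_sum_range' hdeg, map_sum]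
    refine sum_congr rfl fun i _ => ?_
    rw [map_mul, map_pow, MvPolynomial.eval_C, hL, map_add, map_mul, map_mul,
      MvPolynomial.eval_C, MvPolynomial.eval_C, MvPolynomial.eval_X, MvPolynomial.eval_X]
    congr 2
    simp [PiLp.inner_apply, Fin.sum_univ_two]

theorem avg_mem_polySet (k : ℕ) : avg k ∈ polySet k :=
  polySet_smul (polySet_sum _ fun j _ => polySet_smul (uL_mem_polySet k _) _) _

theorem convex_classA1 : Convex ℝ classA1 := (convex_convexHull ℝ _).closure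

theorem zero_mem_classA1 : (0 : L2D) ∈ classA1 := by
  have h1 : phL 0 e0 ∈ ridgeDictionary :=
    ⟨isRidge_phL 0 norm_e0, norm_phL (by rw [nu_zero]; exact one_pos)⟩
  have h2 : phL 0 e0 ∈ classA1 := subset_closure (subset_convexHull ℝ _ (Or.inl h1))
  have h3 : -phL 0 e0 ∈ classA1 :=
    subset_closure (subset_convexHull ℝ _ (Or.inr (by rw [neg_neg]; exact h1)))
  have h4 := convex_classA1 h2 h3 (a := 1 / 2) (b := 1 / 2) (by norm_num) (by norm_num)
    (by norm_num)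
  simpa using h4

theorem smul_mem_classA1 {f : L2D} (hf : f ∈ classA1) {c : ℝ} (h0 : 0 ≤ c) (h1 : c ≤ 1) :
    c • f ∈ classA1 := by
  have := convex_classA1 hf zero_mem_classA1 h0 (sub_nonneg.2 h1) (by ring)
  simpa using this

theorem bddAbove_on {A : Set L2D} (hA : A ⊆ classA1) (m : ℕ) :
    BddAbove {r | ∃ f φ : ℕ → L2D, f 0 ∈ A ∧ IsRealization f φ ∧ r = ‖f m‖} := by
  obtain ⟨B, hB⟩ := bddAbove_rate m
  refine ⟨B, ?_⟩
  rintro r ⟨f, φ, h0, hR, rfl⟩
  exact hB ⟨f, φ, hA h0, hR, rfl⟩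

/-- the hard starting element -/
theorem exists_hard {s : ℝ} (hs : 0 < s) {M : ℝ} (hM : 1 ≤ M) {m : ℕ} (hm : 1 ≤ m) :
    ∃ F ∈ classA1 ∩ approxClass s M, ∀ u : Fin m → L2D, (∀ i, IsRidge (u i)) →
      (√2)⁻¹ * (4 : ℝ) ^ (-(max s (1 / 2))) * (m : ℝ) ^ (-(max s (1 / 2)))
        ≤ ‖F - ∑ i, u i‖ := by
  set σ := max s (1 / 2) with hσ
  have hσ1 : 1 / 2 ≤ σ := le_max_right _ _
  have hσs : s ≤ σ := le_max_left _ _
  have hm0 : (0 : ℝ) < m := by exact_mod_cast hm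
  set k := 4 * m - 2 with hk
  have hk2 : k + 2 = 2 * (2 * m) := by omega
  have hkR : (k : ℝ) + 1 = 4 * m - 1 := by
    have : k + 2 = 4 * m := by omega
    have h2 : ((k + 2 : ℕ) : ℝ) = ((4 * m : ℕ) : ℝ) := by rw [this]
    push_cast at h2; linarith
  have hk0 : (0 : ℝ) < (k : ℝ) + 1 := by positivity
  have hk1 : (1 : ℝ) ≤ (k : ℝ) + 1 := by
    have : (0 : ℝ) ≤ k := by positivity
    linarith
  set c : ℝ := ((k : ℝ) + 1) ^ (1 / 2 - σ) with hc
  have hc0 : 0 < c := Real.rpow_pos_of_pos hk0 _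
  have hc1 : c ≤ 1 := Real.rpow_le_one_of_one_le_of_nonpos hk1 (by linarith)
  have hcsq : c ^ 2 * ((k : ℝ) + 1)⁻¹ = (((k : ℝ) + 1) ^ (-σ)) ^ 2 := by
    rw [hc, ← Real.rpow_natCast (((k : ℝ) + 1) ^ (1 / 2 - σ)) 2, ← Real.rpow_mul hk0.le,
      ← Real.rpow_natCast (((k : ℝ) + 1) ^ (-σ)) 2, ← Real.rpow_mul hk0.le,
      ← Real.rpow_neg_one, ← Real.rpow_add hk0]
    congr 1
    push_cast; ring
  have hnorm : ‖c • avg k‖ = ((k : ℝ) + 1) ^ (-σ) := by
    have h1 : ‖c • avg k‖ ^ 2 = (((k : ℝ) + 1) ^ (-σ)) ^ 2 := by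
      rw [norm_smul, mul_pow, norm_sq_avg hk2, Real.norm_of_nonneg hc0.le, hcsq]
    exact (sq_eq_sq₀ (norm_nonneg _) (Real.rpow_nonneg hk0.le _)).1 h1
  refine ⟨c • avg k, ⟨smul_mem_classA1 (avg_mem k) hc0.le hc1, ?_⟩, ?_⟩
  · intro K
    have hK0 : (0 : ℝ) < (K : ℝ) + 1 := by positivity
    by_cases hKk : k ≤ K
    · have h1 : c • avg k ∈ polySet K := polySet_mono hKk (polySet_smul (avg_mem_polySet k) c)
      rw [polyDist, Metric.infDist_zero_of_mem h1]
      have := Real.rpow_nonneg hK0.le (-s)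
      positivity
    · have h1 : polyDist K (c • avg k) ≤ ‖c • avg k‖ := by
        have := Metric.infDist_le_dist_of_mem (x := c • avg k) (zero_mem_polySet K)
        rwa [dist_zero_right] at this
      rw [hnorm] at h1
      have hKk' : (K : ℝ) + 1 ≤ (k : ℝ) + 1 := by
        have : K ≤ k := by omega
        have : (K : ℝ) ≤ k := by exact_mod_cast this
        linarith
      have h2 : ((k : ℝ) + 1) ^ (-σ) ≤ ((K : ℝ) + 1) ^ (-σ) :=
        Real.rpow_le_rpow_of_nonpos hK0 hKk' (by linarith)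
      have hK1 : (1 : ℝ) ≤ (K : ℝ) + 1 := by
        have : (0 : ℝ) ≤ K := by positivity
        linarith
      have h3 : ((K : ℝ) + 1) ^ (-σ) ≤ ((K : ℝ) + 1) ^ (-s) :=
        Real.rpow_le_rpow_of_exponent_le hK1 (by linarith)
      have h4 : ((K : ℝ) + 1) ^ (-s) ≤ M * ((K : ℝ) + 1) ^ (-s) :=
        le_mul_of_one_le_left (Real.rpow_nonneg hK0.le _) hM
      linarith
  · intro u hu
    have h1 := dist_avg (m := m) (k := k) (n := 2 * m) hk2 (u := fun i => c⁻¹ • u i)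
      fun i => isRidge_smul (hu i) _
    have h2 : ‖c • avg k - ∑ i, u i‖ = c * ‖avg k - ∑ i, c⁻¹ • u i‖ := by
      have h3 : c • avg k - ∑ i, u i = c • (avg k - ∑ i, c⁻¹ • u i) := by
        rw [smul_sub, smul_sum]
        congr 1
        refine sum_congr rfl fun i _ => ?_
        rw [smul_smul, mul_inv_cancel₀ hc0.ne', one_smul]
      rw [h3, norm_smul, Real.norm_of_nonneg hc0.le]
    have h4 : (1 - (m : ℝ) / ((2 * m : ℕ) : ℝ)) = 1 / 2 := by
      push_cast; field_simp; norm_num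
    rw [h4] at h1
    have h5 : ((√2)⁻¹ * ((k : ℝ) + 1) ^ (-σ)) ^ 2 ≤ ‖c • avg k - ∑ i, u i‖ ^ 2 := by
      rw [h2, mul_pow, mul_pow, inv_pow, Real.sq_sqrt two_pos.le, ← hcsq]
      have h6 := mul_le_mul_of_nonneg_left h1 (sq_nonneg c)
      calc (2 : ℝ)⁻¹ * (c ^ 2 * ((k : ℝ) + 1)⁻¹) = c ^ 2 * (1 / 2 * ((k : ℝ) + 1)⁻¹) := by ring
        _ ≤ _ := h6
    have h6 : (√2)⁻¹ * ((k : ℝ) + 1) ^ (-σ) ≤ ‖c • avg k - ∑ i, u i‖ :=
      (sq_le_sq₀ (mul_nonneg (by positivity) (Real.rpow_nonneg hk0.le _)) (norm_nonneg _)).1 h5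
    refine le_trans ?_ h6
    rw [mul_assoc, ← Real.mul_rpow (by norm_num) hm0.le]
    refine mul_le_mul_of_nonneg_left ?_ (by positivity)
    refine Real.rpow_le_rpow_of_nonpos hk0 ?_ (by linarith)
    rw [hkR]; linarith

/-- **Two-sided bounds.** -/
theorem two_sided {s : ℝ} (hs : 0 < s) : ∃ c C : ℝ, 0 < c ∧ ∀ M : ℝ, 1 ≤ M → ∀ m : ℕ, 1 ≤ m →
    c * (m : ℝ) ^ (-(max s (1 / 2))) ≤ greedyRateOn (classA1 ∩ approxClass s M) m ∧
    greedyRateOn (classA1 ∩ approxClass s M) m ≤ C * M * (m : ℝ) ^ (-s) := by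
  obtain ⟨C, hC⟩ := rate hs
  refine ⟨(√2)⁻¹ * (4 : ℝ) ^ (-(max s (1 / 2))), max C 0, ?_, fun M hM m hm => ?_⟩
  · exact mul_pos (by positivity) (Real.rpow_pos_of_pos (by norm_num) _)
  obtain ⟨F, hF, hb⟩ := exists_hard hs hM hm
  obtain ⟨f, φ, h0, hR⟩ := exists_realization F
  have hmem : ‖f m‖ ∈ {r | ∃ f φ : ℕ → L2D, f 0 ∈ classA1 ∩ approxClass s M ∧
      IsRealization f φ ∧ r = ‖f m‖} := ⟨f, φ, by rw [h0]; exact hF, hR, rfl⟩
  have hm0 : (0 : ℝ) < m := by exact_mod_cast hm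
  constructor
  · refine le_trans ?_ (le_csSup (bddAbove_on Set.inter_subset_left m) hmem)
    rw [residual_eq hR m, h0]
    exact hb (fun i => (inner ℝ (f i) (φ i) : ℝ) • φ i) fun i => isRidge_smul (hR.mem i).1 _
  · refine csSup_le ⟨_, hmem⟩ ?_
    rintro r ⟨f, φ, hf, hR, rfl⟩
    have h1 := hC f φ hR M ((norm_le_one hf.1).trans hM) hf.2 m
    have h2 : ((m : ℝ) + 1) ^ (-s) ≤ (m : ℝ) ^ (-s) :=
      Real.rpow_le_rpow_of_nonpos hm0 (by linarith) (by linarith)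
    have h3 : 0 ≤ ((m : ℝ) + 1) ^ (-s) := Real.rpow_nonneg (by linarith) _
    calc ‖f m‖ ≤ C * M * ((m : ℝ) + 1) ^ (-s) := h1
      _ ≤ max C 0 * M * ((m : ℝ) + 1) ^ (-s) :=
        mul_le_mul_of_nonneg_right (mul_le_mul_of_nonneg_right (le_max_left _ _)
          (by linarith)) h3
      _ ≤ max C 0 * M * (m : ℝ) ^ (-s) :=
        mul_le_mul_of_nonneg_left h2 (mul_nonneg (le_max_right _ _) (by linarith))

end Pool.Agent.Lib.MP_7d2bee_an
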