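import Pool.Agent.Lib.MP_7d2bee_an.Angular
import Pool.Agent.Lib.MP_7d2bee_an.TwoSided

/-!
# Starting elements of bounded angular degree: the rate is `m ^ (-1/2)`
-/

set_option autoImplicit false

namespace Pool.Agent.Lib.MP_7d2bee_an

open MeasureTheory Filter Topology Finset

/-! ### the averages are radial -/

theorem UU_wL (R : Plane ≃ₗᵢ[ℝ] Plane) (k : ℕ) (e : Plane) : UU R (wL k e) = wL k (R.symm e) := by
  rw [wL, wL, map_smul, UU_uL]

theorem UU_mem_Wk (R : Plane ≃ₗᵢ[ℝ] Plane) {k : ℕ} {h : L2D} (hh : h ∈ Wk k) : UU R h ∈ Wk k := by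
  induction hh using Submodule.span_induction with
  | mem x hx =>
    obtain ⟨f, hf, rfl⟩ := hx
    rw [UU_wL]
    exact Submodule.subset_span ⟨R.symm f, by rw [LinearIsometryEquiv.norm_map, hf], rfl⟩
  | zero => rw [map_zero]; exact Submodule.zero_mem _
  | add x y _ _ hx hy => rw [map_add]; exact Submodule.add_mem _ hx hy
  | smul c x _ hx => rw [map_smul]; exact Submodule.smul_mem _ _ hx

theorem UU_avg (R : Plane ≃ₗᵢ[ℝ] Plane) {k n : ℕ} (hk : k + 2 = 2 * n) :
    UU R (avg k) = avg k := by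
  rw [← sub_eq_zero]
  set d := UU R (avg k) - avg k with hd
  have hdW : d ∈ Wk k := Submodule.sub_mem _ (UU_mem_Wk R (avg_mem_Wk k)) (avg_mem_Wk k)
  have h1 : ∀ h ∈ Wk k, inner ℝ d h = 0 := by
    intro h hh
    induction hh using Submodule.span_induction with
    | mem x hx =>
      obtain ⟨e, he, rfl⟩ := hx
      have h2 : wL k e = UU R (wL k (R e)) := by
        rw [UU_wL, LinearIsometryEquiv.symm_apply_apply]
      rw [hd, inner_sub_left, inner_avg hk he]
      rw [h2, (UU R).inner_map_map, inner_avg hk (by rw [LinearIsometryEquiv.norm_map, he]),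
        sub_self]
    | zero => rw [inner_zero_right]
    | add x y _ _ hx hy => rw [inner_add_right, hx, hy, add_zero]
    | smul c x _ hx => rw [inner_smul_right, hx, mul_zero]
  exact inner_self_eq_zero.1 (h1 d hdW)

/-- the continuous representative of `avg k` -/
noncomputable def avgF (k : ℕ) (x : Plane) : ℝ :=
  ((k : ℝ) + 1)⁻¹ * ∑ j ∈ range (k + 1), (√(NN k))⁻¹ * uF k (dd k j) x

theorem continuous_avgF (k : ℕ) : Continuous (avgF k) :=
  continuous_const.mul (continuous_finsetSum _ fun j _ =>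
    continuous_const.mul (continuous_uF k (dd k j)))

theorem avg_ae (k : ℕ) : ∀ᵐ x ∂diskMeasure, avg k x = avgF k x := by
  have h1 : ∀ᵐ x ∂diskMeasure, ∀ j : ℕ, (wL k (dd k j)) x = (√(NN k))⁻¹ * uF k (dd k j) x := by
    refine ae_all_iff.2 fun j => ?_
    filter_upwards [Lp.coeFn_smul (√(NN k))⁻¹ (uL k (dd k j)),
      (memLp_cont (continuous_uF k (dd k j))).coeFn_toLp] with x a b
    rw [wL, a, Pi.smul_apply, uL, b, smul_eq_mul]
  filter_upwards [h1, Lp.coeFn_smul ((k : ℝ) + 1)⁻¹ (∑ j ∈ range (k + 1), wL k (dd k j)),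
    Lp.coeFn_finsetSum (range (k + 1)) (fun j => wL k (dd k j))] with x a b c
  rw [avg, b, Pi.smul_apply, c, Finset.sum_apply, smul_eq_mul, avgF]
  congr 1
  exact sum_congr rfl fun j _ => a j

theorem eq_of_ae_disk {F G : Plane → ℝ} (hF : Continuous F) (hG : Continuous G)
    (h : ∀ᵐ x ∂diskMeasure, F x = G x) {x : Plane} (hx : ‖x‖ ≤ 1) : F x = G x := by
  rw [ae_disk_iff] at h
  have h1 : F =ᵐ[(volume : Measure Plane).restrict (Metric.closedBall 0 1)] G := by
    rw [EventuallyEq, ae_restrict_iff' measurableSet_closedBall]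
    exact h
  refine Measure.eqOn_of_ae_eq h1 hF.continuousOn hG.continuousOn ?_
    (mem_closedBall_zero_iff.2 hx)
  rw [interior_closedBall (0 : Plane) one_ne_zero, closure_ball (0 : Plane) one_ne_zero]

theorem angular_avg {k n : ℕ} (hk : k + 2 = 2 * n) : AngularDegreeLE 0 (avg k) := by
  refine ⟨fun _ r => avgF k (r • e0), fun _ _ => 0, ?_⟩
  have key : ∀ x : Plane, ‖x‖ ≤ 1 → avgF k x = avgF k (‖x‖ • e0) := by
    intro x hx
    rcases eq_or_ne x 0 with h0 | h0
    · rw [h0, norm_zero, zero_smul]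
    have hx0 : ‖x‖ ≠ 0 := norm_ne_zero_iff.2 h0
    set e := ‖x‖⁻¹ • x with he
    have hen : ‖e‖ = 1 := by
      rw [he, norm_smul, norm_inv, norm_norm, inv_mul_cancel₀ hx0]
    have h1 := UU_avg (rotE hen) hk
    have h2 : ∀ᵐ y ∂diskMeasure, avgF k (rotE hen y) = avgF k y := by
      filter_upwards [UU_ae (rotE hen) (avg k),
        (mp_of_equiv (rotE hen)).quasiMeasurePreserving.ae (avg_ae k), avg_ae k] with y a b c
      rw [h1] at a
      rw [← b, ← a, c]
    have h3 := eq_of_ae_disk ((continuous_avgF k).comp (rotE hen).continuous)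
      (continuous_avgF k) h2 (x := ‖x‖ • e0) (by
        rw [norm_smul, norm_norm, norm_e0, mul_one]; exact hx)
    change avgF k (rotE hen (‖x‖ • e0)) = avgF k (‖x‖ • e0) at h3
    rw [map_smul, rotE_e0, he, smul_smul, mul_inv_cancel₀ hx0, one_smul] at h3
    exact h3
  have hb : ∀ᵐ x ∂diskMeasure, x ∈ Metric.closedBall (0 : Plane) 1 :=
    ae_disk_iff.2 (Eventually.of_forall fun _ h => h)
  filter_upwards [avg_ae k, hb] with x h1 h2
  rw [h1, key x (mem_closedBall_zero_iff.1 h2)]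
  simp

theorem AngularDegreeLE.of_zero {f : L2D} (h : AngularDegreeLE 0 f) (n : ℕ) :
    AngularDegreeLE n f := by
  obtain ⟨a, b, hab⟩ := h
  refine ⟨fun l r => if l = 0 then a 0 r else 0, fun _ _ => 0, ?_⟩
  filter_upwards [hab] with x hx
  rw [hx, zero_add, sum_range_one]
  symm
  rw [sum_eq_single 0]
  · simp
  · intro l _ hl
    simp [hl]
  · intro h; exact absurd (mem_range.2 (by omega)) h

/-! ### polynomials -/

theorem Pol_subset_polySet (K : ℕ) {p : L2D} (hp : p ∈ Pol K) : p ∈ polySet K := by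
  rw [Pol] at hp
  induction hp using Submodule.span_induction with
  | mem x hx =>
    obtain ⟨⟨i, j⟩, rfl⟩ := hx
    exact polySet_mono (by omega : (i : ℕ) ≤ K) (uL_mem_polySet _ _)
  | zero => exact zero_mem_polySet K
  | add x y _ _ hx hy => exact polySet_add hx hy
  | smul c x _ hx => exact polySet_smul hx c

theorem polyDist_le (K : ℕ) (f : L2D) : polyDist K f ≤ ‖f - (Pol K).starProjection f‖ := by
  rw [← dist_eq_norm]
  exact Metric.infDist_le_dist_of_mem
    (Pol_subset_polySet K (Submodule.starProjection_apply_mem _ _))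

/-! ### the main results -/

/-- elements of `A_1` of bounded angular degree are half-smooth -/
theorem sum_polyDist_le {n : ℕ} {f : L2D} (hf : AngularDegreeLE n f) (hA : f ∈ classA1) (L : ℕ) :
    ‖f‖ ^ 2 + ∑ K ∈ range L, polyDist K f ^ 2 ≤ 2 * n + 1 := by
  refine le_trans (add_le_add_right (sum_le_sum fun K _ => ?_) _) (sum_dist_le hf hA L)
  exact pow_le_pow_left₀ Metric.infDist_nonneg (polyDist_le K f) 2

theorem norm_le_of_polyDist {f φ : ℕ → L2D} (h : IsRealization f φ) {Q : ℝ} (hQ0 : 0 ≤ Q)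
    (hQ : ∀ L : ℕ, ‖f 0‖ ^ 2 + ∑ K ∈ range L, polyDist K (f 0) ^ 2 ≤ Q ^ 2) (m : ℕ) :
    ‖f m‖ ≤ Q / √((m : ℝ) + 1) := by
  refine norm_le_of_wE h hQ0 (fun L => le_trans (add_le_add_right (sum_le_sum fun K _ => ?_) _)
    (hQ L)) m
  exact pow_le_pow_left₀ (norm_nonneg _) (norm_sub_proj_le K (f 0)) 2

/-- the hard radial element -/
theorem exists_hard_radial (m : ℕ) : ∃ F ∈ classA1, AngularDegreeLE 0 F ∧
    ∀ u : Fin m → L2D, (∀ i, IsRidge (u i)) → 1 / √(8 * m + 1) ≤ ‖F - ∑ i, u i‖ := by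
  have hsq : (1 / √(8 * (m : ℝ) + 1)) ^ 2 = 1 / (8 * m + 1) := by
    rw [div_pow, Real.sq_sqrt (by positivity), one_pow]
  rcases Nat.eq_zero_or_pos m with h0 | h0
  · subst h0
    refine ⟨avg 0, avg_mem 0, angular_avg (n := 1) rfl, fun u _ => ?_⟩
    have h1 := norm_sq_avg (k := 0) (n := 1) rfl
    have h2 : ‖avg 0 - ∑ i, u i‖ ^ 2 = 1 := by
      rw [Finset.univ_eq_empty, Finset.sum_empty, sub_zero, h1]; norm_num
    refine (sq_le_sq₀ (by positivity) (norm_nonneg _)).1 ?_
    rw [hsq, h2]; norm_num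
  · have hm0 : (0 : ℝ) < m := by exact_mod_cast h0
    set k := 4 * m - 2 with hk
    have hk2 : k + 2 = 2 * (2 * m) := by omega
    have hkR : (k : ℝ) + 1 = 4 * m - 1 := by
      have : k + 2 = 4 * m := by omega
      have h2 : ((k + 2 : ℕ) : ℝ) = ((4 * m : ℕ) : ℝ) := by rw [this]
      push_cast at h2; linarith
    refine ⟨avg k, avg_mem k, angular_avg hk2, fun u hu => ?_⟩
    have h1 := dist_avg (m := m) (k := k) (n := 2 * m) hk2 hu
    have h4 : (1 - (m : ℝ) / ((2 * m : ℕ) : ℝ)) = 1 / 2 := by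
      push_cast; field_simp; norm_num
    rw [h4, hkR] at h1
    have hm1 : (1 : ℝ) ≤ m := by exact_mod_cast h0
    refine (sq_le_sq₀ (by positivity) (norm_nonneg _)).1 ?_
    rw [hsq]
    refine le_trans ?_ h1
    rw [← div_eq_mul_inv, div_div, div_le_div_iff₀ (by positivity) (by nlinarith)]
    linarith

/-- **The rate on the elements of `A_1` of bounded angular degree.** -/
theorem angular_rate (n m : ℕ) :
    1 / √(8 * m + 1) ≤ greedyRateOn {f | f ∈ classA1 ∧ AngularDegreeLE n f} m ∧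
    greedyRateOn {f | f ∈ classA1 ∧ AngularDegreeLE n f} m
      ≤ √(2 * n + 1) / √((m : ℝ) + 1) := by
  obtain ⟨F, hF, hF0, hb⟩ := exists_hard_radial m
  obtain ⟨f, φ, h0, hR⟩ := exists_realization F
  have hmem : ‖f m‖ ∈ {r | ∃ f φ : ℕ → L2D, f 0 ∈ {f | f ∈ classA1 ∧ AngularDegreeLE n f} ∧
      IsRealization f φ ∧ r = ‖f m‖} := ⟨f, φ, by rw [h0]; exact ⟨hF, hF0.of_zero n⟩, hR, rfl⟩
  constructor
  · refine le_trans ?_ (le_csSup (bddAbove_on (fun f hf => hf.1) m) hmem)
    rw [residual_eq hR m, h0]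
    exact hb (fun i => (inner ℝ (f i) (φ i) : ℝ) • φ i) fun i => isRidge_smul (hR.mem i).1 _
  · refine csSup_le ⟨_, hmem⟩ ?_
    rintro r ⟨f, φ, hf, hR, rfl⟩
    refine norm_le_of_polyDist hR (Real.sqrt_nonneg _) (fun L => ?_) m
    rw [Real.sq_sqrt (by positivity)]
    exact sum_polyDist_le hf.2 hf.1 L

end Pool.Agent.Lib.MP_7d2bee_an
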