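import Pool.Agent.Lib.MP_7d2bee_an.Dense
import Pool.Agent.Lib.MP_7d2bee_an.AngDefs

/-!
# Elements of `A_1` of bounded angular degree are half-smooth
-/

set_option autoImplicit false

namespace Pool.Agent.Lib.MP_7d2bee_an

open MeasureTheory Filter Topology Finset

/-! ### interpolation of trigonometric polynomials -/

/-- the interpolation weights -/
noncomputable def del (n K : ℕ) (θ : ℝ) (j : ℕ) : ℝ :=
  chU (2 * n) (Real.cos (θ / 2 - ang (2 * K + 1) j)) / (2 * K + 2)

theorem ang_two (K j : ℕ) : 2 * ang (2 * K + 1) j = ang K j := by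
  rw [ang, ang]
  push_cast
  have : (K : ℝ) + 1 ≠ 0 := by positivity
  field_simp
  ring

open Complex in
theorem interp {n K l : ℕ} (hn : 2 * n ≤ K) (hl : l ≤ n) (θ : ℝ) :
    ∑ j ∈ range (2 * K + 2), (del n K θ j : ℂ) * exp ((l : ℂ) * (ang K j : ℝ) * I)
      = exp ((l : ℂ) * θ * I) := by
  have hK : (2 : ℂ) * K + 2 ≠ 0 := by
    have : ((2 * K + 2 : ℕ) : ℂ) ≠ 0 := by exact_mod_cast (by omega : 2 * K + 2 ≠ 0)
    push_cast at this; exact this
  have h1 : ∀ j ∈ range (2 * K + 2), (del n K θ j : ℂ) * exp ((l : ℂ) * (ang K j : ℝ) * I)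
      = ∑ s ∈ range (2 * n + 1), (2 * (K : ℂ) + 2)⁻¹ * (exp (((n : ℂ) - s) * θ * I) *
        exp ((2 * ((l + s : ℕ) : ℂ) - 2 * (n : ℕ)) * (Real.pi * j / ((2 * K + 1 : ℕ) + 1)) * I)) := by
    intro j _
    rw [del, ofReal_div, chU_exp, sum_div, sum_mul]
    refine sum_congr rfl fun s _ => ?_
    have hang : ang K j = 2 * (Real.pi * j / ((2 * K + 1 : ℕ) + 1)) := by
      rw [← ang_two, ang]
    rw [div_eq_inv_mul, mul_assoc, ← exp_add, ← exp_add, hang, ang]
    push_cast
    congr 2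
    ring
  rw [sum_congr rfl h1, sum_comm]
  simp_rw [← mul_sum]
  rw [sum_eq_single (n - l)]
  · have h2 : ((l + (n - l) : ℕ) : ℂ) = (n : ℂ) := by
      congr 1; omega
    rw [h2, sub_self]
    simp only [zero_mul, exp_zero, sum_const, card_range, nsmul_eq_mul, mul_one]
    have h3 : ((n : ℂ) - ((n - l : ℕ) : ℂ)) = l := by
      rw [Nat.cast_sub hl]; ring
    rw [h3]
    push_cast
    field_simp
  · intro s hs hne
    have hs' := mem_range.1 hs
    have := sum_exp_zero (K := 2 * K + 1) (s := l + s) (s' := n) (by omega) (by omega) (by omega)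
    rw [show 2 * K + 1 + 1 = 2 * K + 2 from rfl] at this
    rw [this, mul_zero]
  · intro h
    exact absurd (mem_range.2 (by omega)) h

theorem sum_del_sq {n K : ℕ} (hn : 2 * n ≤ K) (θ : ℝ) :
    ∑ j ∈ range (2 * K + 2), del n K θ j ^ 2 = (2 * n + 1) / (2 * K + 2) := by
  have h := disc (k := 2 * n) (K := 2 * K + 1) (by omega) (θ / 2) (θ / 2)
  rw [sub_self, Real.cos_zero, chU_one, show 2 * K + 1 + 1 = 2 * K + 2 from rfl] at h
  have h1 : ∀ j ∈ range (2 * K + 2), del n K θ j ^ 2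
      = ((2 * (K : ℝ) + 2) ^ 2)⁻¹ * (chU (2 * n) (Real.cos (θ / 2 - ang (2 * K + 1) j)) *
        chU (2 * n) (Real.cos (ang (2 * K + 1) j - θ / 2))) := by
    intro j _
    rw [del, ← Real.cos_neg (ang (2 * K + 1) j - θ / 2), neg_sub, div_pow, div_eq_inv_mul]
    ring
  rw [sum_congr rfl h1, ← mul_sum, h]
  push_cast
  have : 2 * (K : ℝ) + 2 ≠ 0 := by positivity
  field_simp
  ring

/-! ### rotations -/

theorem toC_rotE (θ : ℝ) (x : Plane) :
    toC (rotE (norm_dir θ) x) = Complex.exp (θ * Complex.I) * toC x := by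
  rw [rotE_apply, rotL_apply, toC, toC, Complex.exp_mul_I]
  apply Complex.ext
  · simp [dir, perp, Complex.cos_ofReal_re, Complex.sin_ofReal_re, Complex.cos_ofReal_im,
      Complex.sin_ofReal_im]
    ring
  · simp [dir, perp, Complex.cos_ofReal_re, Complex.sin_ofReal_re, Complex.cos_ofReal_im,
      Complex.sin_ofReal_im]
    ring

/-- the rotations of `f` are combinations of finitely many rotations -/
theorem rot_comb {n K : ℕ} (hn : 2 * n ≤ K) {f : L2D} (hf : AngularDegreeLE n f) (θ : ℝ) :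
    UU (rotE (norm_dir θ)) f
      = ∑ j ∈ range (2 * K + 2), del n K θ j • UU (rotE (norm_dir (ang K j))) f := by
  obtain ⟨a, b, hab⟩ := hf
  have hrot : ∀ α : ℝ, ∀ᵐ x ∂diskMeasure, UU (rotE (norm_dir α)) f x
      = ∑ l ∈ range (n + 1), (a l ‖x‖ * (Complex.exp ((l : ℂ) * α * Complex.I) * toC x ^ l).re
        + b l ‖x‖ * (Complex.exp ((l : ℂ) * α * Complex.I) * toC x ^ l).im) := by
    intro α
    filter_upwards [UU_ae (rotE (norm_dir α)) f,
      (mp_of_equiv (rotE (norm_dir α))).quasiMeasurePreserving.ae hab] with x h1 h2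
    rw [h1, h2]
    refine sum_congr rfl fun l _ => ?_
    rw [LinearIsometryEquiv.norm_map, toC_rotE, mul_pow, ← Complex.exp_nat_mul]
    have : (l : ℂ) * (α * Complex.I) = (l : ℂ) * α * Complex.I := by ring
    rw [this]
  refine Lp.ext ?_
  have hall : ∀ᵐ x ∂diskMeasure, ∀ j : ℕ, UU (rotE (norm_dir (ang K j))) f x
      = ∑ l ∈ range (n + 1), (a l ‖x‖ *
          (Complex.exp ((l : ℂ) * (ang K j : ℝ) * Complex.I) * toC x ^ l).re
        + b l ‖x‖ * (Complex.exp ((l : ℂ) * (ang K j : ℝ) * Complex.I) * toC x ^ l).im) :=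
    ae_all_iff.2 fun j => hrot (ang K j)
  have hsm : ∀ᵐ x ∂diskMeasure, ∀ j : ℕ,
      (del n K θ j • UU (rotE (norm_dir (ang K j))) f : L2D) x
        = del n K θ j * UU (rotE (norm_dir (ang K j))) f x :=
    ae_all_iff.2 fun j => by
      filter_upwards [Lp.coeFn_smul (del n K θ j) (UU (rotE (norm_dir (ang K j))) f)] with x h
      rw [h, Pi.smul_apply, smul_eq_mul]
  filter_upwards [hrot θ, hall, hsm, Lp.coeFn_finsetSum (range (2 * K + 2))
    (fun j => del n K θ j • UU (rotE (norm_dir (ang K j))) f)] with x h1 h2 h3 h4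
  rw [h1, h4, Finset.sum_apply]
  have h5 : ∀ j ∈ range (2 * K + 2), (del n K θ j • UU (rotE (norm_dir (ang K j))) f : L2D) x
      = ∑ l ∈ range (n + 1), (a l ‖x‖ * (del n K θ j *
          (Complex.exp ((l : ℂ) * (ang K j : ℝ) * Complex.I) * toC x ^ l).re)
        + b l ‖x‖ * (del n K θ j *
          (Complex.exp ((l : ℂ) * (ang K j : ℝ) * Complex.I) * toC x ^ l).im)) := by
    intro j _
    rw [h3 j, h2 j, mul_sum]
    exact sum_congr rfl fun l _ => by ring
  rw [sum_congr rfl h5, sum_comm]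
  refine sum_congr rfl fun l hl => ?_
  have h6 := interp hn (l := l) (by have := mem_range.1 hl; omega) θ
  rw [sum_add_distrib, ← mul_sum, ← mul_sum, ← h6, sum_mul, Complex.re_sum, Complex.im_sum]
  congr 2
  · refine sum_congr rfl fun j _ => ?_
    rw [mul_assoc, Complex.re_ofReal_mul]
  · refine sum_congr rfl fun j _ => ?_
    rw [mul_assoc, Complex.im_ofReal_mul]

theorem inner_rot (f : L2D) (k : ℕ) (θ : ℝ) :
    inner ℝ f (uL k (dir θ)) = inner ℝ (UU (rotE (norm_dir θ)) f) (uL k e0) := by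
  rw [← rotE_symm_self (norm_dir θ), ← UU_uL, (UU (rotE (norm_dir θ))).inner_map_map]

theorem uL_neg (k : ℕ) (e : Plane) : uL k (-e) = (-1 : ℝ) ^ k • uL k e := by
  refine Lp.ext ?_
  filter_upwards [(memLp_cont (continuous_uF k (-e))).coeFn_toLp,
    (memLp_cont (continuous_uF k e)).coeFn_toLp, Lp.coeFn_smul ((-1 : ℝ) ^ k) (uL k e)]
    with x h1 h2 h3
  rw [h3, Pi.smul_apply, uL, uL, h1, h2, uF, uF, inner_neg_right, chU_neg, smul_eq_mul]

theorem dir_ang_add (K j : ℕ) : dir (ang K (K + 1 + j)) = -dir (ang K j) := by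
  have h : ang K (K + 1 + j) = ang K j + Real.pi := by
    rw [ang, ang]
    push_cast
    have : (K : ℝ) + 1 ≠ 0 := by positivity
    field_simp
    ring
  rw [h]
  ext i
  fin_cases i
  · simp [dir, Real.cos_add_pi]
  · simp [dir, Real.sin_add_pi]

/-- the values of the coefficients are controlled by their mean square -/
theorem inner_sq_le {n K : ℕ} (hn : 2 * n ≤ K) {f : L2D} (hf : AngularDegreeLE n f) (k : ℕ)
    {e : Plane} (he : ‖e‖ = 1) : inner ℝ f (uL k e) ^ 2
      ≤ (2 * n + 1) * (((K : ℝ) + 1)⁻¹ * ∑ j ∈ range (K + 1), inner ℝ f (uL k (dd K j)) ^ 2) := by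
  obtain ⟨θ, rfl⟩ := exists_dir he
  have h1 : inner ℝ f (uL k (dir θ))
      = ∑ j ∈ range (2 * K + 2), del n K θ j * inner ℝ f (uL k (dir (ang K j))) := by
    rw [inner_rot, rot_comb hn hf θ, sum_inner]
    refine sum_congr rfl fun j _ => ?_
    rw [inner_smul_left, conj_trivial, inner_rot f k (ang K j)]
  have h2 := sum_mul_sq_le_sq_mul_sq (range (2 * K + 2)) (fun j => del n K θ j)
    (fun j => inner ℝ f (uL k (dir (ang K j))))
  rw [← h1, sum_del_sq hn] at h2
  have h3 : ∑ j ∈ range (2 * K + 2), inner ℝ f (uL k (dir (ang K j))) ^ 2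
      = 2 * ∑ j ∈ range (K + 1), inner ℝ f (uL k (dd K j)) ^ 2 := by
    rw [show 2 * K + 2 = (K + 1) + (K + 1) by ring, sum_range_add, two_mul]
    congr 1
    refine sum_congr rfl fun j _ => ?_
    rw [dir_ang_add, uL_neg, inner_smul_right, mul_pow, dd, ← pow_mul, mul_comm k 2, pow_mul]
    norm_num
  rw [h3] at h2
  refine h2.trans (le_of_eq ?_)
  have : (K : ℝ) + 1 ≠ 0 := by positivity
  have h4 : 2 * (K : ℝ) + 2 ≠ 0 := by positivity
  field_simp

/-! ### the class `A_1` -/

theorem inner_le_of_classA1 {f h : L2D} (hf : f ∈ classA1) {β : ℝ}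
    (hβ : ∀ v ∈ ridgeDictionary, |inner ℝ v h| ≤ β) : inner ℝ f h ≤ β := by
  have h1 : classA1 ⊆ {u : L2D | inner ℝ u h ≤ β} := by
    refine closure_minimal (convexHull_min ?_ ?_) ?_
    · rintro u (hu | hu)
      · exact (le_abs_self _).trans (hβ u hu)
      · have := hβ (-u) hu
        rw [inner_neg_left, abs_neg] at this
        exact (le_abs_self _).trans this
    · intro u hu v hv s t hs ht hst
      change inner ℝ u h ≤ β at hu
      change inner ℝ v h ≤ β at hv
      change inner ℝ (s • u + t • v) h ≤ β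
      rw [inner_add_left, inner_smul_left, inner_smul_left, conj_trivial, conj_trivial]
      calc s * inner ℝ u h + t * inner ℝ v h ≤ s * β + t * β :=
            add_le_add (mul_le_mul_of_nonneg_left hu hs) (mul_le_mul_of_nonneg_left hv ht)
        _ = β := by rw [← add_mul, hst, one_mul]
    · exact isClosed_le (continuous_id.inner continuous_const) continuous_const
  exact h1 hf

theorem frame_id {K l : ℕ} (hl : l ≤ K) (u : L2D) {e : Plane} (he : ‖e‖ = 1) :
    ∑ j ∈ range (K + 1), wt K l * inner ℝ u (uL l (dd K j)) * inner ℝ (uL l (dd K j)) (uL l e)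
      = inner ℝ u (uL l e) := by
  have h2 : inner ℝ u (SS K (uL l e)) = ∑ j ∈ range (K + 1),
      wt K l * inner ℝ u (uL l (dd K j)) * inner ℝ (uL l (dd K j)) (uL l e) := by
    rw [SS, inner_sum]
    refine sum_congr rfl fun j _ => ?_
    rw [comp, inner_sum, sum_eq_single l]
    · rw [inner_smul_right, real_inner_comm (uL l (dd K j)) (uL l e)]; ring
    · intro k _ hk
      rw [inner_smul_right, inner_uL_ne (Ne.symm hk) he (norm_dd K j), mul_zero, zero_mul]
    · intro h2; exact absurd (mem_range.2 (by omega)) h2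
  rw [← h2, SS_uL hl he]

theorem bessel (K : ℕ) {e : Plane} (he : ‖e‖ = 1) (v : L2D) :
    ∑ k ∈ range (K + 1), inner ℝ v (uL k e) ^ 2 / NN k ≤ ‖v‖ ^ 2 := by
  set p : L2D := ∑ k ∈ range (K + 1), (inner ℝ v (uL k e) / NN k) • uL k e with hp
  set E := ∑ k ∈ range (K + 1), inner ℝ v (uL k e) ^ 2 / NN k with hE
  have h1 : inner ℝ v p = E := by
    rw [hp, inner_sum, hE]
    refine sum_congr rfl fun k _ => ?_
    rw [inner_smul_right]; ring
  have h2 : ‖p‖ ^ 2 = E := by
    rw [← real_inner_self_eq_norm_sq, hp, sum_inner, hE]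
    refine sum_congr rfl fun k hk => ?_
    rw [inner_sum, sum_eq_single k]
    · rw [inner_smul_left, inner_smul_right, norm_sq_uL k he, conj_trivial]
      have := (NN_pos k).ne'
      field_simp
    · intro l _ hl
      rw [inner_smul_left, inner_smul_right, inner_uL_ne (Ne.symm hl) he he, mul_zero, mul_zero]
    · intro h; exact absurd hk h
  have h3 := sq_nonneg ‖v - p‖
  rw [@norm_sub_sq_real, h1, h2] at h3
  linarith

/-- the weighted energy of elements of `A_1` of bounded angular degree -/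
theorem wE_le_of_mem {n K : ℕ} (hn : 2 * n ≤ K) {f : L2D} (hf : AngularDegreeLE n f)
    (hA : f ∈ classA1) : wE K f ≤ 2 * n + 1 := by
  set h : L2D := ∑ j ∈ range (K + 1), ∑ k ∈ range (K + 1),
    (((k : ℝ) + 1) * (wt K k * inner ℝ f (uL k (dd K j)))) • uL k (dd K j) with hh
  have h1 : inner ℝ f h = wE K f := by
    rw [hh, inner_sum, wE]
    simp_rw [inner_sum, inner_smul_right]
    rw [sum_comm]
    refine sum_congr rfl fun k _ => ?_
    rw [bb, mul_sum]
    exact sum_congr rfl fun j _ => by ring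
  have h2 : ∀ v ∈ ridgeDictionary, |inner ℝ v h| ≤ √((2 * n + 1) * wE K f) := by
    rintro v ⟨⟨g, e, he, hg⟩, hv1⟩
    have hR : RidgeIn e v := ⟨g, hg⟩
    have h3 : inner ℝ v h = ∑ k ∈ range (K + 1), (inner ℝ v (uL k e) / √(NN k)) *
        (((k : ℝ) + 1) * inner ℝ f (uL k e) / √(NN k)) := by
      rw [hh, inner_sum]
      simp_rw [inner_sum, inner_smul_right]
      rw [sum_comm]
      refine sum_congr rfl fun k hk => ?_
      have hN := NN_pos k
      have h4 : ∀ j ∈ range (K + 1), ((k : ℝ) + 1) * (wt K k * inner ℝ f (uL k (dd K j))) *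
          inner ℝ v (uL k (dd K j)) = ((k : ℝ) + 1) * (inner ℝ v (uL k e) / NN k) *
          (wt K k * inner ℝ f (uL k (dd K j)) * inner ℝ (uL k (dd K j)) (uL k e)) := by
        intro j _
        rw [ridge_key he (norm_dd K j) hR k, inner_uL_eq k (norm_dd K j) he,
          real_inner_comm e (dd K j)]
        field_simp
      rw [sum_congr rfl h4, ← mul_sum, frame_id (by have := mem_range.1 hk; omega) f he]
      rw [div_mul_div_comm, Real.mul_self_sqrt hN.le]
      ring
    have h5 := sum_mul_sq_le_sq_mul_sq (range (K + 1)) (fun k => inner ℝ v (uL k e) / √(NN k))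
      (fun k => ((k : ℝ) + 1) * inner ℝ f (uL k e) / √(NN k))
    rw [← h3] at h5
    have h6 : ∑ k ∈ range (K + 1), (inner ℝ v (uL k e) / √(NN k)) ^ 2 ≤ 1 := by
      have h7 : ∀ k ∈ range (K + 1), (inner ℝ v (uL k e) / √(NN k)) ^ 2
          = inner ℝ v (uL k e) ^ 2 / NN k := fun k _ => by
        rw [div_pow, Real.sq_sqrt (NN_nonneg k)]
      rw [sum_congr rfl h7]
      have := bessel K he v
      rwa [hv1, one_pow] at this
    have h8 : ∑ k ∈ range (K + 1), (((k : ℝ) + 1) * inner ℝ f (uL k e) / √(NN k)) ^ 2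
        ≤ (2 * n + 1) * wE K f := by
      rw [wE, mul_sum]
      refine sum_le_sum fun k _ => ?_
      have hN := NN_pos k
      rw [div_pow, Real.sq_sqrt hN.le, mul_pow]
      have h9 := inner_sq_le hn hf k he
      have h10 : bb K k f = ((k : ℝ) + 1) / NN k *
          (((K : ℝ) + 1)⁻¹ * ∑ j ∈ range (K + 1), inner ℝ f (uL k (dd K j)) ^ 2) := by
        rw [bb, ← mul_sum, wt]
        field_simp
      rw [h10, div_le_iff₀ hN]
      calc ((k : ℝ) + 1) ^ 2 * inner ℝ f (uL k e) ^ 2
          ≤ ((k : ℝ) + 1) ^ 2 * ((2 * n + 1) * (((K : ℝ) + 1)⁻¹ *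
            ∑ j ∈ range (K + 1), inner ℝ f (uL k (dd K j)) ^ 2)) :=
            mul_le_mul_of_nonneg_left h9 (by positivity)
        _ = _ := by field_simp
    have h11 : inner ℝ v h ^ 2 ≤ (2 * n + 1) * wE K f := by
      refine h5.trans ((mul_le_mul h6 h8 (sum_nonneg fun _ _ => sq_nonneg _) zero_le_one).trans ?_)
      rw [one_mul]
    rw [← Real.sqrt_sq_eq_abs]
    exact Real.sqrt_le_sqrt h11
  have h12 := inner_le_of_classA1 hA h2
  rw [h1] at h12
  have hw := wE_nonneg K f
  have h13 : wE K f ^ 2 ≤ (2 * n + 1) * wE K f := by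
    have := pow_le_pow_left₀ hw h12 2
    rwa [Real.sq_sqrt (by positivity)] at this
  rcases eq_or_lt_of_le hw with h14 | h14
  · rw [← h14]; positivity
  · rw [sq] at h13
    exact le_of_mul_le_mul_right h13 h14

/-- **Half-smoothness.** -/
theorem sum_dist_le {n : ℕ} {f : L2D} (hf : AngularDegreeLE n f) (hA : f ∈ classA1) (L : ℕ) :
    ‖f‖ ^ 2 + ∑ K ∈ range L, ‖f - (Pol K).starProjection f‖ ^ 2 ≤ 2 * n + 1 := by
  refine le_of_forall_pos_le_add fun ε hε => ?_
  have hL : (0 : ℝ) < (L : ℝ) + 1 := by positivity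
  obtain ⟨K0, hK0⟩ := exists_proj_near f (Real.sqrt_pos.2 (div_pos hε hL))
  set K := max K0 (max L (2 * n)) with hK
  have h1 := wE_le_of_mem (K := K) (by omega) hf hA
  rw [wE_eq] at h1
  have h2 : ‖f - (Pol K).starProjection f‖ ^ 2 ≤ ε / (L + 1) := by
    refine (proj_anti (by omega : K0 ≤ K) f).trans ?_
    have := pow_le_pow_left₀ (norm_nonneg _) hK0.le 2
    rwa [Real.sq_sqrt (by positivity)] at this
  have h3 : ∑ k ∈ range L, (‖(Pol K).starProjection f‖ ^ 2 - ‖(Pol k).starProjection f‖ ^ 2)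
      ≤ ∑ k ∈ range K, (‖(Pol K).starProjection f‖ ^ 2 - ‖(Pol k).starProjection f‖ ^ 2) := by
    refine sum_le_sum_of_subset_of_nonneg (range_subset_range.2 (by omega)) fun k hk _ => ?_
    have h4 := proj_anti (by have := mem_range.1 hk; omega : k ≤ K) f
    rw [norm_sq_sub_proj, norm_sq_sub_proj] at h4
    linarith
  have h5 : ∀ k ∈ range L, ‖f - (Pol k).starProjection f‖ ^ 2
      = (‖(Pol K).starProjection f‖ ^ 2 - ‖(Pol k).starProjection f‖ ^ 2)
        + ‖f - (Pol K).starProjection f‖ ^ 2 := by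
    intro k _
    rw [norm_sq_sub_proj, norm_sq_sub_proj]; ring
  rw [sum_congr rfl h5, sum_add_distrib, sum_const, card_range, nsmul_eq_mul]
  have h6 := norm_sq_sub_proj K f
  have h7 : ((L : ℝ) + 1) * ‖f - (Pol K).starProjection f‖ ^ 2 ≤ ε := by
    rw [le_div_iff₀ hL] at h2
    linarith
  nlinarith

end Pool.Agent.Lib.MP_7d2bee_an
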