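import Pool.Agent.Lib.MP_7d2bee_an.Defs

/-!
# Basic facts: the measure of disks, the Riemann-Lebesgue lemma, plane waves
-/

set_option autoImplicit false

namespace Pool.Agent.Lib.MP_7d2bee_an

open MeasureTheory Filter Topology

theorem diskMeasure_closedBall {r : ℝ} (h0 : 0 ≤ r) (h1 : r ≤ 1) :
    diskMeasure (Metric.closedBall 0 r) = ENNReal.ofReal (r ^ 2) := by
  have hsub : Metric.closedBall (0 : Plane) r ∩ Metric.closedBall 0 1 = Metric.closedBall 0 r :=
    Set.inter_eq_left.2 (Metric.closedBall_subset_closedBall h1)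
  rw [diskMeasure, Measure.smul_apply, Measure.restrict_apply measurableSet_closedBall, hsub,
    EuclideanSpace.volume_closedBall_fin_two, smul_eq_mul]
  rw [mul_comm (ENNReal.ofReal r ^ 2), ← mul_assoc, ← ENNReal.ofReal_mul (by positivity),
    inv_mul_cancel₀ Real.pi_ne_zero, ENNReal.ofReal_one, one_mul, ENNReal.ofReal_pow h0]

instance : IsProbabilityMeasure diskMeasure := by
  constructor
  have h := diskMeasure_closedBall (r := 1) zero_le_one le_rfl
  have h2 : diskMeasure (Metric.closedBall (0 : Plane) 1)ᶜ = 0 := by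
    rw [diskMeasure, Measure.smul_apply, Measure.restrict_apply
      measurableSet_closedBall.compl, Set.compl_inter_self, measure_empty, smul_zero]
  have h3 := measure_add_measure_compl (μ := diskMeasure)
    (measurableSet_closedBall (x := (0 : Plane)) (ε := 1))
  rw [h, h2, add_zero] at h3
  rw [← h3]; norm_num

theorem diskMeasure_real_closedBall {r : ℝ} (h0 : 0 ≤ r) (h1 : r ≤ 1) :
    diskMeasure.real (Metric.closedBall 0 r) = r ^ 2 := by
  rw [Measure.real, diskMeasure_closedBall h0 h1, ENNReal.toReal_ofReal (by positivity)]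

theorem integral_disk (h : Plane → ℝ) :
    ∫ x, h x ∂diskMeasure = Real.pi⁻¹ * ∫ x in Metric.closedBall 0 1, h x := by
  rw [diskMeasure, integral_smul_measure, ENNReal.toReal_ofReal (by positivity), smul_eq_mul]

theorem setIntegral_disk (h : Plane → ℝ) {r : ℝ} (h1 : r ≤ 1) :
    ∫ x in Metric.closedBall 0 r, h x ∂diskMeasure
      = Real.pi⁻¹ * ∫ x in Metric.closedBall 0 r, h x := by
  have hsub : Metric.closedBall (0 : Plane) r ∩ Metric.closedBall 0 1 = Metric.closedBall 0 r :=
    Set.inter_eq_left.2 (Metric.closedBall_subset_closedBall h1)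
  rw [diskMeasure, Measure.restrict_smul, Measure.restrict_restrict measurableSet_closedBall,
    hsub, integral_smul_measure, ENNReal.toReal_ofReal (by positivity), smul_eq_mul]

/-- Riemann-Lebesgue for disks -/
theorem tendsto_integral_cos {w : Plane} (hw : w ≠ 0) {r : ℝ} (h1 : r ≤ 1) :
    Tendsto (fun l : ℝ => ∫ x in Metric.closedBall (0 : Plane) r,
      Real.cos (l * inner ℝ x w) ∂diskMeasure) atTop (𝓝 0) := by
  have key := tendsto_integral_exp_inner_smul_cocompact (V := Plane)
    (f := (Metric.closedBall (0 : Plane) r).indicator (fun _ => (1 : ℂ)))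
  have hmap : Tendsto (fun l : ℝ => (-(2 * Real.pi)⁻¹ * l) • w) atTop (cocompact Plane) := by
    rw [← Metric.cobounded_eq_cocompact, ← tendsto_norm_atTop_iff_cobounded]
    have : ∀ l : ℝ, ‖(-(2 * Real.pi)⁻¹ * l) • w‖ = ((2 * Real.pi)⁻¹ * ‖w‖) * |l| := by
      intro l
      rw [norm_smul, norm_mul, norm_neg, norm_inv, Real.norm_of_nonneg (by positivity),
        Real.norm_eq_abs]; ring
    simp_rw [this]
    exact (tendsto_abs_atTop_atTop).const_mul_atTop (by
      have := norm_pos_iff.2 hw
      positivity)
  have h2 := key.comp hmap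
  have h3 := (Complex.continuous_re.tendsto _).comp h2
  have h4 := h3.const_mul (Real.pi⁻¹)
  rw [Complex.zero_re, mul_zero] at h4
  refine h4.congr fun l => ?_
  rw [setIntegral_disk _ h1]
  congr 1
  simp only [Function.comp]
  have hint : Integrable (fun v : Plane => Real.fourierChar
      (-(inner ℝ v ((-(2 * Real.pi)⁻¹ * l) • w) : ℝ)) •
      (Metric.closedBall (0 : Plane) r).indicator (fun _ => (1 : ℂ)) v) := by
    have hi : Integrable ((Metric.closedBall (0 : Plane) r).indicator (fun _ => (1 : ℂ))) :=
      (integrable_indicator_iff measurableSet_closedBall).2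
        (integrableOn_const (measure_closedBall_lt_top).ne)
    exact (Real.fourierIntegral_convergent_iff _).2 hi
  have h5 := integral_re hint
  simp only [RCLike.re_to_complex] at h5
  rw [← h5, ← integral_indicator measurableSet_closedBall]
  refine integral_congr_ae (Eventually.of_forall fun x => ?_)
  by_cases hx : x ∈ Metric.closedBall (0 : Plane) r
  · simp only [Set.indicator_of_mem hx, Circle.smul_def, Real.fourierChar_apply, smul_eq_mul,
      mul_one, inner_smul_right]
    rw [Complex.exp_ofReal_mul_I_re]
    congr 1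
    have := Real.pi_ne_zero
    field_simp
  · simp [Set.indicator_of_notMem hx]

end Pool.Agent.Lib.MP_7d2bee_an
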