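import Pool.Agent.Lib.MP_7d2bee_an.Exist

/-!
# Integrals of Chebyshev ridge polynomials over chords
-/

set_option autoImplicit false

namespace Pool.Agent.Lib.MP_7d2bee_an

open MeasureTheory Filter Topology Finset Polynomial.Chebyshev

theorem exists_angle {c s : ℝ} (h : c ^ 2 + s ^ 2 = 1) :
    ∃ φ : ℝ, c = Real.cos φ ∧ s = Real.sin φ := by
  have hn : ‖(⟨c, s⟩ : ℂ)‖ = 1 := by
    rw [Complex.norm_def, Complex.normSq_mk, Real.sqrt_eq_one]; nlinarith
  have h0 : (⟨c, s⟩ : ℂ) ≠ 0 := by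
    intro h0; rw [h0, norm_zero] at hn; exact zero_ne_one hn
  refine ⟨Complex.arg ⟨c, s⟩, ?_, ?_⟩
  · rw [Complex.cos_arg h0, hn, div_one]
  · rw [Complex.sin_arg, hn, div_one]

/-- values of the Chebyshev polynomials of the second kind -/
noncomputable def chU (k : ℕ) (t : ℝ) : ℝ := (U ℝ (k : ℤ)).eval t

theorem chU_cos (k : ℕ) (θ : ℝ) : chU k (Real.cos θ) * Real.sin θ = Real.sin ((k + 1) * θ) := by
  simp [chU]

theorem chU_one (k : ℕ) : chU k 1 = k + 1 := by simp [chU]

theorem continuous_chU (k : ℕ) : Continuous (chU k) := (U ℝ (k : ℤ)).continuous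

theorem chU_zero (t : ℝ) : chU 0 t = 1 := by simp [chU]

theorem chU_one' (t : ℝ) : chU 1 t = 2 * t := by simp [chU]

theorem chU_add_two (k : ℕ) (t : ℝ) : chU (k + 2) t = 2 * t * chU (k + 1) t - chU k t := by
  simp [chU]

theorem chU_neg (k : ℕ) (t : ℝ) : chU k (-t) = (-1) ^ k * chU k t := by
  induction k using Nat.twoStepInduction with
  | zero => simp [chU_zero]
  | one => simp [chU_one']
  | more k h1 h2 =>
    rw [chU_add_two, chU_add_two, h1, h2]; ring

theorem hasDerivAt_T (k : ℕ) (x : ℝ) :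
    HasDerivAt (fun y => (T ℝ ((k : ℤ) + 1)).eval y) ((k + 1) * chU k x) x := by
  have h := (T ℝ ((k : ℤ) + 1)).hasDerivAt x
  rw [T_derivative_eq_U] at h
  simpa [chU] using h

theorem chord_integral (k : ℕ) {c s t : ℝ} (h : c ^ 2 + s ^ 2 = 1) (ht : t ^ 2 ≤ 1) :
    ∫ σ in (-√(1 - t ^ 2))..√(1 - t ^ 2), chU k (t * c + σ * s)
      = 2 * √(1 - t ^ 2) * chU k t * (chU k c / (k + 1)) := by
  have hk : (k : ℝ) + 1 ≠ 0 := by positivity
  obtain ⟨φ, hc, hs⟩ := exists_angle h
  have ht1 : -1 ≤ t := by nlinarith [sq_nonneg (t - 1)]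
  have ht2 : t ≤ 1 := by nlinarith [sq_nonneg (t + 1)]
  set τ := Real.arccos t with hτ
  have hcos : Real.cos τ = t := Real.cos_arccos ht1 ht2
  have hsin : √(1 - t ^ 2) = Real.sin τ := (Real.sin_arccos t).symm
  by_cases hs0 : s = 0
  · subst hs0
    have hc2 : c * c = 1 := by nlinarith
    simp only [mul_zero, add_zero, intervalIntegral.integral_const, smul_eq_mul]
    rcases mul_self_eq_one_iff.1 hc2 with rfl | rfl
    · rw [mul_one, chU_one, div_self hk]; ring
    · rw [mul_neg, mul_one, chU_neg, show (-1 : ℝ) = -(1 : ℝ) from rfl, chU_neg k 1, chU_one]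
      field_simp
      ring
  · have hderiv : ∀ σ ∈ Set.uIcc (-√(1 - t ^ 2)) (√(1 - t ^ 2)),
        HasDerivAt (fun σ : ℝ => (T ℝ ((k : ℤ) + 1)).eval (t * c + σ * s) / ((k + 1) * s))
          (chU k (t * c + σ * s)) σ := by
      intro σ _
      have h1 : HasDerivAt (fun σ : ℝ => t * c + σ * s) s σ := by
        simpa using ((hasDerivAt_id σ).mul_const s).const_add (t * c)
      have h2 := ((hasDerivAt_T k (t * c + σ * s)).comp σ h1).div_const ((k + 1) * s)
      have h3 : (k + 1) * chU k (t * c + σ * s) * s / ((k + 1) * s) = chU k (t * c + σ * s) := by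
        field_simp
      rw [h3] at h2
      exact h2
    rw [intervalIntegral.integral_eq_sub_of_hasDerivAt hderiv
      (((continuous_chU k).comp (continuous_const.add
        (continuous_id.mul continuous_const))).intervalIntegrable _ _)]
    have e1 : t * c + √(1 - t ^ 2) * s = Real.cos (τ - φ) := by
      rw [Real.cos_sub, hcos, hsin, hc, hs]
    have e2 : t * c + -√(1 - t ^ 2) * s = Real.cos (τ + φ) := by
      rw [Real.cos_add, hcos, hsin, hc, hs]; ring
    rw [e1, e2, T_real_cos, T_real_cos]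
    have hu1 := chU_cos k τ
    have hu2 := chU_cos k φ
    rw [hcos, ← hsin] at hu1
    rw [← hc, ← hs] at hu2
    have e3 : Real.cos ((((k : ℤ) + 1 : ℤ) : ℝ) * (τ - φ)) - Real.cos ((((k : ℤ) + 1 : ℤ) : ℝ) * (τ + φ))
        = 2 * Real.sin ((k + 1) * τ) * Real.sin ((k + 1) * φ) := by
      have hcast : (((k : ℤ) + 1 : ℤ) : ℝ) = (k : ℝ) + 1 := by push_cast; ring
      rw [hcast, mul_sub, mul_add, Real.cos_sub, Real.cos_add]; ring
    rw [← sub_div, e3, ← hu1, ← hu2]
    field_simp

/-! ### coordinates -/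

/-- the coordinates of the plane -/
noncomputable def coord : Plane ≃ᵐ ℝ × ℝ :=
  (MeasurableEquiv.toLp 2 (Fin 2 → ℝ)).symm.trans MeasurableEquiv.finTwoArrow

theorem mp_coord : MeasurePreserving coord (volume : Measure Plane) (volume : Measure (ℝ × ℝ)) :=
  (EuclideanSpace.volume_preserving_symm_measurableEquiv_toLp (Fin 2)).trans
    (volume_preserving_finTwoArrow ℝ)

theorem coord_symm (p : ℝ × ℝ) : coord.symm p = !₂[p.1, p.2] := rfl

theorem mem_ball_iff (t σ : ℝ) :
    (!₂[t, σ] : Plane) ∈ Metric.closedBall (0 : Plane) 1 ↔ t ^ 2 + σ ^ 2 ≤ 1 := by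
  have h : ‖(!₂[t, σ] : Plane)‖ ^ 2 = t ^ 2 + σ ^ 2 := by rw [norm_sq_plane]; simp
  rw [mem_closedBall_zero_iff, ← h]
  constructor
  · intro h1; exact pow_le_one₀ (norm_nonneg _) h1
  · intro h1; exact (sq_le_one_iff₀ (norm_nonneg _)).1 h1

theorem ae_disk_iff {P : Plane → Prop} : (∀ᵐ x ∂diskMeasure, P x) ↔
    ∀ᵐ x : Plane, x ∈ Metric.closedBall (0 : Plane) 1 → P x := by
  rw [← ae_restrict_iff' measurableSet_closedBall, diskMeasure]
  exact Measure.ae_ennreal_smul_measure_iff (by simpa using Real.pi_pos)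

/-- Fubini on the disk -/
theorem integral_disk_eq {F : Plane → ℝ} (hF : Integrable F diskMeasure) :
    ∫ x, F x ∂diskMeasure = Real.pi⁻¹ * ∫ t : ℝ, ∫ σ : ℝ,
      (Metric.closedBall (0 : Plane) 1).indicator F !₂[t, σ] := by
  rw [integral_disk, ← integral_indicator measurableSet_closedBall]
  congr 1
  have hF' : Integrable ((Metric.closedBall (0 : Plane) 1).indicator F) := by
    rw [integrable_indicator_iff measurableSet_closedBall]
    rw [diskMeasure] at hF
    exact (integrable_smul_measure (by simpa using Real.pi_pos) ENNReal.ofReal_ne_top).1 hF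
  have h1 := (mp_coord.symm coord).integral_comp' ((Metric.closedBall (0 : Plane) 1).indicator F)
  rw [← h1]
  have h2 : Integrable (fun p : ℝ × ℝ =>
      (Metric.closedBall (0 : Plane) 1).indicator F (coord.symm p)) :=
    (mp_coord.symm coord).integrable_comp_emb coord.symm.measurableEmbedding |>.2 hF'
  exact integral_prod _ h2

/-- the chord integral of an indicator -/
theorem integral_chord (h : ℝ → ℝ) (t : ℝ) (F : Plane → ℝ) (hF : ∀ σ, F !₂[t, σ] = h σ) :
    ∫ σ : ℝ, (Metric.closedBall (0 : Plane) 1).indicator F !₂[t, σ]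
      = if t ^ 2 ≤ 1 then ∫ σ in (-√(1 - t ^ 2))..√(1 - t ^ 2), h σ else 0 := by
  split_ifs with ht
  · have hw : 0 ≤ √(1 - t ^ 2) := Real.sqrt_nonneg _
    rw [intervalIntegral.integral_of_le (by linarith), ← integral_Icc_eq_integral_Ioc,
      ← integral_indicator measurableSet_Icc]
    congr 1
    funext σ
    have hiff : (!₂[t, σ] : Plane) ∈ Metric.closedBall (0 : Plane) 1
        ↔ σ ∈ Set.Icc (-√(1 - t ^ 2)) (√(1 - t ^ 2)) := by
      rw [mem_ball_iff, Set.mem_Icc, ← abs_le, ← Real.sqrt_sq_eq_abs]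
      rw [Real.sqrt_le_sqrt_iff (by linarith)]
      constructor <;> intro h <;> linarith
    by_cases hm : (!₂[t, σ] : Plane) ∈ Metric.closedBall (0 : Plane) 1
    · rw [Set.indicator_of_mem hm, Set.indicator_of_mem (hiff.1 hm), hF]
    · rw [Set.indicator_of_notMem hm, Set.indicator_of_notMem fun h => hm (hiff.2 h)]
  · have : ∀ σ : ℝ, (Metric.closedBall (0 : Plane) 1).indicator F !₂[t, σ] = 0 := by
      intro σ
      rw [Set.indicator_of_notMem]
      rw [mem_ball_iff]
      intro h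
      exact ht (by nlinarith [sq_nonneg σ])
    simp [this]

/-- classes of continuous functions -/
theorem memLp_cont {h : Plane → ℝ} (hc : Continuous h) : MemLp h 2 diskMeasure := by
  obtain ⟨C, hC⟩ := (isCompact_closedBall (0 : Plane) 1).exists_bound_of_continuousOn
    hc.continuousOn
  refine MemLp.of_bound hc.aestronglyMeasurable C ?_
  have h2 : ∀ᵐ x ∂diskMeasure, x ∈ Metric.closedBall (0 : Plane) 1 :=
    ae_disk_iff.2 (Eventually.of_forall fun _ h => h)
  filter_upwards [h2] with x hx using hC x hx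

/-- the Chebyshev ridge polynomial -/
noncomputable def uF (k : ℕ) (e : Plane) (x : Plane) : ℝ := chU k (inner ℝ x e)

theorem continuous_uF (k : ℕ) (e : Plane) : Continuous (uF k e) :=
  (continuous_chU k).comp (continuous_id.inner continuous_const)

/-- the Chebyshev ridge polynomial as an element of the Hilbert space -/
noncomputable def uL (k : ℕ) (e : Plane) : L2D := (memLp_cont (continuous_uF k e)).toLp (uF k e)

/-- ridge functions in a given direction -/
def RidgeIn (e : Plane) (u : L2D) : Prop :=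
  ∃ g : ℝ → ℝ, ∀ᵐ x ∂diskMeasure, u x = g (inner ℝ x e)

theorem inner_uL (v : L2D) (k : ℕ) (e : Plane) :
    inner ℝ v (uL k e) = ∫ x, v x * uF k e x ∂diskMeasure := inner_toLp v _

theorem inner_expand (t σ : ℝ) (e : Plane) : inner ℝ (!₂[t, σ] : Plane) e = t * e 0 + σ * e 1 := by
  simp [PiLp.inner_apply, Fin.sum_univ_two]
  ring

theorem chord_key {v : L2D} (hv : RidgeIn e0 v) (k : ℕ) {e : Plane} (he : ‖e‖ = 1) :
    inner ℝ v (uL k e) = chU k (e 0) / (k + 1) * inner ℝ v (uL k e0) := by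
  obtain ⟨g, hg⟩ := hv
  have hc : e 0 ^ 2 + e 1 ^ 2 = 1 := by rw [← norm_sq_plane, he]; norm_num
  have hk : (k : ℝ) + 1 ≠ 0 := by positivity
  have hint : ∀ e : Plane, Integrable (fun x => v x * uF k e x) diskMeasure := fun e =>
    (Lp.memLp v).integrable_mul (memLp_cont (continuous_uF k e))
  rw [inner_uL, inner_uL, integral_disk_eq (hint e), integral_disk_eq (hint e0), mul_left_comm]
  congr 1
  rw [← integral_const_mul]
  -- the null set
  have h1 : ∀ᵐ x : Plane, x ∈ Metric.closedBall (0 : Plane) 1 → v x = g (inner ℝ x e0) :=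
    ae_disk_iff.1 hg
  have h2 : ∀ᵐ p : ℝ × ℝ, coord.symm p ∈ Metric.closedBall (0 : Plane) 1 →
      v (coord.symm p) = g (inner ℝ (coord.symm p) e0) :=
    (mp_coord.symm coord).quasiMeasurePreserving.ae h1
  have h3 : ∀ᵐ t : ℝ, ∀ᵐ σ : ℝ, (!₂[t, σ] : Plane) ∈ Metric.closedBall (0 : Plane) 1 →
      v !₂[t, σ] = g (inner ℝ (!₂[t, σ] : Plane) e0) := Measure.ae_ae_of_ae_prod h2
  refine integral_congr_ae ?_
  filter_upwards [h3] with t ht
  have key : ∀ e : Plane, ∫ σ : ℝ, (Metric.closedBall (0 : Plane) 1).indicator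
      (fun x => v x * uF k e x) !₂[t, σ]
      = g t * ∫ σ : ℝ, (Metric.closedBall (0 : Plane) 1).indicator (uF k e) !₂[t, σ] := by
    intro e
    rw [← integral_const_mul]
    refine integral_congr_ae ?_
    filter_upwards [ht] with σ hσ
    by_cases hm : (!₂[t, σ] : Plane) ∈ Metric.closedBall (0 : Plane) 1
    · rw [Set.indicator_of_mem hm, Set.indicator_of_mem hm, hσ hm, inner_expand]
      simp [e0]
    · rw [Set.indicator_of_notMem hm, Set.indicator_of_notMem hm, mul_zero]
  rw [key e, key e0, integral_chord (fun σ => chU k (t * e 0 + σ * e 1)) t (uF k e)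
    (fun σ => by rw [uF, inner_expand]),
    integral_chord (fun σ => chU k (t * (1 : ℝ) + σ * 0)) t (uF k e0)
    (fun σ => by rw [uF, inner_expand]; simp [e0])]
  split_ifs with ht1
  · rw [chord_integral k hc ht1, chord_integral k (c := 1) (s := 0) (by norm_num) ht1, chU_one]
    field_simp
  · simp

end Pool.Agent.Lib.MP_7d2bee_an
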