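import Pool.Agent.Lib.MP_7d2bee_an.Defs

/-!
# Classes of starting elements defined by polynomial approximation
-/

set_option autoImplicit false

namespace Pool.Agent.Lib.MP_7d2bee_an

open MeasureTheory

/-- the polynomials of total degree at most `K` in the two coordinates, as elements of
`L_2(D)` -/
def polySet (K : ℕ) : Set L2D :=
  {u | ∃ p : MvPolynomial (Fin 2) ℝ, p.totalDegree ≤ K ∧
    ∀ᵐ x ∂diskMeasure, u x = MvPolynomial.eval (fun i => x i) p}

/-- the distance in `L_2(D)` to the polynomials of degree at most `K` -/
noncomputable def polyDist (K : ℕ) (f : L2D) : ℝ := Metric.infDist f (polySet K)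

/-- all `f` whose distance to the polynomials of degree at most `K` is at most
`M (K + 1) ^ (-s)`, for every `K` -/
def approxClass (s M : ℝ) : Set L2D := {f | ∀ K : ℕ, polyDist K f ≤ M * ((K : ℝ) + 1) ^ (-s)}

/-- the supremum of the norms of the `m`-th residuals over all starting elements in `A` and all
realizations of the pure greedy algorithm for ridge functions -/
noncomputable def greedyRateOn (A : Set L2D) (m : ℕ) : ℝ :=
  sSup {r | ∃ f φ : ℕ → L2D, f 0 ∈ A ∧ IsRealization f φ ∧ r = ‖f m‖}

end Pool.Agent.Lib.MP_7d2bee_an
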