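import Mathlib

/-!
# The pure greedy algorithm for ridge functions on the disk: definitions
-/

set_option autoImplicit false

namespace Pool.Agent.Lib.MP_7d2bee_an

open MeasureTheory

/-- the plane `R^2` -/
abbrev Plane : Type := EuclideanSpace ℝ (Fin 2)

/-- Lebesgue measure on the closed unit disk `D`, divided by the area `π` of `D` -/
noncomputable def diskMeasure : Measure Plane :=
  ENNReal.ofReal Real.pi⁻¹ • (volume : Measure Plane).restrict (Metric.closedBall 0 1)

/-- the real Hilbert space `L_2(D)`, with inner product `(1/π) ∫_D f h` -/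
abbrev L2D : Type := Lp ℝ 2 diskMeasure

/-- `u` is a ridge function on the disk: `u(x) = g(<x, e>)` almost everywhere in `D`, for some
`g : R → R` and some unit vector `e` -/
def IsRidge (u : L2D) : Prop :=
  ∃ (g : ℝ → ℝ) (e : Plane), ‖e‖ = 1 ∧ ∀ᵐ x ∂diskMeasure, u x = g (inner ℝ x e)

/-- the dictionary `R_2` of all ridge functions of norm one -/
def ridgeDictionary : Set L2D := {u | IsRidge u ∧ ‖u‖ = 1}

/-- the class `A_1(R_2)`: the closure of the convex hull of `{± g : g ∈ R_2}` -/
def classA1 : Set L2D := closure (convexHull ℝ {u | u ∈ ridgeDictionary ∨ -u ∈ ridgeDictionary})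

/-- a realization of the pure greedy algorithm with residuals `f 0, f 1, ...` and chosen
dictionary elements `φ 0, φ 1, ...` -/
structure IsRealization (f φ : ℕ → L2D) : Prop where
  mem : ∀ k, φ k ∈ ridgeDictionary
  isMax : ∀ k, ∀ g ∈ ridgeDictionary, |inner ℝ (f k) g| ≤ |inner ℝ (f k) (φ k)|
  step : ∀ k, f (k + 1) = f k - (inner ℝ (f k) (φ k) : ℝ) • φ k

/-- `γ(m, R_2)`: the supremum of the norms of the `m`-th residuals over all starting elements in
`A_1(R_2)` and all realizations -/
noncomputable def greedyRate (m : ℕ) : ℝ :=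
  sSup {r | ∃ f φ : ℕ → L2D, f 0 ∈ classA1 ∧ IsRealization f φ ∧ r = ‖f m‖}

end Pool.Agent.Lib.MP_7d2bee_an
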