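import Pool.Agent.Lib.MP_7d2bee_an.Energy

/-!
# Polynomials are dense in `L_2(D)`
-/

set_option autoImplicit false

namespace Pool.Agent.Lib.MP_7d2bee_an

open MeasureTheory Filter Topology Finset

/-- the coordinate functions -/
noncomputable def crd (i : Fin 2) : C(Plane, ℝ) := ⟨fun x => x i, by fun_prop⟩

/-- the polynomial functions -/
noncomputable def polyAlg : Subalgebra ℝ C(Plane, ℝ) := (MvPolynomial.aeval crd).range

theorem aeval_crd (p : MvPolynomial (Fin 2) ℝ) (x : Plane) :
    (MvPolynomial.aeval crd p : C(Plane, ℝ)) x = MvPolynomial.eval (fun i => x i) p := by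
  induction p using MvPolynomial.induction_on with
  | C a => simp
  | add p q hp hq => rw [map_add, map_add, ContinuousMap.add_apply, hp, hq]
  | mul_X p i hp =>
    rw [map_mul, map_mul, ContinuousMap.mul_apply, hp, MvPolynomial.aeval_X, MvPolynomial.eval_X]
    rfl

theorem polyAlg_separates : polyAlg.SeparatesPoints := by
  intro x y hxy
  have : ∃ i, x i ≠ y i := by
    by_contra h
    exact hxy (by ext i; exact not_not.1 fun h2 => h ⟨i, h2⟩)
  obtain ⟨i, hi⟩ := this
  refine ⟨crd i, ⟨crd i, ?_, rfl⟩, hi⟩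
  exact ⟨MvPolynomial.X i, MvPolynomial.aeval_X _ _⟩

/-- density -/
theorem exists_proj_near (u : L2D) {ε : ℝ} (hε : 0 < ε) :
    ∃ K, ‖u - (Pol K).starProjection u‖ < ε := by
  have h1 : DenseRange (BoundedContinuousFunction.toLp 2 diskMeasure ℝ :
      (BoundedContinuousFunction Plane ℝ) →L[ℝ] Lp ℝ 2 diskMeasure) :=
    BoundedContinuousFunction.toLp_denseRange _ _ ℝ (by norm_num)
  obtain ⟨g, hg⟩ := h1.exists_dist_lt u (half_pos hε)
  obtain ⟨q, ⟨p, hp⟩, hq⟩ :=
    ContinuousMap.exists_mem_subalgebra_near_continuous_of_isCompact_of_separatesPoints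
      polyAlg_separates g.toContinuousMap (isCompact_closedBall (0 : Plane) 1) (half_pos hε)
  have hp' : ∀ x ∈ Metric.closedBall (0 : Plane) 1,
      ‖MvPolynomial.eval (fun i => x i) p - g x‖ < ε / 2 := by
    intro x hx
    have := hq x hx
    rw [← hp] at this
    rw [← aeval_crd]
    exact this
  have hcont : Continuous fun x : Plane => MvPolynomial.eval (fun i => x i) p := by
    have := (MvPolynomial.aeval crd p : C(Plane, ℝ)).continuous
    refine this.congr fun x => aeval_crd p x
  set w : L2D := (memLp_cont hcont).toLp _ with hw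
  have hwmem : w ∈ polySet p.totalDegree :=
    ⟨p, le_rfl, (memLp_cont hcont).coeFn_toLp⟩
  refine ⟨p.totalDegree, ?_⟩
  have h2 := norm_sub_proj_le p.totalDegree u
  have h3 : polyDist p.totalDegree u ≤ dist u w := Metric.infDist_le_dist_of_mem hwmem
  have h4 : dist (BoundedContinuousFunction.toLp 2 diskMeasure ℝ g) w ≤ ε / 2 := by
    rw [dist_eq_norm]
    refine (Lp.norm_le_of_ae_bound (C := ε / 2) (by positivity) ?_).trans ?_
    · have hb : ∀ᵐ x ∂diskMeasure, x ∈ Metric.closedBall (0 : Plane) 1 :=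
        ae_disk_iff.2 (Eventually.of_forall fun _ h => h)
      filter_upwards [hb, Lp.coeFn_sub (BoundedContinuousFunction.toLp 2 diskMeasure ℝ g) w,
        BoundedContinuousFunction.coeFn_toLp (p := 2) (𝕜 := ℝ) diskMeasure g,
        (memLp_cont hcont).coeFn_toLp] with x a b c d
      rw [b, Pi.sub_apply, c, hw, d, norm_sub_rev]
      exact (hp' x a).le
    · simp [measureUnivNNReal]
  have h5 := dist_triangle u (BoundedContinuousFunction.toLp 2 diskMeasure ℝ g) w
  linarith

end Pool.Agent.Lib.MP_7d2bee_an
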