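import Pool.Agent.Lib.MP_7d2bee_an.TwoSided

/-!
# The energy in each degree, and the pure greedy algorithm
-/

set_option autoImplicit false

namespace Pool.Agent.Lib.MP_7d2bee_an

open MeasureTheory Filter Topology Finset

/-- the part of degree at most `K'` of the expansion with `K + 1` directions -/
noncomputable def ST (K K' : ℕ) (u : L2D) : L2D :=
  ∑ j ∈ range (K + 1), ∑ k ∈ range (K' + 1),
    (wt K k * inner ℝ u (uL k (dd K j))) • uL k (dd K j)

/-- the energy of `u` in degree `k`, computed with `K + 1` directions -/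
noncomputable def bb (K k : ℕ) (u : L2D) : ℝ :=
  ∑ j ∈ range (K + 1), wt K k * inner ℝ u (uL k (dd K j)) ^ 2

theorem bb_nonneg (K k : ℕ) (u : L2D) : 0 ≤ bb K k u :=
  sum_nonneg fun _ _ => mul_nonneg (wt_nonneg K k) (sq_nonneg _)

theorem inner_ST {K K' : ℕ} (h : K' ≤ K) (u : L2D) {l : ℕ} (hl : l ≤ K') {e : Plane}
    (he : ‖e‖ = 1) : inner ℝ (ST K K' u) (uL l e) = inner ℝ u (uL l e) := by
  have h1 : inner ℝ (ST K K' u) (uL l e) = ∑ j ∈ range (K + 1),
      wt K l * inner ℝ u (uL l (dd K j)) * inner ℝ (uL l (dd K j)) (uL l e) := by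
    rw [ST, sum_inner]
    refine sum_congr rfl fun j _ => ?_
    rw [sum_inner, sum_eq_single l]
    · rw [inner_smul_left, conj_trivial]
    · intro k _ hk
      rw [inner_smul_left, inner_uL_ne hk (norm_dd K j) he, mul_zero]
    · intro h2; exact absurd (mem_range.2 (by omega)) h2
  have h2 : inner ℝ u (SS K (uL l e)) = ∑ j ∈ range (K + 1),
      wt K l * inner ℝ u (uL l (dd K j)) * inner ℝ (uL l (dd K j)) (uL l e) := by
    rw [SS, inner_sum]
    refine sum_congr rfl fun j _ => ?_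
    rw [comp, inner_sum, sum_eq_single l]
    · rw [inner_smul_right, real_inner_comm (uL l (dd K j)) (uL l e)]; ring
    · intro k _ hk
      rw [inner_smul_right, inner_uL_ne (Ne.symm hk) he (norm_dd K j), mul_zero, zero_mul]
    · intro h2; exact absurd (mem_range.2 (by omega)) h2
  rw [h1, ← h2, SS_uL (by omega) he]

theorem proj_eq_ST {K K' : ℕ} (h : K' ≤ K) (u : L2D) :
    (Pol K').starProjection u = ST K K' u := by
  refine Submodule.eq_starProjection_of_mem_of_inner_eq_zero ?_ ?_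
  · exact Submodule.sum_mem _ fun j _ => Submodule.sum_mem _ fun k hk =>
      Submodule.smul_mem _ _ (uL_mem (by have := mem_range.1 hk; omega) (norm_dd K j))
  · intro p hp
    induction hp using Submodule.span_induction with
    | mem x hx =>
      obtain ⟨⟨k, j⟩, rfl⟩ := hx
      rw [inner_sub_left, inner_ST h u (by omega) (norm_dd _ _), sub_self]
    | zero => exact inner_zero_right _
    | add x y _ _ hx hy => rw [inner_add_right, hx, hy, add_zero]
    | smul c x _ hx => rw [inner_smul_right, hx, mul_zero]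

/-- the norm of the projection is the sum of the energies -/
theorem norm_sq_proj {K K' : ℕ} (h : K' ≤ K) (u : L2D) :
    ‖(Pol K').starProjection u‖ ^ 2 = ∑ k ∈ range (K' + 1), bb K k u := by
  set p := (Pol K').starProjection u with hp
  have hpm : p ∈ Pol K' := Submodule.starProjection_apply_mem _ _
  have h1 : ‖p‖ ^ 2 = inner ℝ u p := by
    rw [← real_inner_self_eq_norm_sq]
    have := Submodule.starProjection_inner_eq_zero (K := Pol K') u p hpm
    rw [inner_sub_left, sub_eq_zero] at this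
    exact this.symm
  rw [h1, hp, proj_eq_ST h, ST, inner_sum]
  simp_rw [inner_sum, inner_smul_right]
  rw [sum_comm]
  refine sum_congr rfl fun k _ => ?_
  rw [bb]
  exact sum_congr rfl fun j _ => by ring

/-- one greedy step captures the average energy -/
theorem sum_bb_div_le {r : L2D} {α : ℝ} (hα : ∀ g ∈ ridgeDictionary, |inner ℝ r g| ≤ α)
    (K : ℕ) : ∑ k ∈ range (K + 1), bb K k r / ((k : ℝ) + 1) ≤ α ^ 2 := by
  have hα0 : 0 ≤ α := (abs_nonneg _).trans
    (hα (phL 0 e0) ⟨isRidge_phL 0 norm_e0, norm_phL (by rw [nu_zero]; exact one_pos)⟩)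
  have hdir : ∀ j, ∑ k ∈ range (K + 1), inner ℝ r (uL k (dd K j)) ^ 2 / NN k ≤ α ^ 2 := by
    intro j
    set v : L2D := ∑ k ∈ range (K + 1), (inner ℝ r (uL k (dd K j)) / NN k) • uL k (dd K j)
      with hv
    set E := ∑ k ∈ range (K + 1), inner ℝ r (uL k (dd K j)) ^ 2 / NN k with hE
    have hE0 : 0 ≤ E := sum_nonneg fun k _ => div_nonneg (sq_nonneg _) (NN_nonneg k)
    have h1 : inner ℝ r v = E := by
      rw [hv, inner_sum, hE]
      refine sum_congr rfl fun k _ => ?_
      rw [inner_smul_right]; ring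
    have h2 : ‖v‖ ^ 2 = E := by
      rw [← real_inner_self_eq_norm_sq, hv, sum_inner, hE]
      refine sum_congr rfl fun k hk => ?_
      rw [inner_sum, sum_eq_single k]
      · rw [inner_smul_left, inner_smul_right, norm_sq_uL k (norm_dd K j), conj_trivial]
        have := (NN_pos k).ne'
        field_simp
      · intro l _ hl
        rw [inner_smul_left, inner_smul_right,
          inner_uL_ne (Ne.symm hl) (norm_dd K j) (norm_dd K j), mul_zero, mul_zero]
      · intro h; exact absurd hk h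
    have hR : RidgeIn (dd K j) v := RidgeIn.sum _ fun k _ => (ridgeIn_uL k _).smul _
    rcases eq_or_ne v 0 with h0 | h0
    · rw [h0, norm_zero] at h2
      rw [← h2]
      have := sq_nonneg α
      simpa using this
    · have hn : 0 < ‖v‖ := norm_pos_iff.2 h0
      have h3 : ‖v‖⁻¹ • v ∈ ridgeDictionary := by
        refine ⟨(hR.smul _).isRidge (norm_dd K j), ?_⟩
        rw [norm_smul, norm_inv, norm_norm, inv_mul_cancel₀ hn.ne']
      have h4 := (le_abs_self _).trans (hα _ h3)
      rw [inner_smul_right, h1, ← h2] at h4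
      have h5 : ‖v‖⁻¹ * ‖v‖ ^ 2 = ‖v‖ := by field_simp
      rw [h5] at h4
      rw [← h2]
      exact pow_le_pow_left₀ hn.le h4 2
  have h6 : ∑ k ∈ range (K + 1), bb K k r / ((k : ℝ) + 1)
      = ((K : ℝ) + 1)⁻¹ * ∑ j ∈ range (K + 1), ∑ k ∈ range (K + 1),
        inner ℝ r (uL k (dd K j)) ^ 2 / NN k := by
    rw [sum_comm, mul_sum]
    refine sum_congr rfl fun k _ => ?_
    rw [bb, sum_div, mul_sum]
    refine sum_congr rfl fun j _ => ?_
    rw [wt]
    have := (NN_pos k).ne'
    field_simp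
  have h7 : ∑ j ∈ range (K + 1), ∑ k ∈ range (K + 1),
      inner ℝ r (uL k (dd K j)) ^ 2 / NN k ≤ ((K : ℝ) + 1) * α ^ 2 := by
    refine (sum_le_sum fun j _ => hdir j).trans ?_
    rw [sum_const, card_range, nsmul_eq_mul]
    push_cast
    exact le_rfl
  rw [h6, inv_mul_le_iff₀ (by positivity)]
  exact h7

/-- the weighted energy -/
noncomputable def wE (K : ℕ) (u : L2D) : ℝ := ∑ k ∈ range (K + 1), ((k : ℝ) + 1) * bb K k u

theorem wE_nonneg (K : ℕ) (u : L2D) : 0 ≤ wE K u :=
  sum_nonneg fun k _ => mul_nonneg (by positivity) (bb_nonneg K k u)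

/-- the main inequality -/
theorem norm_sq_proj_le_wE {r : L2D} {α : ℝ} (hα : ∀ g ∈ ridgeDictionary, |inner ℝ r g| ≤ α)
    (hα0 : 0 ≤ α) (K : ℕ) : ‖(Pol K).starProjection r‖ ^ 2 ≤ √(wE K r) * α := by
  rw [norm_sq_proj le_rfl]
  have h1 : (∑ k ∈ range (K + 1), bb K k r) ^ 2 ≤ wE K r * α ^ 2 := by
    have h2 := sum_mul_sq_le_sq_mul_sq (range (K + 1))
      (fun k => √(((k : ℝ) + 1) * bb K k r)) (fun k => √(bb K k r / ((k : ℝ) + 1)))
    have h3 : ∀ k ∈ range (K + 1), √(((k : ℝ) + 1) * bb K k r) * √(bb K k r / ((k : ℝ) + 1))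
        = bb K k r := by
      intro k _
      have hb := bb_nonneg K k r
      rw [← Real.sqrt_mul (by positivity)]
      have : ((k : ℝ) + 1) * bb K k r * (bb K k r / ((k : ℝ) + 1)) = bb K k r ^ 2 := by
        field_simp
      rw [this, Real.sqrt_sq hb]
    have h4 : ∀ k ∈ range (K + 1), √(((k : ℝ) + 1) * bb K k r) ^ 2 = ((k : ℝ) + 1) * bb K k r :=
      fun k _ => Real.sq_sqrt (mul_nonneg (by positivity) (bb_nonneg K k r))
    have h5 : ∀ k ∈ range (K + 1), √(bb K k r / ((k : ℝ) + 1)) ^ 2 = bb K k r / ((k : ℝ) + 1) :=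
      fun k _ => Real.sq_sqrt (div_nonneg (bb_nonneg K k r) (by positivity))
    rw [sum_congr rfl h3, sum_congr rfl h4, sum_congr rfl h5] at h2
    exact h2.trans (mul_le_mul_of_nonneg_left (sum_bb_div_le hα K) (wE_nonneg K r))
  have h2 : 0 ≤ ∑ k ∈ range (K + 1), bb K k r := sum_nonneg fun k _ => bb_nonneg K k r
  refine (sq_le_sq₀ h2 (mul_nonneg (Real.sqrt_nonneg _) hα0)).1 ?_
  rw [mul_pow, Real.sq_sqrt (wE_nonneg K r)]
  exact h1

/-- the distance to the polynomials in terms of the energies -/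
theorem norm_sq_sub_proj (K : ℕ) (u : L2D) :
    ‖u - (Pol K).starProjection u‖ ^ 2 = ‖u‖ ^ 2 - ‖(Pol K).starProjection u‖ ^ 2 := by
  set P := (Pol K).starProjection
  have h1 : inner ℝ (u - P u) (P u) = 0 :=
    Submodule.starProjection_inner_eq_zero _ _ (Submodule.starProjection_apply_mem _ _)
  have h2 : u = (u - P u) + P u := by abel
  have h3 : ‖u‖ ^ 2 = ‖u - P u‖ ^ 2 + ‖P u‖ ^ 2 := by
    conv_lhs => rw [h2]
    rw [@norm_add_sq_real, h1]
    ring
  linarith

/-- Abel summation -/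
theorem wE_eq (K : ℕ) (u : L2D) : wE K u
    = ‖(Pol K).starProjection u‖ ^ 2
      + ∑ k ∈ range K, (‖(Pol K).starProjection u‖ ^ 2 - ‖(Pol k).starProjection u‖ ^ 2) := by
  have key : ∀ L ≤ K, ∑ k ∈ range (L + 1), ((k : ℝ) + 1) * bb K k u
      = ∑ k ∈ range (L + 1), bb K k u
        + ∑ i ∈ range L, (∑ k ∈ range (L + 1), bb K k u - ∑ k ∈ range (i + 1), bb K k u) := by
    intro L
    induction L with
    | zero => intro _; simp
    | succ L ih =>
      intro hL
      have ih' := ih (by omega)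
      rw [sum_range_succ, ih', sum_range_succ (fun k => bb K k u) (L + 1),
        sum_range_succ (fun i => ∑ k ∈ range (L + 1), bb K k u + bb K (L + 1) u
          - ∑ k ∈ range (i + 1), bb K k u) L]
      have h1 : ∑ i ∈ range L, (∑ k ∈ range (L + 1), bb K k u + bb K (L + 1) u
          - ∑ k ∈ range (i + 1), bb K k u)
          = ∑ i ∈ range L, (∑ k ∈ range (L + 1), bb K k u - ∑ k ∈ range (i + 1), bb K k u)
            + L * bb K (L + 1) u := by
        have : ∀ i ∈ range L, ∑ k ∈ range (L + 1), bb K k u + bb K (L + 1) u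
          - ∑ k ∈ range (i + 1), bb K k u = (∑ k ∈ range (L + 1), bb K k u
            - ∑ k ∈ range (i + 1), bb K k u) + bb K (L + 1) u := fun i _ => by ring
        rw [sum_congr rfl this, sum_add_distrib, sum_const, card_range, nsmul_eq_mul]
      rw [h1]
      push_cast
      ring
  rw [wE, key K le_rfl, norm_sq_proj le_rfl]
  congr 1
  refine sum_congr rfl fun k hk => ?_
  rw [norm_sq_proj (K := K) (K' := k) (by have := mem_range.1 hk; omega)]

theorem wE_le (K : ℕ) (u : L2D) : wE K u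
    ≤ ‖u‖ ^ 2 + ∑ k ∈ range K, ‖u - (Pol k).starProjection u‖ ^ 2 := by
  rw [wE_eq]
  have h1 : ∀ k, ‖(Pol k).starProjection u‖ ^ 2 ≤ ‖u‖ ^ 2 := fun k => by
    have := norm_sq_sub_proj k u
    have h2 := sq_nonneg ‖u - (Pol k).starProjection u‖
    linarith
  refine add_le_add (h1 K) (sum_le_sum fun k _ => ?_)
  rw [norm_sq_sub_proj]
  linarith [h1 K]

theorem proj_anti {K K' : ℕ} (h : K' ≤ K) (u : L2D) :
    ‖u - (Pol K).starProjection u‖ ^ 2 ≤ ‖u - (Pol K').starProjection u‖ ^ 2 := by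
  rw [norm_sq_sub_proj, norm_sq_sub_proj, norm_sq_proj h, norm_sq_proj le_rfl]
  have := sum_le_sum_of_subset_of_nonneg (f := fun k => bb K k u)
    (range_subset_range.2 (by omega : K' + 1 ≤ K + 1)) (fun k _ _ => bb_nonneg K k u)
  linarith

/-- the elementary recursion -/
theorem recursion {a : ℕ → ℝ} (h0 : ∀ n, 0 ≤ a n) (h1 : a 0 ≤ 1)
    (h : ∀ n, a (n + 1) ≤ a n - a n ^ 2) (n : ℕ) : a n ≤ 1 / ((n : ℝ) + 1) := by
  induction n with
  | zero => simpa using h1
  | succ n ih =>
    have hn : (0 : ℝ) < (n : ℝ) + 1 := by positivity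
    have h2 := h n
    have h3 := h0 n
    have h4 := h0 (n + 1)
    rw [le_div_iff₀ hn] at ih
    push_cast
    rw [le_div_iff₀ (by positivity)]
    have h5 : a n ≤ 1 := by nlinarith
    have h6 : a n * ((n : ℝ) + 1) ≤ 1 := ih
    have h7 : a (n + 1) * ((n : ℝ) + 1 + 1) ≤ (a n - a n ^ 2) * ((n : ℝ) + 1 + 1) :=
      mul_le_mul_of_nonneg_right h2 (by positivity)
    refine h7.trans ?_
    nlinarith [mul_nonneg h3 (sub_nonneg.2 h6), sq_nonneg (a n)]

/-- **The pure greedy algorithm and the half-smooth norm.** -/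
theorem norm_le_of_wE {f φ : ℕ → L2D} (h : IsRealization f φ) {Q : ℝ} (hQ0 : 0 ≤ Q)
    (hQ : ∀ L : ℕ, ‖f 0‖ ^ 2 + ∑ K ∈ range L, ‖f 0 - (Pol K).starProjection (f 0)‖ ^ 2 ≤ Q ^ 2)
    (m : ℕ) : ‖f m‖ ≤ Q / √((m : ℝ) + 1) := by
  have hstep : ∀ n, ‖f (n + 1)‖ ^ 2 = ‖f n‖ ^ 2 - (inner ℝ (f n) (φ n)) ^ 2 := by
    intro n
    rw [h.step, @norm_sub_sq_real, inner_smul_right, norm_smul, (h.mem n).2, Real.norm_eq_abs,
      mul_one, sq_abs]
    ring
  -- the weighted energies stay bounded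
  have hw : ∀ n L, wE L (f n) ≤ Q ^ 2 := by
    intro n L
    refine (wE_le L (f n)).trans (le_trans ?_ (hQ L))
    refine add_le_add (pow_le_pow_left₀ (norm_nonneg _) (norm_anti h (Nat.zero_le n)) 2)
      (sum_le_sum fun K _ => proj_mono h K n)
  -- the tails are small
  have htail : ∀ n (L : ℕ), (L : ℝ) * ‖f n - (Pol L).starProjection (f n)‖ ^ 2 ≤ Q ^ 2 := by
    intro n L
    have h1 : (L : ℝ) * ‖f n - (Pol L).starProjection (f n)‖ ^ 2
        ≤ ∑ K ∈ range L, ‖f 0 - (Pol K).starProjection (f 0)‖ ^ 2 := by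
      rw [← nsmul_eq_mul, ← card_range L, ← sum_const, card_range]
      refine sum_le_sum fun K hK => ?_
      exact (proj_anti (by have := mem_range.1 hK; omega) (f n)).trans (proj_mono h K n)
    have h2 := hQ L
    have h3 := sq_nonneg ‖f 0‖
    linarith
  have hmain : ∀ n, ‖f n‖ ^ 2 ≤ Q * |inner ℝ (f n) (φ n)| := by
    intro n
    refine le_of_forall_pos_le_add fun ε hε => ?_
    obtain ⟨L, hL⟩ := exists_nat_gt (Q ^ 2 / ε)
    have hL0 : (0 : ℝ) < L := lt_of_le_of_lt (by positivity) hL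
    have h1 := norm_sq_proj_le_wE (h.isMax n) (abs_nonneg _) L
    have h2 : √(wE L (f n)) ≤ Q := (Real.sqrt_le_sqrt (hw n L)).trans_eq (Real.sqrt_sq hQ0)
    have h3 := norm_sq_sub_proj L (f n)
    have h4 : ‖f n - (Pol L).starProjection (f n)‖ ^ 2 ≤ ε := by
      have h5 := htail n L
      rw [div_lt_iff₀ hε] at hL
      by_contra hcon
      rw [not_le] at hcon
      nlinarith
    have h5 : √(wE L (f n)) * |inner ℝ (f n) (φ n)| ≤ Q * |inner ℝ (f n) (φ n)| :=
      mul_le_mul_of_nonneg_right h2 (abs_nonneg _)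
    linarith
  rcases eq_or_lt_of_le hQ0 with hQz | hQp
  · have h1 := hmain m
    rw [← hQz, zero_mul] at h1
    have h2 : ‖f m‖ = 0 := by
      have := norm_nonneg (f m)
      nlinarith
    rw [h2, ← hQz]; simp
  have hrec := recursion (a := fun n => ‖f n‖ ^ 2 / Q ^ 2) (fun n => by positivity)
    (by
      have := hQ 0
      rw [range_zero, sum_empty, add_zero] at this
      rw [div_le_one (by positivity)]; exact this)
    (fun n => by
      rw [hstep n]
      have h1 := hmain n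
      have h2 : (‖f n‖ ^ 2) ^ 2 ≤ Q ^ 2 * inner ℝ (f n) (φ n) ^ 2 := by
        have := pow_le_pow_left₀ (by positivity) h1 2
        rwa [mul_pow, sq_abs] at this
      rw [div_pow, div_sub_div _ _ (by positivity) (by positivity),
        div_le_div_iff₀ (by positivity) (by positivity)]
      have hQ2 : 0 < Q ^ 2 := by positivity
      nlinarith [mul_le_mul_of_nonneg_left h2 (by positivity : 0 ≤ Q ^ 2 * Q ^ 2)]) m
  have h1 : ‖f m‖ ^ 2 ≤ (Q / √((m : ℝ) + 1)) ^ 2 := by
    rw [div_pow, Real.sq_sqrt (by positivity)]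
    rw [div_le_iff₀ (by positivity)] at hrec
    calc ‖f m‖ ^ 2 ≤ 1 / ((m : ℝ) + 1) * Q ^ 2 := hrec
      _ = Q ^ 2 / ((m : ℝ) + 1) := by ring
  exact (sq_le_sq₀ (norm_nonneg _) (by positivity)).1 h1

end Pool.Agent.Lib.MP_7d2bee_an
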