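import Pool.Agent.Lib.MP_7d2bee_an.Lower

/-!
# Realizations of the pure greedy algorithm for ridge functions exist
-/

set_option autoImplicit false

namespace Pool.Agent.Lib.MP_7d2bee_an

open MeasureTheory Filter Topology Finset

/-- the first basis vector -/
noncomputable def e0 : Plane := !₂[1, 0]

theorem inner_e0 (x : Plane) : inner ℝ x e0 = x 0 := by
  simp [e0, PiLp.inner_apply, Fin.sum_univ_two]

/-- the linear map that takes the standard basis to `e`, `perp e` -/
noncomputable def rotL (e : Plane) : Plane →ₗ[ℝ] Plane where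
  toFun x := x 0 • e + x 1 • perp e
  map_add' x y := by
    simp only [PiLp.add_apply, add_smul]; abel
  map_smul' c x := by
    simp only [PiLp.smul_apply, smul_eq_mul, mul_smul, smul_add, RingHom.id_apply]

theorem rotL_apply (e x : Plane) : rotL e x = x 0 • e + x 1 • perp e := rfl

theorem norm_rotL {e : Plane} (he : ‖e‖ = 1) (x : Plane) : ‖rotL e x‖ = ‖x‖ := by
  have h1 : e 0 ^ 2 + e 1 ^ 2 = 1 := by rw [← norm_sq_plane, he]; norm_num
  have : ‖rotL e x‖ ^ 2 = ‖x‖ ^ 2 := by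
    rw [norm_sq_plane, norm_sq_plane, rotL_apply]
    simp only [PiLp.add_apply, PiLp.smul_apply, smul_eq_mul, perp]
    simp only [Matrix.cons_val_zero, Matrix.cons_val_one]
    linear_combination (x 0 ^ 2 + x 1 ^ 2) * h1
  exact (sq_eq_sq₀ (norm_nonneg _) (norm_nonneg _)).1 this

/-- the rotation that takes the first basis vector to `e` -/
noncomputable def rotE {e : Plane} (he : ‖e‖ = 1) : Plane ≃ₗᵢ[ℝ] Plane :=
  LinearIsometry.toLinearIsometryEquiv ⟨rotL e, norm_rotL he⟩ rfl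

theorem rotE_apply {e : Plane} (he : ‖e‖ = 1) (x : Plane) : rotE he x = rotL e x := rfl

theorem inner_rotL {e : Plane} (he : ‖e‖ = 1) (x : Plane) : inner ℝ (rotL e x) e = x 0 := by
  rw [rotL_apply, inner_add_left, inner_smul_left, inner_smul_left, inner_perp, det2_self,
    real_inner_self_eq_norm_sq, he]
  simp

theorem mp_of_equiv (R : Plane ≃ₗᵢ[ℝ] Plane) :
    MeasurePreserving R diskMeasure diskMeasure := by
  have h1 := (R.measurePreserving).restrict_preimage
    (measurableSet_closedBall (x := (0 : Plane)) (ε := 1))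
  have h2 : R ⁻¹' Metric.closedBall (0 : Plane) 1 = Metric.closedBall (0 : Plane) 1 := by
    ext x; simp
  rw [h2] at h1
  exact h1.smul_measure _

/-- composition with an isometry -/
noncomputable def UU (R : Plane ≃ₗᵢ[ℝ] Plane) : L2D →ₗᵢ[ℝ] L2D :=
  Lp.compMeasurePreservingₗᵢ ℝ R (mp_of_equiv R)

theorem UU_ae (R : Plane ≃ₗᵢ[ℝ] Plane) (u : L2D) :
    ∀ᵐ x ∂diskMeasure, UU R u x = u (R x) :=
  Lp.coeFn_compMeasurePreserving u (mp_of_equiv R)

theorem UU_symm (R : Plane ≃ₗᵢ[ℝ] Plane) (u : L2D) : UU R (UU R.symm u) = u := by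
  refine Lp.ext ?_
  filter_upwards [UU_ae R (UU R.symm u),
    (mp_of_equiv R).quasiMeasurePreserving.ae (UU_ae R.symm u)] with x h1 h2
  rw [h1, h2, LinearIsometryEquiv.symm_apply_apply]

/-- functions of the first coordinate -/
def V0 : Submodule ℝ L2D where
  carrier := {u | ∃ g : ℝ → ℝ, ∀ᵐ x ∂diskMeasure, u x = g (inner ℝ x e0)}
  add_mem' := by
    rintro u v ⟨g, hg⟩ ⟨h, hh⟩
    refine ⟨fun t => g t + h t, ?_⟩
    filter_upwards [hg, hh, Lp.coeFn_add u v] with x h1 h2 h3
    rw [h3, Pi.add_apply, h1, h2]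
  zero_mem' := by
    refine ⟨fun _ => 0, ?_⟩
    filter_upwards [Lp.coeFn_zero ℝ 2 diskMeasure] with x h
    rw [h]; rfl
  smul_mem' := by
    rintro c u ⟨g, hg⟩
    refine ⟨fun t => c * g t, ?_⟩
    filter_upwards [hg, Lp.coeFn_smul c u] with x h1 h2
    rw [h2, Pi.smul_apply, h1, smul_eq_mul]

theorem mem_V0 (u : L2D) :
    u ∈ V0 ↔ ∃ g : ℝ → ℝ, ∀ᵐ x ∂diskMeasure, u x = g (inner ℝ x e0) := Iff.rfl

theorem isClosed_V0 : IsClosed (V0 : Set L2D) := by
  refine IsSeqClosed.isClosed ?_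
  intro u v hu hv
  have h1 : ∀ n, ∃ g : ℝ → ℝ, ∀ᵐ x ∂diskMeasure, u n x = g (inner ℝ x e0) := hu
  choose g hg using h1
  have h2 := tendstoInMeasure_of_tendsto_Lp hv
  obtain ⟨ns, hns, hlim⟩ := h2.exists_seq_tendsto_ae
  refine ⟨fun t => limUnder atTop (fun k => g (ns k) t), ?_⟩
  have h3 : ∀ᵐ x ∂diskMeasure, ∀ k, u (ns k) x = g (ns k) (inner ℝ x e0) :=
    ae_all_iff.2 fun k => hg (ns k)
  filter_upwards [hlim, h3] with x hx hx'
  have : Tendsto (fun k => g (ns k) (inner ℝ x e0)) atTop (𝓝 (v x)) := by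
    simpa only [hx'] using hx
  exact this.limUnder_eq.symm

instance : CompleteSpace V0 := isClosed_V0.completeSpace_coe

theorem continuous_UU (f : L2D) :
    Continuous fun e : Metric.sphere (0 : Plane) 1 =>
      UU (rotE (mem_sphere_zero_iff_norm.1 e.2)) f := by
  have hcont : Continuous fun p : Metric.sphere (0 : Plane) 1 × Plane =>
      rotL p.1.1 p.2 := by
    have h1 : Continuous fun e : Plane => perp e := by
      refine (PiLp.continuous_toLp 2 _).comp (continuous_pi fun i => ?_)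
      fin_cases i
      · exact (PiLp.continuous_apply 2 _ 1).neg
      · exact PiLp.continuous_apply 2 _ 0
    simp only [rotL_apply]
    have h2 : Continuous fun p : Metric.sphere (0 : Plane) 1 × Plane => (p.1 : Plane) :=
      continuous_subtype_val.comp continuous_fst
    have h3 : ∀ i, Continuous fun p : Metric.sphere (0 : Plane) 1 × Plane => p.2 i := fun i =>
      (PiLp.continuous_apply 2 _ i).comp continuous_snd
    exact ((h3 0).smul h2).add ((h3 1).smul (h1.comp h2))
  let G : C(Metric.sphere (0 : Plane) 1, C(Plane, Plane)) := (ContinuousMap.mk _ hcont).curry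
  exact (continuous_const (y := f)).compMeasurePreservingLp (p := 2) G.continuous
    (fun e => mp_of_equiv (rotE (mem_sphere_zero_iff_norm.1 e.2))) (by norm_num)

theorem UU_mem_V0 {e : Plane} (he : ‖e‖ = 1) {u : L2D} {g : ℝ → ℝ}
    (hg : ∀ᵐ x ∂diskMeasure, u x = g (inner ℝ x e)) : UU (rotE he) u ∈ V0 := by
  refine ⟨g, ?_⟩
  filter_upwards [UU_ae (rotE he) u,
    (mp_of_equiv (rotE he)).quasiMeasurePreserving.ae hg] with x h1 h2
  rw [h1, h2, rotE_apply, inner_rotL he, inner_e0]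

theorem isRidge_of_mem_V0 {e : Plane} (he : ‖e‖ = 1) {v : L2D} (hv : v ∈ V0) :
    IsRidge (UU (rotE he).symm v) := by
  obtain ⟨g, hg⟩ := hv
  refine ⟨g, e, he, ?_⟩
  filter_upwards [UU_ae (rotE he).symm v,
    (mp_of_equiv (rotE he).symm).quasiMeasurePreserving.ae hg] with x h1 h2
  rw [h1, h2, inner_e0]
  congr 1
  have := inner_rotL he ((rotE he).symm x)
  rw [← rotE_apply he, LinearIsometryEquiv.apply_symm_apply] at this
  exact this.symm

theorem norm_e0 : ‖e0‖ = 1 := by
  have : ‖e0‖ ^ 2 = 1 := by rw [norm_sq_plane]; simp [e0]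
  have h := norm_nonneg e0
  nlinarith

theorem nu_zero (e : Plane) : nu 0 e = 1 := by
  rw [nu]; simp [cw]

theorem exists_max (f : L2D) :
    ∃ φ ∈ ridgeDictionary, ∀ g ∈ ridgeDictionary, |inner ℝ f g| ≤ |inner ℝ f φ| := by
  set S := Metric.sphere (0 : Plane) 1 with hS
  have hne : (Set.univ : Set S).Nonempty := ⟨⟨e0, mem_sphere_zero_iff_norm.2 norm_e0⟩, trivial⟩
  have hcont : Continuous fun e : S =>
      ‖V0.starProjection (UU (rotE (mem_sphere_zero_iff_norm.1 e.2)) f)‖ :=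
    (V0.starProjection.continuous.comp (continuous_UU f)).norm
  obtain ⟨e, -, hemax⟩ := isCompact_univ.exists_isMaxOn hne hcont.continuousOn
  have he : ‖(e : Plane)‖ = 1 := mem_sphere_zero_iff_norm.1 e.2
  set M := ‖V0.starProjection (UU (rotE he) f)‖ with hM
  have hle : ∀ g ∈ ridgeDictionary, |inner ℝ f g| ≤ M := by
    rintro g ⟨⟨h, d, hd, hg⟩, hg1⟩
    have h1 : inner ℝ f g = inner ℝ (UU (rotE hd) f) (UU (rotE hd) g) :=
      ((UU (rotE hd)).inner_map_map f g).symm
    have h2 := UU_mem_V0 hd hg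
    have h3 : inner ℝ (UU (rotE hd) f) (UU (rotE hd) g)
        = inner ℝ (V0.starProjection (UU (rotE hd) f)) (UU (rotE hd) g) := by
      rw [Submodule.inner_starProjection_left_eq_right,
        Submodule.starProjection_eq_self_iff.2 h2]
    rw [h1, h3]
    refine (abs_real_inner_le_norm _ _).trans ?_
    rw [LinearIsometry.norm_map, hg1, mul_one]
    exact hemax (a := ⟨d, mem_sphere_zero_iff_norm.2 hd⟩) trivial
  by_cases hM0 : M = 0
  · refine ⟨phL 0 e0, ⟨isRidge_phL 0 norm_e0, norm_phL (by rw [nu_zero]; exact one_pos)⟩,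
      fun g hg => ?_⟩
    have := hle g hg
    rw [hM0] at this
    exact this.trans (abs_nonneg _)
  · have hMpos : 0 < M := lt_of_le_of_ne (norm_nonneg _) (Ne.symm hM0)
    set v : L2D := M⁻¹ • V0.starProjection (UU (rotE he) f) with hv
    have hvV : v ∈ V0 := V0.smul_mem _ (Submodule.starProjection_apply_mem _ _)
    have hv1 : ‖v‖ = 1 := by
      rw [hv, norm_smul, norm_inv, Real.norm_of_nonneg hMpos.le, ← hM,
        inv_mul_cancel₀ hM0]
    refine ⟨UU (rotE he).symm v, ⟨isRidge_of_mem_V0 he hvV, ?_⟩, fun g hg => ?_⟩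
    · rw [LinearIsometry.norm_map, hv1]
    · refine (hle g hg).trans ?_
      have h1 : inner ℝ f (UU (rotE he).symm v) = inner ℝ (UU (rotE he) f) v := by
        rw [← (UU (rotE he)).inner_map_map f, UU_symm]
      have h2 : inner ℝ (UU (rotE he) f) v = M := by
        have h3 : inner ℝ (UU (rotE he) f) v
            = inner ℝ (V0.starProjection (UU (rotE he) f)) v := by
          rw [Submodule.inner_starProjection_left_eq_right,
            Submodule.starProjection_eq_self_iff.2 hvV]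
        rw [h3, hv, inner_smul_right, real_inner_self_eq_norm_sq, ← hM]
        field_simp
      rw [h1, h2]
      exact le_abs_self M

theorem exists_realization (f0 : L2D) : ∃ f φ : ℕ → L2D, f 0 = f0 ∧ IsRealization f φ := by
  choose sel hsel hmax using exists_max
  let f : ℕ → L2D := fun n => Nat.rec f0 (fun _ h => h - (inner ℝ h (sel h) : ℝ) • sel h) n
  exact ⟨f, fun n => sel (f n), rfl, ⟨fun k => hsel _, fun k => hmax _, fun k => rfl⟩⟩

theorem isRidge_smul {u : L2D} (hu : IsRidge u) (c : ℝ) : IsRidge (c • u) := by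
  obtain ⟨g, e, he, hg⟩ := hu
  refine ⟨fun t => c * g t, e, he, ?_⟩
  filter_upwards [hg, Lp.coeFn_smul c u] with x h1 h2
  rw [h2, Pi.smul_apply, h1, smul_eq_mul]

theorem residual_eq {f φ : ℕ → L2D} (h : IsRealization f φ) (m : ℕ) :
    f m = f 0 - ∑ i : Fin m, (inner ℝ (f i) (φ i) : ℝ) • φ i := by
  induction m with
  | zero => simp
  | succ m ih =>
    rw [h.step, Fin.sum_univ_castSucc]
    simp only [Fin.val_castSucc, Fin.val_last]
    rw [← sub_sub, ← ih]

theorem norm_step_le {f φ : ℕ → L2D} (h : IsRealization f φ) (k : ℕ) : ‖f (k + 1)‖ ≤ ‖f k‖ := by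
  have h1 : ‖f (k + 1)‖ ^ 2 = ‖f k‖ ^ 2 - (inner ℝ (f k) (φ k)) ^ 2 := by
    rw [h.step, @norm_sub_sq_real, inner_smul_right, norm_smul, (h.mem k).2, Real.norm_eq_abs,
      mul_one, sq_abs]
    ring
  have h2 : ‖f (k + 1)‖ ^ 2 ≤ ‖f k‖ ^ 2 := by rw [h1]; linarith [sq_nonneg (inner ℝ (f k) (φ k))]
  exact (sq_le_sq₀ (norm_nonneg _) (norm_nonneg _)).1 h2

theorem norm_le_one {f : L2D} (h : f ∈ classA1) : ‖f‖ ≤ 1 := by
  have h1 : classA1 ⊆ Metric.closedBall (0 : L2D) 1 := by
    refine closure_minimal (convexHull_min ?_ (convex_closedBall _ _)) Metric.isClosed_closedBall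
    rintro u (hu | hu)
    · rw [mem_closedBall_zero_iff, hu.2]
    · rw [mem_closedBall_zero_iff, ← norm_neg, hu.2]
  exact mem_closedBall_zero_iff.1 (h1 h)

theorem bddAbove_rate (m : ℕ) :
    BddAbove {r | ∃ f φ : ℕ → L2D, f 0 ∈ classA1 ∧ IsRealization f φ ∧ r = ‖f m‖} := by
  refine ⟨1, ?_⟩
  rintro r ⟨f, φ, h0, hR, rfl⟩
  have : ∀ k, ‖f k‖ ≤ 1 := by
    intro k
    induction k with
    | zero => exact norm_le_one h0
    | succ k ih => exact (norm_step_le hR k).trans ih
  exact this m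

theorem greedyRate_ge {m : ℕ} (hm : 1 ≤ m) : 1 / (2 * √m) ≤ greedyRate m := by
  have hm0 : (0 : ℝ) < m := by exact_mod_cast hm
  have hsm := Real.sqrt_pos.2 hm0
  refine le_of_forall_pos_lt_add fun ε hε => ?_
  by_contra hcon
  rw [not_lt] at hcon
  set δ := min (ε * √m) (1 / 2) with hδ
  have hδ0 : 0 < δ := lt_min (by positivity) (by norm_num)
  have hδ1 : δ < 1 := lt_of_le_of_lt (min_le_right _ _) (by norm_num)
  obtain ⟨F, hF, hb⟩ := main_bound hm hδ0 hδ1
  obtain ⟨f, φ, h0, hR⟩ := exists_realization F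
  have h1 : ‖f m‖ ≤ greedyRate m :=
    le_csSup (bddAbove_rate m) ⟨f, φ, by rw [h0]; exact hF, hR, rfl⟩
  have h2 : (1 - δ) / (2 * √m) ≤ ‖f m‖ := by
    rw [residual_eq hR m, h0]
    exact hb (fun i => (inner ℝ (f i) (φ i) : ℝ) • φ i) fun i => isRidge_smul (hR.mem i).1 _
  have h3 : (1 - δ) / (2 * √m) = 1 / (2 * √m) - δ / (2 * √m) := by ring
  have h4 : δ / (2 * √m) ≤ ε / 2 := by
    rw [div_le_div_iff₀ (by positivity) two_pos]
    have := min_le_left (ε * √m) (1 / 2)
    nlinarith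
  linarith

end Pool.Agent.Lib.MP_7d2bee_an
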