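import Pool.Agent.Lib.MP_7d2bee_an.Chord

/-!
# Inner products of Chebyshev ridge polynomials, and the discrete identity
-/

set_option autoImplicit false

namespace Pool.Agent.Lib.MP_7d2bee_an

open MeasureTheory Filter Topology Finset

theorem rotE_e0 {e : Plane} (he : ‖e‖ = 1) : rotE he e0 = e := by
  rw [rotE_apply, rotL_apply]; simp [e0]

theorem rotE_symm_self {e : Plane} (he : ‖e‖ = 1) : (rotE he).symm e = e0 := by
  rw [LinearIsometryEquiv.symm_apply_eq, rotE_e0]

theorem UU_uL (R : Plane ≃ₗᵢ[ℝ] Plane) (k : ℕ) (f : Plane) :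
    UU R (uL k f) = uL k (R.symm f) := by
  refine Lp.ext ?_
  filter_upwards [UU_ae R (uL k f), (mp_of_equiv R).quasiMeasurePreserving.ae
    (memLp_cont (continuous_uF k f)).coeFn_toLp,
    (memLp_cont (continuous_uF k (R.symm f))).coeFn_toLp] with x h1 h2 h3
  rw [h1, uL, uL, h2, h3, uF, uF]
  congr 1
  have := R.inner_map_map x (R.symm f)
  rw [LinearIsometryEquiv.apply_symm_apply] at this
  exact this

/-- the normalised Chebyshev value -/
noncomputable def lam (k : ℕ) (c : ℝ) : ℝ := chU k c / (k + 1)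

theorem ridge_key {v : L2D} {e e' : Plane} (he : ‖e‖ = 1) (he' : ‖e'‖ = 1) (hv : RidgeIn e v)
    (k : ℕ) : inner ℝ v (uL k e') = lam k (inner ℝ e e') * inner ℝ v (uL k e) := by
  obtain ⟨g, hg⟩ := hv
  have h1 : RidgeIn e0 (UU (rotE he) v) := UU_mem_V0 he hg
  have h2 : ‖(rotE he).symm e'‖ = 1 := by rw [LinearIsometryEquiv.norm_map, he']
  have h3 := chord_key h1 k h2
  rw [← UU_uL, (UU (rotE he)).inner_map_map] at h3
  rw [h3, ← rotE_symm_self he, ← UU_uL, (UU (rotE he)).inner_map_map]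
  congr 1
  rw [lam]
  congr 2
  rw [← inner_e0, ← rotE_symm_self he, (rotE he).symm.inner_map_map, real_inner_comm]

theorem ridgeIn_uL (k : ℕ) (e : Plane) : RidgeIn e (uL k e) := by
  refine ⟨chU k, ?_⟩
  filter_upwards [(memLp_cont (continuous_uF k e)).coeFn_toLp] with x h
  rw [uL, h, uF]

theorem inner_uL_self {e : Plane} (he : ‖e‖ = 1) (k l : ℕ) :
    inner ℝ (uL k e) (uL l e) = inner ℝ (uL k e0) (uL l e0) := by
  rw [← rotE_symm_self he, ← UU_uL, ← UU_uL, (UU (rotE he)).inner_map_map]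

theorem lam_cos_zero (l : ℕ) : lam l (Real.cos (Real.pi / (l + 1))) = 0 ∨ l = 0 := by
  rcases Nat.eq_zero_or_pos l with h | h
  · exact Or.inr h
  · left
    have h1 := chU_cos l (Real.pi / (l + 1))
    have hl : (0 : ℝ) < l := by exact_mod_cast h
    have h2 : ((l : ℝ) + 1) * (Real.pi / (l + 1)) = Real.pi := by field_simp
    rw [h2, Real.sin_pi] at h1
    have h3 : Real.sin (Real.pi / (l + 1)) ≠ 0 := by
      refine (Real.sin_pos_of_pos_of_lt_pi (by positivity) ?_).ne'
      rw [div_lt_iff₀ (by positivity)]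
      nlinarith [Real.pi_pos]
    rw [lam, (mul_eq_zero.1 h1).resolve_right h3, zero_div]

theorem lam_cos_ne {k l : ℕ} (h : k < l) : lam k (Real.cos (Real.pi / (l + 1))) ≠ 0 := by
  have h1 := chU_cos k (Real.pi / (l + 1))
  have hl : (k : ℝ) + 1 < l + 1 := by exact_mod_cast Nat.succ_lt_succ h
  have h2 : 0 < Real.sin (((k : ℝ) + 1) * (Real.pi / (l + 1))) := by
    refine Real.sin_pos_of_pos_of_lt_pi (by positivity) ?_
    rw [← mul_div_assoc, div_lt_iff₀ (by positivity)]
    nlinarith [Real.pi_pos]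
  intro h3
  rw [lam, div_eq_zero_iff] at h3
  rcases h3 with h3 | h3
  · rw [h3, zero_mul] at h1; linarith
  · have : (0 : ℝ) < k + 1 := by positivity
    linarith

/-- the unit vector with a given angle -/
noncomputable def dir (θ : ℝ) : Plane := !₂[Real.cos θ, Real.sin θ]

theorem norm_dir (θ : ℝ) : ‖dir θ‖ = 1 := by
  have : ‖dir θ‖ ^ 2 = 1 := by rw [norm_sq_plane]; simp [dir]
  have h := norm_nonneg (dir θ)
  nlinarith

theorem inner_dir (α β : ℝ) : inner ℝ (dir α) (dir β) = Real.cos (α - β) := by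
  rw [dir, inner_expand, Real.cos_sub]; simp [dir]

theorem exists_dir {e : Plane} (he : ‖e‖ = 1) : ∃ θ, e = dir θ := by
  have hc : e 0 ^ 2 + e 1 ^ 2 = 1 := by rw [← norm_sq_plane, he]; norm_num
  obtain ⟨θ, h1, h2⟩ := exists_angle hc
  refine ⟨θ, ?_⟩
  ext i
  fin_cases i
  · simpa [dir] using h1
  · simpa [dir] using h2

theorem inner_uL_e0_ne {k l : ℕ} (h : k < l) : inner ℝ (uL k e0) (uL l e0) = 0 := by
  set θ := Real.pi / (l + 1)
  have h0 : dir 0 = e0 := by ext i; fin_cases i <;> simp [dir, e0]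
  have he := norm_dir θ
  have hi : inner ℝ e0 (dir θ) = Real.cos θ := by rw [← h0, inner_dir]; simp
  have h1 := ridge_key (k := k) norm_e0 he (ridgeIn_uL l e0)
  have h2 := ridge_key (k := l) he norm_e0 (ridgeIn_uL k (dir θ))
  rw [inner_uL_self he, real_inner_comm, real_inner_comm e0 (dir θ), h1, hi,
    (lam_cos_zero l).resolve_right (by omega), zero_mul, real_inner_comm] at h2
  exact (mul_eq_zero.1 h2).resolve_left (lam_cos_ne h)

theorem inner_uL_ne {k l : ℕ} (h : k ≠ l) {e e' : Plane} (he : ‖e‖ = 1) (he' : ‖e'‖ = 1) :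
    inner ℝ (uL k e) (uL l e') = 0 := by
  rw [ridge_key he he' (ridgeIn_uL k e), inner_uL_self he]
  rcases lt_or_gt_of_ne h with h | h
  · rw [inner_uL_e0_ne h, mul_zero]
  · have h1 := inner_uL_e0_ne h
    rw [real_inner_comm] at h1
    rw [h1, mul_zero]

/-- the squared norm of the Chebyshev ridge polynomials -/
noncomputable def NN (k : ℕ) : ℝ := inner ℝ (uL k e0) (uL k e0)

theorem NN_nonneg (k : ℕ) : 0 ≤ NN k := real_inner_self_nonneg

theorem inner_uL_eq (k : ℕ) {e e' : Plane} (he : ‖e‖ = 1) (he' : ‖e'‖ = 1) :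
    inner ℝ (uL k e) (uL k e') = lam k (inner ℝ e e') * NN k := by
  rw [ridge_key he he' (ridgeIn_uL k e), inner_uL_self he, NN]

/-! ### the discrete identity -/

open Complex in
theorem chU_exp (k : ℕ) (θ : ℝ) :
    (chU k (Real.cos θ) : ℂ) = ∑ s ∈ range (k + 1), exp (((k : ℂ) - 2 * s) * θ * I) := by
  induction k using Nat.twoStepInduction with
  | zero => simp [chU_zero]
  | one =>
    rw [chU_one', sum_range_succ, sum_range_one]
    push_cast
    rw [Complex.two_cos]
    congr 1 <;> congr 1 <;> ring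
  | more k h1 h2 =>
    have e1 : (chU (k + 2) (Real.cos θ) : ℂ)
        = 2 * Real.cos θ * chU (k + 1) (Real.cos θ) - chU k (Real.cos θ) := by
      rw [chU_add_two]; push_cast; ring
    rw [e1, h1, h2]
    push_cast
    rw [Complex.two_cos, add_mul, mul_sum, mul_sum]
    have a1 : ∀ s ∈ range (k + 1 + 1), exp (θ * I) * exp (((k : ℂ) + 1 - 2 * s) * θ * I)
        = exp (((k : ℂ) + 2 - 2 * s) * θ * I) := by
      intro s _; rw [← exp_add]; congr 1; ring
    have a2 : ∀ s ∈ range (k + 1 + 1), exp (-θ * I) * exp (((k : ℂ) + 1 - 2 * s) * θ * I)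
        = exp (((k : ℂ) - 2 * s) * θ * I) := by
      intro s _; rw [← exp_add]; congr 1; ring
    rw [sum_congr rfl a1, sum_congr rfl a2, sum_range_succ (fun s : ℕ =>
      exp (((k : ℂ) - 2 * s) * θ * I)) (k + 1), sum_range_succ (fun s : ℕ =>
      exp (((k : ℂ) + 2 - 2 * s) * θ * I)) (k + 2)]
    push_cast
    have : ((k : ℂ) - 2 * (k + 1)) * θ * I = ((k : ℂ) + 2 - 2 * (k + 2)) * θ * I := by ring
    rw [this]
    ring

open Complex in
theorem sum_exp_zero {K s s' : ℕ} (hs : s ≤ K) (hs' : s' ≤ K) (hne : s ≠ s') :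
    ∑ j ∈ range (K + 1), exp ((2 * (s : ℂ) - 2 * s') * (Real.pi * j / (K + 1)) * I) = 0 := by
  have hK : (K : ℂ) + 1 ≠ 0 := by exact_mod_cast (Nat.succ_ne_zero K)
  set w : ℂ := exp ((((s : ℤ) - s' : ℤ) : ℂ) / (K + 1) * (2 * Real.pi * I)) with hw
  have h1 : ∀ j ∈ range (K + 1), exp ((2 * (s : ℂ) - 2 * s') * (Real.pi * j / (K + 1)) * I)
      = w ^ j := by
    intro j _
    rw [hw, ← exp_nat_mul]
    congr 1
    push_cast
    field_simp
  rw [sum_congr rfl h1]
  have h2 : w ^ (K + 1) = 1 := by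
    rw [hw, ← exp_nat_mul, exp_eq_one_iff]
    refine ⟨(s : ℤ) - s', ?_⟩
    push_cast
    field_simp
  have h3 : w ≠ 1 := by
    rw [hw]
    intro h
    obtain ⟨n, hn⟩ := exp_eq_one_iff.1 h
    have h4 := mul_right_cancel₀ Complex.two_pi_I_ne_zero hn
    rw [div_eq_iff hK] at h4
    have h5 : (s : ℤ) - s' = n * (K + 1) := by exact_mod_cast h4
    rcases lt_trichotomy n 0 with h6 | h6 | h6
    · have : n * (K + 1 : ℤ) ≤ -1 * (K + 1) := mul_le_mul_of_nonneg_right (by omega) (by omega)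
      omega
    · subst h6; rw [zero_mul] at h5; omega
    · have : 1 * (K + 1 : ℤ) ≤ n * (K + 1) := mul_le_mul_of_nonneg_right (by omega) (by omega)
      omega
  have h4 := geom_sum_mul w (K + 1)
  rw [h2, sub_self] at h4
  exact (mul_eq_zero.1 h4).resolve_right (sub_ne_zero.2 h3)

/-- the equally spaced angles -/
noncomputable def ang (K j : ℕ) : ℝ := Real.pi * j / (K + 1)

open Complex in
theorem disc {k K : ℕ} (hk : k ≤ K) (α β : ℝ) :
    ∑ j ∈ range (K + 1), chU k (Real.cos (α - ang K j)) * chU k (Real.cos (ang K j - β))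
      = (K + 1) * chU k (Real.cos (α - β)) := by
  have key : ((∑ j ∈ range (K + 1), chU k (Real.cos (α - ang K j)) *
      chU k (Real.cos (ang K j - β)) : ℝ) : ℂ) = (((K + 1) * chU k (Real.cos (α - β)) : ℝ) : ℂ) := by
    rw [ofReal_sum]
    simp_rw [ofReal_mul, chU_exp, sum_mul_sum]
    rw [sum_comm]
    simp_rw [sum_comm (s := range (K + 1))]
    rw [mul_sum]
    refine sum_congr rfl fun s hs => ?_
    have e1 : ∀ s' ∈ range (k + 1), ∑ j ∈ range (K + 1),
        exp (((k : ℂ) - 2 * s) * ((α - ang K j : ℝ) : ℂ) * I) *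
          exp (((k : ℂ) - 2 * s') * ((ang K j - β : ℝ) : ℂ) * I)
        = exp (((k : ℂ) - 2 * s) * α * I - ((k : ℂ) - 2 * s') * β * I) *
          ∑ j ∈ range (K + 1), exp ((2 * (s : ℂ) - 2 * s') * (Real.pi * j / (K + 1)) * I) := by
      intro s' _
      rw [mul_sum]
      refine sum_congr rfl fun j _ => ?_
      rw [← exp_add, ← exp_add]
      congr 1
      rw [ang]
      push_cast
      ring
    rw [sum_congr rfl e1, sum_eq_single s]
    · have : ∑ j ∈ range (K + 1), exp ((2 * (s : ℂ) - 2 * s) * (Real.pi * j / (K + 1)) * I)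
          = K + 1 := by simp
      rw [this, mul_comm]
      push_cast
      congr 2
      ring
    · intro s' hs' hne
      rw [sum_exp_zero (by have := mem_range.1 hs; omega) (by have := mem_range.1 hs'; omega)
        (Ne.symm hne), mul_zero]
    · intro h; exact absurd hs h
  exact_mod_cast key

end Pool.Agent.Lib.MP_7d2bee_an
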