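import Pool.Agent.Lib.MP_7d2bee_an.AngDefs

/-!
# Starting elements that are smooth under rotations
-/

set_option autoImplicit false

namespace Pool.Agent.Lib.MP_7d2bee_an

open MeasureTheory

/-- the distance in `L_2(D)` to the functions of angular degree at most `n` -/
noncomputable def angDist (n : ℕ) (f : L2D) : ℝ := Metric.infDist f {g | AngularDegreeLE n g}

/-- all `f` whose distance to the functions of angular degree at most `n` is at most
`M (n + 1) ^ (-β)`, for every `n` -/
def angClass (β M : ℝ) : Set L2D := {f | ∀ n : ℕ, angDist n f ≤ M * ((n : ℝ) + 1) ^ (-β)}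

end Pool.Agent.Lib.MP_7d2bee_an
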