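import Pool.Agent.Lib.MP_7d2bee_an.AngRate
import Pool.Agent.Lib.MP_7d2bee_an.HolDefs

/-!
# The rate on starting elements that are smooth under rotations
-/

set_option autoImplicit false

namespace Pool.Agent.Lib.MP_7d2bee_an

open MeasureTheory Filter Topology Finset

theorem Pol_mono {K L : ℕ} (h : K ≤ L) : Pol K ≤ Pol L := by
  rw [Pol, Submodule.span_le]
  rintro _ ⟨⟨k, j⟩, rfl⟩
  exact uL_mem (by omega) (norm_dd _ _)

/-- the part of the degrees `K + 1, ..., L` -/
noncomputable def band (K L : ℕ) (g : L2D) : L2D :=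
  (Pol L).starProjection g - (Pol K).starProjection g

theorem inner_proj_self (K : ℕ) (g : L2D) :
    inner ℝ g ((Pol K).starProjection g) = ‖(Pol K).starProjection g‖ ^ 2 := by
  have h := Submodule.starProjection_inner_eq_zero (K := Pol K) g _
    (Submodule.starProjection_apply_mem (Pol K) g)
  rw [inner_sub_left, sub_eq_zero] at h
  rw [h, real_inner_self_eq_norm_sq]

theorem norm_sq_band {K L : ℕ} (h : K ≤ L) (g : L2D) :
    ‖band K L g‖ ^ 2 = ‖(Pol L).starProjection g‖ ^ 2 - ‖(Pol K).starProjection g‖ ^ 2 := by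
  have h1 : inner ℝ ((Pol L).starProjection g) ((Pol K).starProjection g)
      = ‖(Pol K).starProjection g‖ ^ 2 := by
    have h2 := Submodule.starProjection_inner_eq_zero (K := Pol L) g
      ((Pol K).starProjection g) (Pol_mono h (Submodule.starProjection_apply_mem (Pol K) g))
    rw [inner_sub_left, sub_eq_zero] at h2
    rw [← h2, inner_proj_self]
  rw [band, @norm_sub_sq_real, h1]
  ring

theorem inner_self_band {K L : ℕ} (h : K ≤ L) (g : L2D) :
    inner ℝ g (band K L g) = ‖band K L g‖ ^ 2 := by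
  rw [norm_sq_band h, band, inner_sub_right, inner_proj_self, inner_proj_self]

theorem inner_proj_uL {L k : ℕ} (hk : k ≤ L) (g : L2D) {e : Plane} (he : ‖e‖ = 1) :
    inner ℝ ((Pol L).starProjection g) (uL k e) = inner ℝ g (uL k e) := by
  have h2 := Submodule.starProjection_inner_eq_zero (K := Pol L) g _ (uL_mem hk he)
  rw [inner_sub_left, sub_eq_zero] at h2
  exact h2.symm

theorem inner_Pol_uL {K k : ℕ} (hk : K < k) {p : L2D} (hp : p ∈ Pol K) {e : Plane}
    (he : ‖e‖ = 1) : inner ℝ p (uL k e) = 0 := by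
  rw [Pol] at hp
  induction hp using Submodule.span_induction with
  | mem x hx =>
    obtain ⟨⟨i, j⟩, rfl⟩ := hx
    exact inner_uL_ne (by have := i.2; omega) (norm_dd _ _) he
  | zero => exact inner_zero_left _
  | add x y _ _ hx hy => rw [inner_add_left, hx, hy, add_zero]
  | smul c x _ hx => rw [inner_smul_left, hx, mul_zero]

theorem inner_band_lt {K L k : ℕ} (h : K ≤ L) (hk : k ≤ K) (g : L2D) {e : Plane}
    (he : ‖e‖ = 1) : inner ℝ (band K L g) (uL k e) = 0 := by
  rw [band, inner_sub_left, inner_proj_uL (by omega) g he, inner_proj_uL hk g he, sub_self]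

theorem inner_band_gt {K L k : ℕ} (hk : K < k) (hL : k ≤ L) (g : L2D) {e : Plane}
    (he : ‖e‖ = 1) : inner ℝ (band K L g) (uL k e) = inner ℝ g (uL k e) := by
  rw [band, inner_sub_left, inner_proj_uL hL g he,
    inner_Pol_uL hk (Submodule.starProjection_apply_mem _ _) he, sub_zero]

theorem inner_of_mem_Pol {e : Plane} (he : ‖e‖ = 1) {v : L2D} (hv : RidgeIn e v) {L : ℕ}
    {h : L2D} (hh : h ∈ Pol L) : inner ℝ v h
      = ∑ k ∈ range (L + 1), inner ℝ v (uL k e) / NN k * inner ℝ h (uL k e) := by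
  rw [Pol] at hh
  induction hh using Submodule.span_induction with
  | mem x hx =>
    obtain ⟨⟨k, j⟩, rfl⟩ := hx
    rw [sum_eq_single (k : ℕ)]
    · have hN := (NN_pos k).ne'
      rw [ridge_key he (norm_dd L j) hv k, inner_uL_eq k (norm_dd L j) he,
        real_inner_comm e (dd L j)]
      field_simp
    · intro l _ hl
      rw [inner_uL_ne (Ne.symm hl) (norm_dd _ _) he, mul_zero]
    · intro h; exact absurd (mem_range.2 (by omega)) h
  | zero => simp
  | add x y _ _ hx hy =>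
    rw [inner_add_right, hx, hy, ← sum_add_distrib]
    exact sum_congr rfl fun k _ => by rw [inner_add_left]; ring
  | smul c x _ hx =>
    rw [inner_smul_right, hx, mul_sum]
    exact sum_congr rfl fun k _ => by rw [inner_smul_left, conj_trivial]; ring

theorem scalar_aux {c Z N a b : ℝ} (hN : 0 < N) (hZ : 0 ≤ Z) (hc : 0 ≤ c) (hb : 0 < b)
    (hab : b ≤ a) : c * Z ≤ c / b * (a / N * Z) * N := by
  have h1 : c / b * (a / N * Z) * N = c * Z * (a / b) := by field_simp
  rw [h1]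
  exact le_mul_of_one_le_right (mul_nonneg hc hZ) ((one_le_div hb).2 hab)

/-- the values of the band part at the ridge functions -/
theorem inner_ridge_band {n K L : ℕ} (hn : 2 * n ≤ L) (hKL : K ≤ L) {g : L2D}
    (hg : AngularDegreeLE n g) {v : L2D} (hv : v ∈ ridgeDictionary) :
    |inner ℝ v (band K L g)| ≤ √((2 * n + 1) / (K + 2)) * ‖band K L g‖ := by
  obtain ⟨⟨q, e, he, hq⟩, hv1⟩ := hv
  have hR : RidgeIn e v := ⟨q, hq⟩
  set h := band K L g with hh
  have hmem : h ∈ Pol L := Submodule.sub_mem _ (Submodule.starProjection_apply_mem _ _)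
    (Pol_mono hKL (Submodule.starProjection_apply_mem _ _))
  have h1 : inner ℝ v h = ∑ k ∈ range (L + 1), (inner ℝ v (uL k e) / √(NN k)) *
      (inner ℝ h (uL k e) / √(NN k)) := by
    rw [inner_of_mem_Pol he hR hmem]
    refine sum_congr rfl fun k _ => ?_
    rw [div_mul_div_comm, Real.mul_self_sqrt (NN_nonneg k)]
    ring
  have h2 := sum_mul_sq_le_sq_mul_sq (range (L + 1)) (fun k => inner ℝ v (uL k e) / √(NN k))
    (fun k => inner ℝ h (uL k e) / √(NN k))
  rw [← h1] at h2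
  have h3 : ∑ k ∈ range (L + 1), (inner ℝ v (uL k e) / √(NN k)) ^ 2 ≤ 1 := by
    have h7 : ∀ k ∈ range (L + 1), (inner ℝ v (uL k e) / √(NN k)) ^ 2
        = inner ℝ v (uL k e) ^ 2 / NN k := fun k _ => by
      rw [div_pow, Real.sq_sqrt (NN_nonneg k)]
    rw [sum_congr rfl h7]
    have := bessel L he v
    rwa [hv1, one_pow] at this
  have h4 : ∑ k ∈ range (L + 1), (inner ℝ h (uL k e) / √(NN k)) ^ 2
      ≤ (2 * n + 1) / (K + 2) * ‖h‖ ^ 2 := by
    obtain ⟨d, rfl⟩ := Nat.exists_eq_add_of_le hKL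
    rw [hh, norm_sq_band hKL, norm_sq_proj le_rfl, norm_sq_proj hKL,
      show K + d + 1 = (K + 1) + d by ring, sum_range_add _ (K + 1) d,
      sum_range_add _ (K + 1) d, add_sub_cancel_left, mul_sum]
    have h5 : ∑ k ∈ range (K + 1), (inner ℝ (band K (K + d) g) (uL k e) / √(NN k)) ^ 2 = 0 := by
      refine sum_eq_zero fun k hk => ?_
      rw [inner_band_lt hKL (by have := mem_range.1 hk; omega) g he, zero_div, zero_pow two_ne_zero]
    rw [h5, zero_add]
    refine sum_le_sum fun i hi => ?_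
    have hi' := mem_range.1 hi
    have hN := NN_pos (K + 1 + i)
    rw [inner_band_gt (by omega) (by omega) g he, div_pow, Real.sq_sqrt hN.le]
    have h9 := inner_sq_le hn hg (K + 1 + i) he
    have h10 : bb (K + d) (K + 1 + i) g = (((K + 1 + i : ℕ) : ℝ) + 1) / NN (K + 1 + i) *
        ((((K + d : ℕ) : ℝ) + 1)⁻¹ * ∑ j ∈ range (K + d + 1),
          inner ℝ g (uL (K + 1 + i) (dd (K + d) j)) ^ 2) := by
      rw [bb, ← mul_sum, wt]
      field_simp
    have hZ0 : 0 ≤ (((K + d : ℕ) : ℝ) + 1)⁻¹ * ∑ j ∈ range (K + d + 1),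
          inner ℝ g (uL (K + 1 + i) (dd (K + d) j)) ^ 2 :=
      mul_nonneg (by positivity) (sum_nonneg fun _ _ => sq_nonneg _)
    have hab : (K : ℝ) + 2 ≤ ((K + 1 + i : ℕ) : ℝ) + 1 := by
      push_cast
      have : (0 : ℝ) ≤ i := by positivity
      linarith
    rw [h10, div_le_iff₀ hN]
    exact h9.trans (scalar_aux hN hZ0 (by positivity) (by positivity) hab)
  have h5 : inner ℝ v h ^ 2 ≤ (√((2 * n + 1) / (K + 2)) * ‖h‖) ^ 2 := by
    rw [mul_pow, Real.sq_sqrt (by positivity)]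
    refine h2.trans ((mul_le_mul h3 h4 (sum_nonneg fun _ _ => sq_nonneg _) zero_le_one).trans ?_)
    rw [one_mul]
  exact abs_le_of_sq_le_sq h5 (by positivity)

theorem norm_band_le {n K L : ℕ} (hn : 2 * n ≤ L) (hKL : K ≤ L) {f g : L2D}
    (hA : f ∈ classA1) (hg : AngularDegreeLE n g) :
    ‖band K L g‖ ≤ √((2 * n + 1) / (K + 2)) + ‖f - g‖ := by
  set h := band K L g with hh
  have h1 := inner_le_of_classA1 hA (h := h) fun v hv => inner_ridge_band hn hKL hg hv
  have h2 : inner ℝ g h = ‖h‖ ^ 2 := inner_self_band hKL g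
  have h3 : inner ℝ g h = inner ℝ f h - inner ℝ (f - g) h := by rw [inner_sub_left]; ring
  have h4 := abs_real_inner_le_norm (f - g) h
  have h5 : ‖h‖ ^ 2 ≤ (√((2 * n + 1) / (K + 2)) + ‖f - g‖) * ‖h‖ := by
    have := (abs_le.1 h4).1
    rw [← h2, h3]
    linarith
  rcases eq_or_lt_of_le (norm_nonneg h) with h6 | h6
  · rw [← h6]; positivity
  · rw [sq] at h5
    exact le_of_mul_le_mul_right h5 h6

theorem norm_sub_proj_le_norm (K : ℕ) (u : L2D) : ‖u - (Pol K).starProjection u‖ ≤ ‖u‖ := by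
  have h1 := norm_sq_sub_proj K u
  have h2 := sq_nonneg ‖(Pol K).starProjection u‖
  exact (sq_le_sq₀ (norm_nonneg _) (norm_nonneg _)).1 (by linarith)

theorem dist_proj_le {n K : ℕ} {f g : L2D} (hA : f ∈ classA1) (hg : AngularDegreeLE n g) :
    ‖f - (Pol K).starProjection f‖ ≤ √((2 * n + 1) / (K + 2)) + 2 * ‖f - g‖ := by
  refine le_of_forall_pos_le_add fun ε hε => ?_
  obtain ⟨L0, hL0⟩ := exists_proj_near g hε
  set L := max L0 (max K (2 * n)) with hL
  have h1 : ‖g - (Pol L).starProjection g‖ ≤ ε := by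
    have := proj_anti (by omega : L0 ≤ L) g
    exact ((sq_le_sq₀ (norm_nonneg _) (norm_nonneg _)).1 this).trans hL0.le
  have h2 := norm_band_le (by omega : 2 * n ≤ L) (by omega : K ≤ L) hA hg
  have h3 := norm_sub_proj_le_norm K (f - g)
  have h4 : f - (Pol K).starProjection f = ((f - g) - (Pol K).starProjection (f - g))
      + (g - (Pol L).starProjection g) + band K L g := by
    rw [map_sub, band]; abel
  rw [h4]
  have h5 := norm_add₃_le (a := (f - g) - (Pol K).starProjection (f - g))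
    (b := g - (Pol L).starProjection g) (c := band K L g)
  linarith

theorem angularDegreeLE_zero (n : ℕ) : AngularDegreeLE n 0 := by
  refine ⟨fun _ _ => 0, fun _ _ => 0, ?_⟩
  filter_upwards [Lp.coeFn_zero ℝ 2 diskMeasure] with x hx
  rw [hx]; simp

/-- **Polynomial approximation in terms of approximation by functions of bounded angular
degree, for elements of `A_1`.** -/
theorem polyDist_le_ang {f : L2D} (hA : f ∈ classA1) (n K : ℕ) :
    polyDist K f ≤ √((2 * n + 1) / (K + 2)) + 2 * angDist n f := by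
  have h1 : (polyDist K f - √((2 * n + 1) / (K + 2))) / 2 ≤ angDist n f := by
    rw [angDist, Metric.le_infDist ⟨0, angularDegreeLE_zero n⟩]
    intro g hg
    have h2 := (polyDist_le K f).trans (dist_proj_le (n := n) hA hg)
    rw [dist_eq_norm]
    linarith
  linarith

theorem angClass_subset {β M : ℝ} (hβ : 0 < β) (hM : 1 ≤ M) {f : L2D} (hA : f ∈ classA1)
    (hf : f ∈ angClass β M) : f ∈ approxClass (β / (1 + 2 * β)) (4 * M) := by
  intro K
  have hK : (0 : ℝ) < (K : ℝ) + 1 := by positivity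
  have hK1 : (1 : ℝ) ≤ (K : ℝ) + 1 := by
    have : (0 : ℝ) ≤ K := by positivity
    linarith
  have hb : 0 < 1 + 2 * β := by linarith
  set x : ℝ := ((K : ℝ) + 1) ^ (1 / (1 + 2 * β)) with hx
  have hx1 : 1 ≤ x := Real.one_le_rpow hK1 (by positivity)
  set n := ⌊x⌋₊ with hn
  have hn1 : (1 : ℝ) ≤ n := by
    have : 1 ≤ n := Nat.le_floor (by exact_mod_cast hx1)
    exact_mod_cast this
  have hnx : (n : ℝ) ≤ x := Nat.floor_le (by linarith)
  have hxn : x ≤ (n : ℝ) + 1 := (Nat.lt_floor_add_one x).le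
  set s := β / (1 + 2 * β) with hs
  have hy0 : 0 < ((K : ℝ) + 1) ^ (-s) := Real.rpow_pos_of_pos hK _
  have h1 : √((2 * n + 1) / ((K : ℝ) + 2)) ≤ 2 * ((K : ℝ) + 1) ^ (-s) := by
    rw [Real.sqrt_le_left (by positivity)]
    have h2 : x / ((K : ℝ) + 1) = (((K : ℝ) + 1) ^ (-s)) ^ 2 := by
      rw [← Real.rpow_natCast (((K : ℝ) + 1) ^ (-s)) 2, ← Real.rpow_mul hK.le, hx]
      rw [← Real.rpow_sub_one hK.ne']
      congr 1
      rw [hs]
      field_simp
      push_cast
      ring
    have h3 : (2 * (n : ℝ) + 1) / (K + 2) ≤ 4 * (x / (K + 1)) := by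
      rw [mul_div_assoc', div_le_div_iff₀ (by positivity) hK]
      nlinarith
    rw [mul_pow, ← h2]
    linarith
  have h2 : angDist n f ≤ M * ((K : ℝ) + 1) ^ (-s) := by
    refine (hf n).trans (mul_le_mul_of_nonneg_left ?_ (by linarith))
    have h3 : ((n : ℝ) + 1) ^ (-β) ≤ x ^ (-β) :=
      Real.rpow_le_rpow_of_nonpos (by linarith) hxn (by linarith)
    refine h3.trans (le_of_eq ?_)
    rw [hx, ← Real.rpow_mul hK.le]
    congr 1
    rw [hs]
    field_simp
  have h3 := polyDist_le_ang hA n K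
  calc polyDist K f ≤ 2 * ((K : ℝ) + 1) ^ (-s) + 2 * (M * ((K : ℝ) + 1) ^ (-s)) := by linarith
    _ = (2 + 2 * M) * ((K : ℝ) + 1) ^ (-s) := by ring
    _ ≤ 4 * M * ((K : ℝ) + 1) ^ (-s) := mul_le_mul_of_nonneg_right (by linarith) hy0.le

theorem mem_angClass_of_zero {β M : ℝ} (hM : 1 ≤ M) {f : L2D} (hf : AngularDegreeLE 0 f) :
    f ∈ angClass β M := by
  intro n
  have h1 : angDist n f = 0 := Metric.infDist_zero_of_mem (hf.of_zero n)
  rw [h1]
  have : 0 ≤ ((n : ℝ) + 1) ^ (-β) := Real.rpow_nonneg (by positivity) _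
  have := mul_nonneg (by linarith : (0 : ℝ) ≤ M) this
  exact this

/-- **The rate on the elements of `A_1` that are smooth under rotations.** -/
theorem hol_rate {β : ℝ} (hβ : 0 < β) : ∃ C : ℝ, ∀ M : ℝ, 1 ≤ M → ∀ m : ℕ, 1 ≤ m →
    1 / √(8 * m + 1) ≤ greedyRateOn (classA1 ∩ angClass β M) m ∧
    greedyRateOn (classA1 ∩ angClass β M) m ≤ C * M * (m : ℝ) ^ (-(β / (1 + 2 * β))) := by
  have hs : 0 < β / (1 + 2 * β) := by positivity
  obtain ⟨C, hC⟩ := rate hs
  refine ⟨4 * max C 0, fun M hM m hm => ?_⟩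
  obtain ⟨F, hF, hF0, hb⟩ := exists_hard_radial m
  obtain ⟨f, φ, h0, hR⟩ := exists_realization F
  have hmem : ‖f m‖ ∈ {r | ∃ f φ : ℕ → L2D, f 0 ∈ classA1 ∩ angClass β M ∧
      IsRealization f φ ∧ r = ‖f m‖} :=
    ⟨f, φ, by rw [h0]; exact ⟨hF, mem_angClass_of_zero hM hF0⟩, hR, rfl⟩
  have hm0 : (0 : ℝ) < m := by exact_mod_cast hm
  constructor
  · refine le_trans ?_ (le_csSup (bddAbove_on Set.inter_subset_left m) hmem)
    rw [residual_eq hR m, h0]
    exact hb (fun i => (inner ℝ (f i) (φ i) : ℝ) • φ i) fun i => isRidge_smul (hR.mem i).1 _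
  · refine csSup_le ⟨_, hmem⟩ ?_
    rintro r ⟨f, φ, hf, hR, rfl⟩
    set s := β / (1 + 2 * β) with hsdef
    have h1 := hC f φ hR (4 * M) ((norm_le_one hf.1).trans (by linarith))
      (angClass_subset hβ hM hf.1 hf.2) m
    have h2 : ((m : ℝ) + 1) ^ (-s) ≤ (m : ℝ) ^ (-s) :=
      Real.rpow_le_rpow_of_nonpos hm0 (by linarith) (by linarith)
    have h3 : 0 ≤ ((m : ℝ) + 1) ^ (-s) := Real.rpow_nonneg (by linarith) _
    calc ‖f m‖ ≤ C * (4 * M) * ((m : ℝ) + 1) ^ (-s) := h1
      _ ≤ max C 0 * (4 * M) * ((m : ℝ) + 1) ^ (-s) :=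
        mul_le_mul_of_nonneg_right (mul_le_mul_of_nonneg_right (le_max_left _ _)
          (by linarith)) h3
      _ ≤ max C 0 * (4 * M) * (m : ℝ) ^ (-s) :=
        mul_le_mul_of_nonneg_left h2 (mul_nonneg (le_max_right _ _) (by linarith))
      _ = _ := by ring

end Pool.Agent.Lib.MP_7d2bee_an
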