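import Pool.Agent.Lib.MP_7d2bee_an.Main

/-!
# The lower bound for m-term approximation by ridge functions: conclusion
-/

set_option autoImplicit false

namespace Pool.Agent.Lib.MP_7d2bee_an

open MeasureTheory Filter Topology Finset

theorem memLp_of_bdd {h : Plane → ℝ} (hm : Measurable h) {C : ℝ} (hb : ∀ x, |h x| ≤ C) :
    MemLp h 2 diskMeasure :=
  MemLp.of_bound hm.aestronglyMeasurable C (Eventually.of_forall fun x => by
    rw [Real.norm_eq_abs]; exact hb x)

theorem inner_toLp (g : L2D) {h : Plane → ℝ} (hh : MemLp h 2 diskMeasure) :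
    inner ℝ g (hh.toLp h) = ∫ x, g x * h x ∂diskMeasure := by
  rw [L2.inner_def]
  refine integral_congr_ae ?_
  filter_upwards [hh.coeFn_toLp] with x hx
  rw [hx]; simp [mul_comm]

theorem abs_ph_le' (l : ℝ) (e x : Plane) : |ph l e x| ≤ |(nu l e)⁻¹| := by
  rw [ph, abs_mul]
  exact mul_le_of_le_one_right (abs_nonneg _) (abs_cw_le _ _ _)

theorem memLp_ph (l : ℝ) (e : Plane) : MemLp (ph l e) 2 diskMeasure :=
  memLp_of_bdd (continuous_ph l e).measurable (abs_ph_le' l e)

/-- the plane wave as an element of the Hilbert space -/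
noncomputable def phL (l : ℝ) (e : Plane) : L2D := (memLp_ph l e).toLp (ph l e)

theorem isRidge_phL (l : ℝ) {e : Plane} (he : ‖e‖ = 1) : IsRidge (phL l e) := by
  refine ⟨fun t => (nu l e)⁻¹ * Real.cos (l * t), e, he, ?_⟩
  filter_upwards [(memLp_ph l e).coeFn_toLp] with x hx
  rw [phL, hx, ph, cw]

theorem inner_phL (l : ℝ) (e : Plane) {h : Plane → ℝ} (hh : MemLp h 2 diskMeasure) :
    inner ℝ (phL l e) (hh.toLp h) = ∫ x, ph l e x * h x ∂diskMeasure := by
  rw [inner_toLp]
  refine integral_congr_ae ?_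
  filter_upwards [(memLp_ph l e).coeFn_toLp] with x hx
  rw [phL, hx]

theorem norm_phL {l : ℝ} {e : Plane} (h : 0 < nu l e) : ‖phL l e‖ = 1 := by
  have h1 : ‖phL l e‖ ^ 2 = 1 := by
    rw [← real_inner_self_eq_norm_sq]
    have := inner_phL l e (memLp_ph l e)
    rw [phL] at this ⊢
    rw [this]
    have h2 : ∀ x, ph l e x * ph l e x = (nu l e)⁻¹ ^ 2 * (cw l e x * cw l e x) := by
      intro x; rw [ph]; ring
    simp_rw [h2]
    rw [integral_const_mul]
    have h3 : ∫ x, cw l e x * cw l e x ∂diskMeasure = nu l e ^ 2 := by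
      rw [nu, Real.sq_sqrt (integral_nonneg fun x => mul_self_nonneg _)]
    rw [h3, ← mul_pow, inv_mul_cancel₀ h.ne', one_pow]
  have := norm_nonneg (phL l e)
  nlinarith

theorem mem_classA1 {N : ℕ} (hN : 0 < N) {l : ℝ} {e : Fin N → Plane} (he : ∀ j, ‖e j‖ = 1)
    (hnu : ∀ j, 1 / 2 ≤ nu l (e j)) : ∑ j, (N : ℝ)⁻¹ • phL l (e j) ∈ classA1 := by
  refine subset_closure ((convex_convexHull ℝ _).sum_mem (fun j _ => by positivity) ?_
    fun j _ => subset_convexHull ℝ _ (Or.inl ⟨isRidge_phL l (he j), norm_phL ?_⟩))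
  · have : (N : ℝ) ≠ 0 := by exact_mod_cast hN.ne'
    simp [this]
  · linarith [hnu j]

theorem inner_sum_phL {N : ℕ} {l c : ℝ} {e : Fin N → Plane} {h : Plane → ℝ}
    (hh : MemLp h 2 diskMeasure) :
    inner ℝ (∑ j, c • phL l (e j)) (hh.toLp h)
      = c * ∫ x, waves l e univ x * h x ∂diskMeasure := by
  rw [sum_inner]
  simp_rw [inner_smul_left, inner_phL, waves, Finset.sum_mul]
  have hi : ∀ j, Integrable (fun x => ph l (e j) x * h x) diskMeasure := fun j =>
    (memLp_ph l (e j)).integrable_mul hh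
  rw [integral_finsetSum _ fun j _ => hi j, Finset.mul_sum]
  simp

theorem main_bound {m : ℕ} (hm : 1 ≤ m) {δ : ℝ} (hδ0 : 0 < δ) (hδ1 : δ < 1) :
    ∃ f ∈ classA1, ∀ u : Fin m → L2D, (∀ i, IsRidge (u i)) →
      (1 - δ) / (2 * √m) ≤ ‖f - ∑ i, u i‖ := by
  classical
  obtain ⟨e, he, s, hs0, hs⟩ := exists_dirs (2 * m)
  have hm0 : (0 : ℝ) < m := by exact_mod_cast hm
  set r : ℝ := 1 - δ / 2 with hr
  have hr0 : 0 < r := by rw [hr]; linarith
  have hr1 : r < 1 := by rw [hr]; linarith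
  -- s ≤ 1
  have hs1 : s ≤ 1 := by
    have h2 : 1 < 2 * m := by omega
    have := hs ⟨0, by omega⟩ ⟨1, h2⟩ (by intro h; simpa using congrArg Fin.val h)
    have h3 := abs_det2_le (e ⟨0, by omega⟩) (e ⟨1, h2⟩)
    rw [he, he] at h3
    linarith
  set z : ℝ := Real.sin s ^ m with hzdef
  have hz : 0 < z := pow_pos (Real.sin_pos_of_pos_of_lt_pi hs0 (by
    have := Real.pi_gt_three; linarith)) _
  have he0 : ∀ j, e j ≠ 0 := fun j h => by
    have := he j; rw [h, norm_zero] at this; norm_num at this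
  have hinj : Function.Injective e := by
    intro i j h
    by_contra hne
    have h1 := hs i j hne
    rw [h, det2_self, abs_zero] at h1
    linarith
  have hsum : ∀ i j, e i + e j ≠ 0 := by
    intro i j h
    by_cases hij : i = j
    · subst hij
      have : (2 : ℝ) • e i = 0 := by rw [two_smul]; exact h
      exact he0 i ((smul_eq_zero.1 this).resolve_left two_ne_zero)
    · have h1 := hs i j hij
      have h2 : e j = -e i := by rw [eq_neg_iff_add_eq_zero, add_comm]; exact h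
      have h3 : det2 (e i) (e j) = 0 := by rw [h2]; simp [det2]; ring
      rw [h3, abs_zero] at h1
      linarith
  set K : ℝ := (CC m (2 * m) z + 4 * m) ^ 2 with hK
  have hCC := CC_nonneg m (2 * m) hz
  -- the error function
  set g : ℝ → ℝ := fun l => dev r l e + 4 * r * (m / l) * K with hg
  have hgt : Tendsto g atTop (𝓝 0) := by
    have h1 := tendsto_dev (r := r) hr0.le hr1.le hsum he0
    have h2 : Tendsto (fun l : ℝ => 4 * r * (m / l) * K) atTop (𝓝 0) := by
      have := ((tendsto_const_nhds (x := (m : ℝ))).div_atTop tendsto_id).const_mul (4 * r)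
      have := this.mul_const K
      simpa using this
    simpa using h1.add h2
  set c : ℝ := (1 - δ) / (2 * √m) with hc
  have hsm := Real.sqrt_pos.2 hm0
  have hc0 : 0 < c := by rw [hc]; exact div_pos (by linarith) (by positivity)
  have hc2 : (2 * m) ^ 2 * c ^ 2 = m * (1 - δ) ^ 2 := by
    have := Real.sq_sqrt hm0.le
    rw [hc, div_pow, mul_pow, mul_pow, this]
    field_simp
  have hlim : (2 * m) ^ 2 * c ^ 2 * (m * r ^ 2 + 0) < (m * r ^ 2 - 0) ^ 2 := by
    rw [hc2, add_zero, sub_zero]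
    have h1 : (1 - δ) ^ 2 < r ^ 2 := by
      rw [hr]; exact pow_lt_pow_left₀ (by linarith) (by linarith) two_ne_zero
    have h2 : 0 < (m : ℝ) ^ 2 * r ^ 2 := by positivity
    have h3 := mul_lt_mul_of_pos_left h1 h2
    calc m * (1 - δ) ^ 2 * (m * r ^ 2) = m ^ 2 * r ^ 2 * (1 - δ) ^ 2 := by ring
      _ < m ^ 2 * r ^ 2 * r ^ 2 := h3
      _ = (m * r ^ 2) ^ 2 := by ring
  have E1 : ∀ᶠ l in atTop, 0 < m * r ^ 2 - g l := by
    have h1 := hgt.const_sub (m * r ^ 2)
    rw [sub_zero] at h1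
    exact h1.eventually (lt_mem_nhds (by positivity))
  have E2 : ∀ᶠ l in atTop, (2 * m) ^ 2 * c ^ 2 * (m * r ^ 2 + g l) < (m * r ^ 2 - g l) ^ 2 := by
    have h1 := (hgt.const_add (m * r ^ 2)).const_mul ((2 * m) ^ 2 * c ^ 2)
    have h2 := (hgt.const_sub (m * r ^ 2)).pow 2
    exact h1.eventually_lt h2 hlim
  have E3 : ∀ᶠ l in atTop, ∀ j, 1 / 2 ≤ nu l (e j) := by
    rw [eventually_all]
    intro j
    refine (tendsto_nu (he0 j)).eventually (le_mem_nhds ?_)
    rw [Real.lt_sqrt (by norm_num)]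
    norm_num
  have E4 : Tendsto (fun l : ℝ => (m : ℝ) / l) atTop (𝓝 0) :=
    tendsto_const_nhds.div_atTop tendsto_id
  have E5 := E4.eventually (gt_mem_nhds hr0)
  have E6 := E4.eventually (gt_mem_nhds (sub_pos.2 hr1))
  obtain ⟨l, hl0, hl1, hl2, hl3, hl5, hl6⟩ :=
    ((eventually_gt_atTop (0 : ℝ)).and (E1.and (E2.and (E3.and (E5.and E6))))).exists
  have hN : 0 < 2 * m := by omega
  refine ⟨∑ j, ((2 * m : ℕ) : ℝ)⁻¹ • phL l (e j), mem_classA1 hN he hl3, fun u hu => ?_⟩
  choose gg d hd hgd using hu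
  obtain ⟨J, hJc, hJ⟩ := exists_good he hs hd
  have hmult : ∀ j ∈ J, z ≤ ‖mult d (e j)‖ := by
    intro j hj
    refine norm_mult_ge hs0 (hJ j hj) fun i => ?_
    have := abs_det2_le (d i) (e j)
    rwa [hd, he, one_mul] at this
  have hΦ : MemLp (PhiF d l r e J) 2 diskMeasure :=
    memLp_of_bdd (measurable_PhiF d l r e J) (abs_PhiF_le hz hmult hl3)
  set ΦL : L2D := hΦ.toLp (PhiF d l r e J) with hΦL
  set f : L2D := ∑ j, ((2 * m : ℕ) : ℝ)⁻¹ • phL l (e j) with hf
  -- the inner product with the annihilator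
  have hX : inner ℝ (f - ∑ i, u i) ΦL
      = ((2 * m : ℕ) : ℝ)⁻¹ * ∫ x, waves l e univ x * PhiF d l r e J x ∂diskMeasure := by
    have h0 : ∀ i, inner ℝ (u i) ΦL = 0 := by
      intro i
      rw [hΦL, inner_toLp]
      have hsh : ∀ S, r + ‖sh d l S‖ ≤ 1 := fun S => by
        have := norm_sh_le hd hl0 S
        linarith
      refine integral_alt_eq_zero (measurable_cutPsi d l r e J)
        (fun x => abs_cutPsi_le hz hmult hl3 x) (r := r) (fun x hx => ?_) hsh
        ((Lp.memLp (u i)).integrable one_le_two) (gg i) i (hgd i)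
      rw [cutPsi, Set.indicator_of_notMem]
      rwa [mem_closedBall_zero_iff, not_le]
    have h00 : inner ℝ (∑ i, u i) ΦL = 0 := by
      rw [sum_inner]; exact Finset.sum_eq_zero fun i _ => h0 i
    rw [inner_sub_left, h00, sub_zero, hf, hΦL, inner_sum_phL hΦ]
  have hY : ‖ΦL‖ ^ 2 = ∫ x, PhiF d l r e J x * PhiF d l r e J x ∂diskMeasure := by
    rw [← real_inner_self_eq_norm_sq, hΦL, inner_toLp]
    refine integral_congr_ae ?_
    filter_upwards [hΦ.coeFn_toLp] with x hx
    rw [hx]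
  have hrl0 : 0 ≤ r - m / l := by linarith
  have hrl1 : r + m / l ≤ 1 := by linarith
  have ha0 : 0 ≤ 4 * r * (m / l) := by positivity
  -- lower bound for X
  have hX1 : m * r ^ 2 - g l ≤ ∫ x, waves l e univ x * PhiF d l r e J x ∂diskMeasure := by
    have h1 := abs_integral_sub_le (r := r) hl0 hd hz hmult hl3 hrl0 hrl1
      (continuous_waves l e univ).measurable (abs_waves_le hl3)
    have h2 := abs_sum_gram_sub_le (r := r) (l := l) hinj univ (Finset.subset_univ J)
    rw [← integral_mul_W, hJc] at h2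
    have h3 : 4 * r * (m / l) * (2 * ((2 * m : ℕ) : ℝ) * CC m (2 * m) z)
        ≤ 4 * r * (m / l) * K := by
      refine mul_le_mul_of_nonneg_left ?_ ha0
      rw [hK]; push_cast
      nlinarith
    have h4 := abs_le.1 h1
    have h5 := abs_le.1 h2
    simp only [hg]
    linarith [h4.1, h5.1]
  have hY1 : ∫ x, PhiF d l r e J x * PhiF d l r e J x ∂diskMeasure ≤ m * r ^ 2 + g l := by
    have h1 := abs_integral_sub_le (r := r) hl0 hd hz hmult hl3 hrl0 hrl1
      (measurable_PhiF d l r e J) (abs_PhiF_le hz hmult hl3)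
    have h2 := abs_integral_sub_le (r := r) hl0 hd hz hmult hl3 hrl0 hrl1
      (measurable_W l r e J) (abs_W_le hl3)
    have h3 : ∫ x, W l r e J x * W l r e J x ∂diskMeasure
        = ∫ x, waves l e J x * W l r e J x ∂diskMeasure := by
      refine integral_congr_ae (Eventually.of_forall fun x => ?_)
      simp only [W]
      by_cases hx : x ∈ Metric.closedBall (0 : Plane) r
      · rw [Set.indicator_of_mem hx]
      · rw [Set.indicator_of_notMem hx, mul_zero, mul_zero]
    have h4 := abs_sum_gram_sub_le (r := r) (l := l) hinj J (Finset.Subset.refl J)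
    rw [← integral_mul_W, hJc] at h4
    have h5 : ∫ x, W l r e J x * PhiF d l r e J x ∂diskMeasure
        = ∫ x, PhiF d l r e J x * W l r e J x ∂diskMeasure :=
      integral_congr_ae (Eventually.of_forall fun x => mul_comm _ _)
    rw [h5, h3] at h2
    have h6 : 4 * r * (m / l) * (2 ^ m * (((2 * m : ℕ) : ℝ) * (2 / z)) * CC m (2 * m) z)
        + 4 * r * (m / l) * (2 * ((2 * m : ℕ) : ℝ) * CC m (2 * m) z)
        ≤ 4 * r * (m / l) * K := by
      have : 4 * r * (m / l) * (2 ^ m * (((2 * m : ℕ) : ℝ) * (2 / z)) * CC m (2 * m) z)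
        + 4 * r * (m / l) * (2 * ((2 * m : ℕ) : ℝ) * CC m (2 * m) z)
        = 4 * r * (m / l) * CC m (2 * m) z ^ 2 := by
        rw [CC]; ring
      rw [this]
      refine mul_le_mul_of_nonneg_left ?_ ha0
      rw [hK]
      nlinarith
    have h7 := abs_le.1 h1
    have h8 := abs_le.1 h2
    have h9 := abs_le.1 h4
    simp only [hg]
    linarith [h7.2, h8.2, h9.2]
  set I1 := ∫ x, waves l e univ x * PhiF d l r e J x ∂diskMeasure with hI1
  have hCS := real_inner_le_norm (f - ∑ i, u i) ΦL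
  rw [hX] at hCS
  have h2m : (0 : ℝ) < ((2 * m : ℕ) : ℝ) := by exact_mod_cast hN
  have hI1' : I1 ≤ ((2 * m : ℕ) : ℝ) * (‖f - ∑ i, u i‖ * ‖ΦL‖) := by
    rwa [inv_mul_le_iff₀ h2m] at hCS
  by_contra hlt
  rw [not_le] at hlt
  have hnn := norm_nonneg ΦL
  have hnf := norm_nonneg (f - ∑ i, u i)
  have h3 : I1 ^ 2 ≤ (2 * m) ^ 2 * c ^ 2 * (m * r ^ 2 + g l) := by
    have h4 : I1 ≤ 2 * m * (c * ‖ΦL‖) := by
      refine hI1'.trans ?_
      push_cast
      exact mul_le_mul_of_nonneg_left (mul_le_mul_of_nonneg_right hlt.le hnn) (by positivity)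
    have h5 : I1 ^ 2 ≤ (2 * m * (c * ‖ΦL‖)) ^ 2 :=
      pow_le_pow_left₀ (hl1.le.trans hX1) h4 2
    refine h5.trans ?_
    rw [mul_pow, mul_pow c, hY, ← mul_assoc]
    exact mul_le_mul_of_nonneg_left hY1 (by positivity)
  have h6 : (m * r ^ 2 - g l) ^ 2 ≤ I1 ^ 2 := pow_le_pow_left₀ hl1.le hX1 2
  linarith

end Pool.Agent.Lib.MP_7d2bee_an
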