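import Pool.Agent.Lib.MP_7d2bee_an.Wave

/-!
# The lower bound for m-term approximation by ridge functions
-/

set_option autoImplicit false

namespace Pool.Agent.Lib.MP_7d2bee_an

open MeasureTheory Filter Topology Finset

/-! ### directions -/

theorem exists_dirs (N : ℕ) : ∃ e : Fin N → Plane, (∀ j, ‖e j‖ = 1) ∧
    ∃ s : ℝ, 0 < s ∧ ∀ i j, i ≠ j → 2 * s ≤ |det2 (e i) (e j)| := by
  classical
  let v : Fin N → Plane := fun j => !₂[1, (j : ℝ)]
  have hv : ∀ j, 0 < ‖v j‖ := by
    intro j
    rw [norm_pos_iff]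
    intro h
    have := congrArg (fun w : Plane => w 0) h
    simp [v] at this
  let e : Fin N → Plane := fun j => ‖v j‖⁻¹ • v j
  have he : ∀ j, ‖e j‖ = 1 := by
    intro j
    rw [norm_smul, norm_inv, norm_norm, inv_mul_cancel₀ (hv j).ne']
  have hd : ∀ i j, i ≠ j → det2 (e i) (e j) ≠ 0 := by
    intro i j hij
    have : det2 (e i) (e j) = ‖v i‖⁻¹ * ‖v j‖⁻¹ * ((j : ℝ) - i) := by
      simp [det2, e, v]; ring
    rw [this]
    refine mul_ne_zero (mul_ne_zero (inv_ne_zero (hv i).ne') (inv_ne_zero (hv j).ne')) ?_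
    rw [sub_ne_zero]
    intro h
    exact hij (Fin.ext (by exact_mod_cast h.symm))
  refine ⟨e, he, ?_⟩
  -- the minimum over the finitely many pairs
  have : ∀ P : Finset (Fin N × Fin N), (∀ p ∈ P, p.1 ≠ p.2) →
      ∃ s : ℝ, 0 < s ∧ ∀ p ∈ P, 2 * s ≤ |det2 (e p.1) (e p.2)| := by
    intro P
    induction P using Finset.induction_on with
    | empty => intro _; exact ⟨1, one_pos, by simp⟩
    | insert p P _ ih =>
      intro h
      obtain ⟨s, hs, hs'⟩ := ih fun q hq => h q (Finset.mem_insert_of_mem hq)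
      have hp := abs_pos.2 (hd p.1 p.2 (h p (Finset.mem_insert_self _ _)))
      refine ⟨min s (|det2 (e p.1) (e p.2)| / 2), lt_min hs (half_pos hp), ?_⟩
      intro q hq
      rcases Finset.mem_insert.1 hq with rfl | hq
      · have := min_le_right s (|det2 (e q.1) (e q.2)| / 2)
        linarith
      · have := min_le_left s (|det2 (e p.1) (e p.2)| / 2)
        have := hs' q hq
        linarith
  obtain ⟨s, hs, hs'⟩ := this (univ.filter fun p : Fin N × Fin N => p.1 ≠ p.2)
    (fun p hp => (Finset.mem_filter.1 hp).2)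
  exact ⟨s, hs, fun i j hij => hs' (i, j) (by simp [hij])⟩

theorem exists_good {m : ℕ} {e : Fin (2 * m) → Plane} (he : ∀ j, ‖e j‖ = 1) {s : ℝ}
    (hs : ∀ i j, i ≠ j → 2 * s ≤ |det2 (e i) (e j)|)
    {d : Fin m → Plane} (hd : ∀ i, ‖d i‖ = 1) :
    ∃ J : Finset (Fin (2 * m)), J.card = m ∧ ∀ j ∈ J, ∀ i, s ≤ |det2 (d i) (e j)| := by
  classical
  set B : Finset (Fin (2 * m)) := univ.filter fun j => ∃ i, |det2 (d i) (e j)| < s with hB
  have hcard : B.card ≤ m := by
    have h1 : ∀ j : B, ∃ i, |det2 (d i) (e j)| < s := fun j => (Finset.mem_filter.1 j.2).2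
    choose φ hφ using h1
    have hinj : Function.Injective φ := by
      intro j j' h
      by_contra hne
      have h2 := abs_det2_le_add (hd (φ j)) (he j) (he j')
      have h3 := hs j j' (fun h => hne (Subtype.ext h))
      have h4 := hφ j
      have h5 := hφ j'
      rw [← h] at h5
      linarith
    have := Fintype.card_le_of_injective φ hinj
    simpa using this
  have hc : m ≤ Bᶜ.card := by
    rw [Finset.card_compl, Fintype.card_fin]; omega
  obtain ⟨J, hJ, hJc⟩ := Finset.exists_subset_card_eq hc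
  refine ⟨J, hJc, fun j hj i => ?_⟩
  have h1 := hJ hj
  rw [Finset.mem_compl, hB, Finset.mem_filter] at h1
  push Not at h1
  exact h1 (Finset.mem_univ _) i

/-! ### the cut-off functions -/

section cut

variable {m N : ℕ} (d : Fin m → Plane) (l r : ℝ) (e : Fin N → Plane) (J : Finset (Fin N))

/-- cut-off of psi -/
noncomputable def cutPsi : Plane → ℝ := (Metric.closedBall (0 : Plane) r).indicator (psi d l e J)

/-- the annihilator -/
noncomputable def PhiF : Plane → ℝ := alt d l (cutPsi d l r e J)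

/-- the sum of the selected plane waves -/
noncomputable def waves (x : Plane) : ℝ := ∑ j ∈ J, ph l (e j) x

/-- cut-off of the sum of plane waves -/
noncomputable def W : Plane → ℝ := (Metric.closedBall (0 : Plane) r).indicator (waves l e J)

theorem measurable_cutPsi : Measurable (cutPsi d l r e J) :=
  (continuous_psi d l e J).measurable.indicator measurableSet_closedBall

theorem measurable_PhiF : Measurable (PhiF d l r e J) := measurable_alt (measurable_cutPsi d l r e J)

theorem continuous_waves : Continuous (waves l e J) :=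
  continuous_finsetSum _ fun j _ => continuous_ph l (e j)

theorem measurable_W : Measurable (W l r e J) :=
  (continuous_waves l e J).measurable.indicator measurableSet_closedBall

end cut

section bounds

variable {m N : ℕ} {d : Fin m → Plane} {l r : ℝ} {e : Fin N → Plane} {J : Finset (Fin N)} {z : ℝ}

theorem abs_cutPsi_le (hz : 0 < z) (hJ : ∀ j ∈ J, z ≤ ‖mult d (e j)‖)
    (hnu : ∀ j, 1 / 2 ≤ nu l (e j)) (x : Plane) : |cutPsi d l r e J x| ≤ N * (2 / z) := by
  rw [cutPsi]
  by_cases hx : x ∈ Metric.closedBall (0 : Plane) r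
  · rw [Set.indicator_of_mem hx]; exact abs_psi_le hz hJ hnu x
  · rw [Set.indicator_of_notMem hx, abs_zero]; positivity

theorem abs_waves_le (hnu : ∀ j, 1 / 2 ≤ nu l (e j)) (x : Plane) :
    |waves l e J x| ≤ 2 * N := by
  rw [waves]
  refine (Finset.abs_sum_le_sum_abs _ _).trans ?_
  calc ∑ j ∈ J, |ph l (e j) x| ≤ ∑ j ∈ J, (2 : ℝ) :=
        Finset.sum_le_sum fun j _ => abs_ph_le (hnu j) x
    _ = J.card * 2 := by rw [Finset.sum_const, nsmul_eq_mul]
    _ ≤ 2 * N := by
        have := Finset.card_le_univ J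
        rw [Fintype.card_fin] at this
        have : (J.card : ℝ) ≤ N := by exact_mod_cast this
        linarith

theorem abs_W_le (hnu : ∀ j, 1 / 2 ≤ nu l (e j)) (x : Plane) : |W l r e J x| ≤ 2 * N := by
  rw [W]
  by_cases hx : x ∈ Metric.closedBall (0 : Plane) r
  · rw [Set.indicator_of_mem hx]; exact abs_waves_le hnu x
  · rw [Set.indicator_of_notMem hx, abs_zero]; positivity

theorem abs_PhiF_le (hz : 0 < z) (hJ : ∀ j ∈ J, z ≤ ‖mult d (e j)‖)
    (hnu : ∀ j, 1 / 2 ≤ nu l (e j)) (x : Plane) :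
    |PhiF d l r e J x| ≤ 2 ^ m * (N * (2 / z)) :=
  abs_alt_le (fun y => abs_cutPsi_le hz hJ hnu y) x

theorem PhiF_eq_W_of_le (hl : 0 < l) (hd : ∀ i, ‖d i‖ = 1) (hJ : ∀ j ∈ J, mult d (e j) ≠ 0)
    {y : Plane} (hy : ‖y‖ ≤ r - m / l) : PhiF d l r e J y = W l r e J y := by
  have h1 : ∀ S, y - sh d l S ∈ Metric.closedBall (0 : Plane) r := by
    intro S
    rw [mem_closedBall_zero_iff]
    have := norm_sub_le y (sh d l S)
    have := norm_sh_le hd hl S
    linarith
  have h2 : y ∈ Metric.closedBall (0 : Plane) r := by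
    rw [mem_closedBall_zero_iff]
    have : 0 ≤ (m : ℝ) / l := by positivity
    linarith
  rw [W, Set.indicator_of_mem h2, waves, ← alt_psi d hl.ne' e hJ y, PhiF, alt, alt]
  refine Finset.sum_congr rfl fun S _ => ?_
  rw [cutPsi, Set.indicator_of_mem (h1 S)]

theorem PhiF_eq_zero_of_lt (hl : 0 < l) (hd : ∀ i, ‖d i‖ = 1)
    {y : Plane} (hy : r + m / l < ‖y‖) : PhiF d l r e J y = 0 := by
  rw [PhiF, alt]
  refine Finset.sum_eq_zero fun S _ => ?_
  have h1 : y - sh d l S ∉ Metric.closedBall (0 : Plane) r := by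
    rw [mem_closedBall_zero_iff, not_le]
    have := norm_sub_norm_le y (sh d l S)
    have := norm_sh_le hd hl S
    linarith
  rw [cutPsi, Set.indicator_of_notMem h1, mul_zero]

theorem W_eq_zero_of_lt (hl : 0 < l) {y : Plane} (hy : r + m / l < ‖y‖) : W l r e J y = 0 := by
  rw [W, Set.indicator_of_notMem]
  rw [mem_closedBall_zero_iff, not_le]
  have : 0 ≤ (m : ℝ) / l := by positivity
  linarith

/-- the annulus on which the two functions differ -/
def annulus (r t : ℝ) : Set Plane := Metric.closedBall 0 (r + t) \ Metric.closedBall 0 (r - t)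

theorem measurableSet_annulus (r t : ℝ) : MeasurableSet (annulus r t) :=
  measurableSet_closedBall.diff measurableSet_closedBall

theorem measure_annulus {r t : ℝ} (ht : 0 ≤ t) (h0 : 0 ≤ r - t) (h1 : r + t ≤ 1) :
    diskMeasure.real (annulus r t) = 4 * r * t := by
  rw [annulus, measureReal_sdiff (Metric.closedBall_subset_closedBall (by linarith))
    measurableSet_closedBall, diskMeasure_real_closedBall (by linarith) h1,
    diskMeasure_real_closedBall h0 (by linarith)]
  ring

/-- the constant -/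
noncomputable def CC (m N : ℕ) (z : ℝ) : ℝ := 2 ^ m * (N * (2 / z)) + 2 * N

theorem CC_nonneg (m N : ℕ) {z : ℝ} (hz : 0 < z) : 0 ≤ CC m N z := by
  rw [CC]; positivity

theorem abs_sub_le_indicator (hl : 0 < l) (hd : ∀ i, ‖d i‖ = 1) (hz : 0 < z)
    (hJ : ∀ j ∈ J, z ≤ ‖mult d (e j)‖) (hnu : ∀ j, 1 / 2 ≤ nu l (e j)) (y : Plane) :
    |PhiF d l r e J y - W l r e J y| ≤ (annulus r (m / l)).indicator (fun _ => CC m N z) y := by
  have hJ' : ∀ j ∈ J, mult d (e j) ≠ 0 := fun j hj h => by
    have := hJ j hj; rw [h, norm_zero] at this; linarith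
  by_cases h1 : ‖y‖ ≤ r - m / l
  · rw [PhiF_eq_W_of_le hl hd hJ' h1, sub_self, abs_zero]
    exact Set.indicator_nonneg (fun _ _ => CC_nonneg m N hz) _
  by_cases h2 : r + m / l < ‖y‖
  · rw [PhiF_eq_zero_of_lt hl hd h2, W_eq_zero_of_lt hl h2, sub_self, abs_zero]
    exact Set.indicator_nonneg (fun _ _ => CC_nonneg m N hz) _
  · have : y ∈ annulus r (m / l) := by
      rw [annulus, Set.mem_sdiff, mem_closedBall_zero_iff, mem_closedBall_zero_iff]
      exact ⟨not_lt.1 h2, h1⟩
    rw [Set.indicator_of_mem this]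
    calc |PhiF d l r e J y - W l r e J y| ≤ |PhiF d l r e J y| + |W l r e J y| := abs_sub _ _
      _ ≤ CC m N z := add_le_add (abs_PhiF_le hz hJ hnu y) (abs_W_le hnu y)

theorem integral_annulus (hl : 0 < l) (h0 : 0 ≤ r - m / l) (h1 : r + m / l ≤ 1) (C : ℝ) :
    ∫ y, (annulus r (m / l)).indicator (fun _ => C) y ∂diskMeasure = 4 * r * (m / l) * C := by
  rw [integral_indicator (measurableSet_annulus _ _), setIntegral_const,
    measure_annulus (by positivity) h0 h1, smul_eq_mul]

/-- comparison of integrals -/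
theorem abs_integral_sub_le (hl : 0 < l) (hd : ∀ i, ‖d i‖ = 1) (hz : 0 < z)
    (hJ : ∀ j ∈ J, z ≤ ‖mult d (e j)‖) (hnu : ∀ j, 1 / 2 ≤ nu l (e j))
    (h0 : 0 ≤ r - m / l) (h1 : r + m / l ≤ 1) {F : Plane → ℝ} (hF : Measurable F) {C : ℝ}
    (hFb : ∀ x, |F x| ≤ C) :
    |∫ x, F x * PhiF d l r e J x ∂diskMeasure - ∫ x, F x * W l r e J x ∂diskMeasure|
      ≤ 4 * r * (m / l) * (C * CC m N z) := by
  have hi1 : Integrable (fun x => F x * PhiF d l r e J x) diskMeasure := by
    have := integrable_of_bdd (hF.mul (measurable_PhiF d l r e J))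
      (C := C * (2 ^ m * (N * (2 / z)))) (fun x => by
        rw [Pi.mul_apply, abs_mul]
        exact mul_le_mul (hFb x) (abs_PhiF_le hz hJ hnu x) (abs_nonneg _)
          ((abs_nonneg _).trans (hFb x))) Set.univ
    rwa [Measure.restrict_univ] at this
  have hi2 : Integrable (fun x => F x * W l r e J x) diskMeasure := by
    have := integrable_of_bdd (hF.mul (measurable_W l r e J))
      (C := C * (2 * N)) (fun x => by
        rw [Pi.mul_apply, abs_mul]
        exact mul_le_mul (hFb x) (abs_W_le hnu x) (abs_nonneg _)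
          ((abs_nonneg _).trans (hFb x))) Set.univ
    rwa [Measure.restrict_univ] at this
  rw [← integral_sub hi1 hi2, ← integral_annulus hl h0 h1]
  refine (abs_integral_le_integral_abs).trans (integral_mono_of_nonneg
    (Eventually.of_forall fun x => abs_nonneg _) ?_ (Eventually.of_forall fun x => ?_))
  · exact (integrable_const _).indicator (measurableSet_annulus _ _)
  · have h3 := abs_sub_le_indicator (r := r) hl hd hz hJ hnu x
    have h4 : (annulus r (m / l)).indicator (fun _ => C * CC m N z) x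
        = C * (annulus r (m / l)).indicator (fun _ => CC m N z) x := by
      by_cases hx : x ∈ annulus r (m / l)
      · rw [Set.indicator_of_mem hx, Set.indicator_of_mem hx]
      · rw [Set.indicator_of_notMem hx, Set.indicator_of_notMem hx, mul_zero]
    simp only [h4]
    rw [← mul_sub, abs_mul]
    exact mul_le_mul (hFb x) h3 (abs_nonneg _) ((abs_nonneg _).trans (hFb x))

end bounds

/-! ### the Gram sums -/

section gramsums

variable {N : ℕ} {l r : ℝ} {e : Fin N → Plane} {J : Finset (Fin N)}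

/-- the total deviation of the Gram matrix -/
noncomputable def dev (r l : ℝ) (e : Fin N → Plane) : ℝ :=
  ∑ i, ∑ j, |gram r l (e i) (e j) - if e i = e j then r ^ 2 else 0|

theorem integral_mul_W (K : Finset (Fin N)) :
    ∫ x, waves l e K x * W l r e J x ∂diskMeasure = ∑ i ∈ K, ∑ j ∈ J, gram r l (e i) (e j) := by
  have h1 : ∀ x, waves l e K x * W l r e J x
      = (Metric.closedBall (0 : Plane) r).indicator (fun x => waves l e K x * waves l e J x) x := by
    intro x
    rw [W]
    by_cases hx : x ∈ Metric.closedBall (0 : Plane) r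
    · rw [Set.indicator_of_mem hx, Set.indicator_of_mem hx]
    · rw [Set.indicator_of_notMem hx, Set.indicator_of_notMem hx, mul_zero]
  simp_rw [h1]
  rw [integral_indicator measurableSet_closedBall]
  simp_rw [waves, Finset.sum_mul_sum]
  have hint : ∀ i j, Integrable (fun x => ph l (e i) x * ph l (e j) x)
      (diskMeasure.restrict (Metric.closedBall (0 : Plane) r)) := by
    intro i j
    refine integrable_of_bdd ((continuous_ph l (e i)).mul (continuous_ph l (e j))).measurable
      (C := |(nu l (e i))⁻¹| * |(nu l (e j))⁻¹|) (fun x => ?_) _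
    have e1 : ∀ k, |ph l (e k) x| ≤ |(nu l (e k))⁻¹| := fun k => by
      rw [ph, abs_mul]
      exact mul_le_of_le_one_right (abs_nonneg _) (abs_cw_le _ _ _)
    rw [Pi.mul_apply, abs_mul]
    exact mul_le_mul (e1 i) (e1 j) (abs_nonneg _) (abs_nonneg _)
  rw [integral_finsetSum _ fun i _ => integrable_finsetSum _ fun j _ => hint i j]
  refine Finset.sum_congr rfl fun i _ => ?_
  rw [integral_finsetSum _ fun j _ => hint i j]
  exact Finset.sum_congr rfl fun j _ => (gram_eq r l (e i) (e j)).symm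

theorem abs_sum_gram_sub_le (hinj : Function.Injective e) (K : Finset (Fin N)) (hJK : J ⊆ K) :
    |∑ i ∈ K, ∑ j ∈ J, gram r l (e i) (e j) - J.card * r ^ 2| ≤ dev r l e := by
  classical
  have h1 : (J.card : ℝ) * r ^ 2 = ∑ i ∈ K, ∑ j ∈ J, if e i = e j then r ^ 2 else 0 := by
    rw [Finset.sum_comm]
    have : ∀ j ∈ J, (∑ i ∈ K, if e i = e j then r ^ 2 else 0) = r ^ 2 := by
      intro j hj
      have : ∀ i, (e i = e j) ↔ (i = j) := fun i => hinj.eq_iff
      simp only [this]
      rw [Finset.sum_ite_eq' K j, if_pos (hJK hj)]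
    rw [Finset.sum_congr rfl this, Finset.sum_const, nsmul_eq_mul]
  rw [h1, ← Finset.sum_sub_distrib]
  simp_rw [← Finset.sum_sub_distrib]
  calc |∑ i ∈ K, ∑ j ∈ J, (gram r l (e i) (e j) - if e i = e j then r ^ 2 else 0)|
      ≤ ∑ i ∈ K, ∑ j ∈ J, |gram r l (e i) (e j) - if e i = e j then r ^ 2 else 0| :=
        (Finset.abs_sum_le_sum_abs _ _).trans (Finset.sum_le_sum fun i _ =>
          Finset.abs_sum_le_sum_abs _ _)
    _ ≤ ∑ i ∈ K, ∑ j, |gram r l (e i) (e j) - if e i = e j then r ^ 2 else 0| :=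
        Finset.sum_le_sum fun i _ => Finset.sum_le_sum_of_subset_of_nonneg
          (Finset.subset_univ _) fun _ _ _ => abs_nonneg _
    _ ≤ dev r l e := Finset.sum_le_sum_of_subset_of_nonneg (Finset.subset_univ _)
          fun _ _ _ => Finset.sum_nonneg fun _ _ => abs_nonneg _

theorem tendsto_dev (h0 : 0 ≤ r) (h1 : r ≤ 1) (he : ∀ i j, e i + e j ≠ 0) (he0 : ∀ i, e i ≠ 0) :
    Tendsto (fun l => dev r l e) atTop (𝓝 0) := by
  have : (0 : ℝ) = ∑ _i : Fin N, ∑ _j : Fin N, (0 : ℝ) := by simp
  rw [this]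
  refine tendsto_finsetSum _ fun i _ => tendsto_finsetSum _ fun j _ => ?_
  have h := (tendsto_gram h0 h1 (he0 i) (he0 j) (he i j)).sub_const
    (if e i = e j then r ^ 2 else 0)
  rw [sub_self] at h
  simpa using h.abs

end gramsums

end Pool.Agent.Lib.MP_7d2bee_an
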