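import Pool.Agent.Lib.MP_7d2bee_an.Smooth
import Pool.Agent.Lib.MP_7d2bee_an.Classes

/-!
# Bivariate polynomials are spanned by ridge polynomials
-/

set_option autoImplicit false

namespace Pool.Agent.Lib.MP_7d2bee_an

open MeasureTheory Filter Topology Finset

/-- a function on the plane whose class lies in `Pol K` -/
def InPol (K : ℕ) (h : Plane → ℝ) : Prop := ∃ u ∈ Pol K, ∀ᵐ x ∂diskMeasure, u x = h x

theorem InPol.add {K : ℕ} {h h' : Plane → ℝ} (a : InPol K h) (b : InPol K h') :
    InPol K (fun x => h x + h' x) := by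
  obtain ⟨u, hu, hu'⟩ := a
  obtain ⟨v, hv, hv'⟩ := b
  refine ⟨u + v, Submodule.add_mem _ hu hv, ?_⟩
  filter_upwards [hu', hv', Lp.coeFn_add u v] with x h1 h2 h3
  rw [h3, Pi.add_apply, h1, h2]

theorem InPol.smul {K : ℕ} {h : Plane → ℝ} (a : InPol K h) (c : ℝ) :
    InPol K (fun x => c * h x) := by
  obtain ⟨u, hu, hu'⟩ := a
  refine ⟨c • u, Submodule.smul_mem _ _ hu, ?_⟩
  filter_upwards [hu', Lp.coeFn_smul c u] with x h1 h2
  rw [h2, Pi.smul_apply, h1, smul_eq_mul]

theorem InPol.zero (K : ℕ) : InPol K (fun _ => 0) := by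
  refine ⟨0, Submodule.zero_mem _, ?_⟩
  filter_upwards [Lp.coeFn_zero ℝ 2 diskMeasure] with x h
  rw [h]; rfl

theorem InPol.sum {K : ℕ} {ι : Type} (s : Finset ι) {h : ι → Plane → ℝ}
    (hh : ∀ i ∈ s, InPol K (h i)) : InPol K (fun x => ∑ i ∈ s, h i x) := by
  classical
  induction s using Finset.induction_on with
  | empty => simpa using InPol.zero K
  | insert i s hi ih =>
    simp only [Finset.sum_insert hi]
    exact (hh i (Finset.mem_insert_self _ _)).add
      (ih fun j hj => hh j (Finset.mem_insert_of_mem hj))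

theorem inPol_uF {K k : ℕ} (hk : k ≤ K) {e : Plane} (he : ‖e‖ = 1) : InPol K (uF k e) := by
  refine ⟨uL k e, uL_mem hk he, ?_⟩
  filter_upwards [(memLp_cont (continuous_uF k e)).coeFn_toLp] with x h
  rw [uL, h]

/-- the span of the first Chebyshev functions -/
def chV (k : ℕ) : Submodule ℝ (ℝ → ℝ) := Submodule.span ℝ {q | ∃ l ≤ k, q = chU l}

theorem mul_mem_chV {k : ℕ} {q : ℝ → ℝ} (hq : q ∈ chV k) : (fun t => t * q t) ∈ chV (k + 1) := by
  induction hq using Submodule.span_induction with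
  | mem q h =>
    obtain ⟨l, hl, rfl⟩ := h
    rcases l with _ | l
    · have : (fun t => t * chU 0 t) = (1 / 2 : ℝ) • chU 1 := by
        funext t; simp [chU_zero, chU_one']
      rw [this]
      exact Submodule.smul_mem _ _ (Submodule.subset_span ⟨1, by omega, rfl⟩)
    · have : (fun t => t * chU (l + 1) t) = (1 / 2 : ℝ) • (chU (l + 2) + chU l) := by
        funext t; simp only [Pi.smul_apply, Pi.add_apply, smul_eq_mul, chU_add_two]; ring
      rw [this]
      exact Submodule.smul_mem _ _ (Submodule.add_mem _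
        (Submodule.subset_span ⟨l + 2, by omega, rfl⟩)
        (Submodule.subset_span ⟨l, by omega, rfl⟩))
  | zero =>
    have : (fun t => t * (0 : ℝ → ℝ) t) = 0 := by funext t; simp
    rw [this]; exact Submodule.zero_mem _
  | add x y _ _ hx hy =>
    have : (fun t => t * (x + y) t) = (fun t => t * x t) + fun t => t * y t := by
      funext t; simp [mul_add]
    rw [this]; exact Submodule.add_mem _ hx hy
  | smul c x _ hx =>
    have : (fun t => t * (c • x) t) = c • fun t => t * x t := by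
      funext t; simp only [Pi.smul_apply, smul_eq_mul]; ring
    rw [this]; exact Submodule.smul_mem _ _ hx

theorem pow_mem_chV (k : ℕ) : (fun t : ℝ => t ^ k) ∈ chV k := by
  induction k with
  | zero =>
    have : (fun t : ℝ => t ^ 0) = chU 0 := by funext t; simp [chU_zero]
    rw [this]; exact Submodule.subset_span ⟨0, le_rfl, rfl⟩
  | succ k ih =>
    have : (fun t : ℝ => t ^ (k + 1)) = fun t => t * t ^ k := by funext t; ring
    rw [this]; exact mul_mem_chV ih

theorem inPol_chV {K k : ℕ} (hk : k ≤ K) {e : Plane} (he : ‖e‖ = 1) {q : ℝ → ℝ}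
    (hq : q ∈ chV k) : InPol K (fun x => q (inner ℝ x e)) := by
  induction hq using Submodule.span_induction with
  | mem q h =>
    obtain ⟨l, hl, rfl⟩ := h
    exact inPol_uF (hl.trans hk) he
  | zero => exact InPol.zero K
  | add x y _ _ hx hy => exact hx.add hy
  | smul c x _ hx => exact hx.smul c

theorem inPol_linear {K k : ℕ} (hk : k ≤ K) (t : ℝ) :
    InPol K (fun x => (x 0 + x 1 * t) ^ k) := by
  set v : Plane := !₂[1, t] with hv
  have hv0 : 0 < ‖v‖ := by
    rw [norm_pos_iff]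
    intro h
    have := congrArg (fun w : Plane => w 0) h
    simp [hv] at this
  have he : ‖‖v‖⁻¹ • v‖ = 1 := by
    rw [norm_smul, norm_inv, norm_norm, inv_mul_cancel₀ hv0.ne']
  have h1 := (inPol_chV hk he (pow_mem_chV k)).smul (‖v‖ ^ k)
  have h2 : (fun x : Plane => ‖v‖ ^ k * (inner ℝ x (‖v‖⁻¹ • v)) ^ k)
      = fun x : Plane => (x 0 + x 1 * t) ^ k := by
    funext x
    rw [inner_smul_right, ← mul_pow, ← mul_assoc, mul_inv_cancel₀ hv0.ne', one_mul]
    congr 1
    simp [hv, PiLp.inner_apply, Fin.sum_univ_two]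
    ring
  rwa [h2] at h1

open Polynomial in
theorem coeff_linear_pow (a b : ℝ) (k s : ℕ) :
    ((C a + C b * X : ℝ[X]) ^ k).coeff s = if s ≤ k then (k.choose s : ℝ) * b ^ s * a ^ (k - s)
      else 0 := by
  rw [add_comm, add_pow, finsetSum_coeff]
  have h1 : ∀ m ∈ range (k + 1), ((C b * X : ℝ[X]) ^ m * C a ^ (k - m) * (k.choose m : ℝ[X])).coeff s
      = if s = m then (k.choose m : ℝ) * b ^ m * a ^ (k - m) else 0 := by
    intro m _
    have : (C b * X : ℝ[X]) ^ m * C a ^ (k - m) * (k.choose m : ℝ[X])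
        = C ((k.choose m : ℝ) * b ^ m * a ^ (k - m)) * X ^ m := by
      rw [mul_pow, ← C_eq_natCast, ← C_pow, ← C_pow, C_mul, C_mul]; ring
    rw [this, coeff_C_mul_X_pow]
  rw [sum_congr rfl h1, Finset.sum_ite_eq]
  simp only [mem_range, Nat.lt_succ_iff]

open Polynomial in
theorem inPol_monomial {K k s : ℕ} (hk : k ≤ K) (hs : s ≤ k) :
    InPol K (fun x => x 1 ^ s * x 0 ^ (k - s)) := by
  set B : ℕ → ℝ[X] := fun i => Lagrange.basis (range (k + 1)) (fun i : ℕ => (i : ℝ)) i with hB
  have h1 : ∀ x : Plane, (k.choose s : ℝ) * (x 1 ^ s * x 0 ^ (k - s))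
      = ∑ i ∈ range (k + 1), (B i).coeff s * (x 0 + x 1 * (i : ℝ)) ^ k := by
    intro x
    set P : ℝ[X] := (C (x 0) + C (x 1) * X) ^ k with hP
    have hdeg : P.degree < (range (k + 1)).card := by
      rw [card_range]
      have h2 : (C (x 0) + C (x 1) * X : ℝ[X]).degree ≤ 1 := by
        refine (degree_add_le _ _).trans (max_le (degree_C_le.trans zero_le_one) ?_)
        exact degree_C_mul_X_le _
      have h3 : P.degree ≤ k := by
        rw [hP]
        refine (degree_pow_le _ k).trans ?_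
        calc k • (C (x 0) + C (x 1) * X : ℝ[X]).degree ≤ k • (1 : WithBot ℕ) :=
              nsmul_le_nsmul_right h2 k
          _ = k := by simp
      exact lt_of_le_of_lt h3 (by exact_mod_cast Nat.lt_succ_self k)
    have hinj : Set.InjOn (fun i : ℕ => (i : ℝ)) (range (k + 1) : Set ℕ) :=
      fun a _ b _ h => Nat.cast_injective h
    have h4 := congrArg (fun q : ℝ[X] => q.coeff s) (Lagrange.eq_interpolate hinj hdeg)
    simp only [Lagrange.interpolate_apply, finsetSum_coeff, coeff_C_mul] at h4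
    rw [hP, coeff_linear_pow, if_pos hs] at h4
    rw [← mul_assoc, h4]
    refine sum_congr rfl fun i _ => ?_
    rw [hB, mul_comm]
    simp
  have h2 : InPol K (fun x => ∑ i ∈ range (k + 1), (B i).coeff s * (x 0 + x 1 * (i : ℝ)) ^ k) :=
    InPol.sum _ fun i _ => (inPol_linear hk _).smul _
  have hc : (k.choose s : ℝ) ≠ 0 := by exact_mod_cast (Nat.choose_pos hs).ne'
  have h3 := h2.smul (k.choose s : ℝ)⁻¹
  simp_rw [← h1] at h3
  have h4 : (fun x : Plane => (k.choose s : ℝ)⁻¹ * ((k.choose s : ℝ) * (x 1 ^ s * x 0 ^ (k - s))))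
      = fun x : Plane => x 1 ^ s * x 0 ^ (k - s) := by
    funext x; rw [← mul_assoc, inv_mul_cancel₀ hc, one_mul]
  rwa [h4] at h3

theorem polySet_subset (K : ℕ) : polySet K ⊆ Pol K := by
  rintro u ⟨p, hp, hu⟩
  have h1 : InPol K (fun x => MvPolynomial.eval (fun i => x i) p) := by
    have h2 : (fun x : Plane => MvPolynomial.eval (fun i => x i) p)
        = fun x : Plane => ∑ d ∈ p.support, p.coeff d * (x 1 ^ (d 1) * x 0 ^ (d 0)) := by
      funext x
      rw [MvPolynomial.eval_eq']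
      refine sum_congr rfl fun d _ => ?_
      rw [Fin.prod_univ_two]; ring
    rw [h2]
    refine InPol.sum _ fun d hd => InPol.smul ?_ _
    have h3 := (MvPolynomial.le_totalDegree hd).trans hp
    rw [Finsupp.sum_fintype _ _ (fun _ => rfl), Fin.sum_univ_two] at h3
    have h4 := inPol_monomial (k := d 0 + d 1) (s := d 1) h3 (by omega)
    rwa [Nat.add_sub_cancel] at h4
  obtain ⟨v, hv, hv'⟩ := h1
  have : u = v := by
    refine Lp.ext ?_
    filter_upwards [hu, hv'] with x h2 h3
    rw [h2, h3]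
  rw [this]; exact hv

theorem zero_mem_polySet (K : ℕ) : (0 : L2D) ∈ polySet K := by
  refine ⟨0, by simp, ?_⟩
  filter_upwards [Lp.coeFn_zero ℝ 2 diskMeasure] with x h
  rw [h]; simp

theorem norm_sub_proj_le (K : ℕ) (f : L2D) :
    ‖f - (Pol K).starProjection f‖ ≤ polyDist K f := by
  rw [polyDist, Metric.le_infDist ⟨0, zero_mem_polySet K⟩]
  intro p hp
  have hp' := polySet_subset K hp
  set P := (Pol K).starProjection
  have h1 : inner ℝ (f - P f) (P f - p) = 0 :=
    Submodule.starProjection_inner_eq_zero _ _ (Submodule.sub_mem _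
      (Submodule.starProjection_apply_mem _ _) hp')
  have h2 : ‖f - p‖ ^ 2 = ‖f - P f‖ ^ 2 + ‖P f - p‖ ^ 2 := by
    have : f - p = (f - P f) + (P f - p) := by abel
    rw [this, @norm_add_sq_real, h1]; ring
  rw [dist_eq_norm]
  have h3 : ‖f - P f‖ ^ 2 ≤ ‖f - p‖ ^ 2 := by rw [h2]; nlinarith [sq_nonneg ‖P f - p‖]
  exact (sq_le_sq₀ (norm_nonneg _) (norm_nonneg _)).1 h3

/-- **Main inequality.** -/
theorem greedy_le_polyDist {f φ : ℕ → L2D} (h : IsRealization f φ) (K m : ℕ) :
    ‖f m‖ ^ 2 ≤ polyDist K (f 0) ^ 2 + (1 - 1 / ((K : ℝ) + 1)) ^ m * ‖f 0‖ ^ 2 := by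
  refine (greedy_le h K m).trans (add_le_add_left ?_ _)
  exact pow_le_pow_left₀ (norm_nonneg _) (norm_sub_proj_le K (f 0)) 2

end Pool.Agent.Lib.MP_7d2bee_an
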