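import Pool.Agent.Lib.MP_7d2bee_an.Gram

/-!
# A two-sided power sum inequality (rank and trace of a Toeplitz matrix)
-/

set_option autoImplicit false

namespace Pool.Agent.Lib.MP_7d2bee_an

open Finset Complex

section

variable {m : ℕ} (b α : Fin m → ℝ)

/-- the exponential sums -/
noncomputable def pw (t : ℂ) : ℂ := ∑ i, (b i : ℂ) * exp (t * α i * I)

/-- the moment vectors -/
noncomputable def zeta (n : ℕ) (a : ℝ) : EuclideanSpace ℂ (Fin n) :=
  WithLp.toLp 2 fun j => exp (2 * (j : ℂ) * a * I)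

theorem zeta_apply (n : ℕ) (a : ℝ) (j : Fin n) : zeta n a j = exp (2 * (j : ℂ) * a * I) := rfl

theorem conj_exp (x y : ℝ) : (starRingEnd ℂ) (exp ((x : ℂ) * y * I)) = exp (-((x : ℂ) * y * I)) := by
  rw [← exp_conj]
  congr 1
  simp

theorem inner_zeta (n : ℕ) (x y : ℝ) :
    inner ℂ (zeta n x) (zeta n y) = ∑ j : Fin n, exp (2 * (j : ℂ) * (y - x) * I) := by
  rw [PiLp.inner_apply]
  refine sum_congr rfl fun j _ => ?_
  rw [zeta_apply, zeta_apply, RCLike.inner_apply]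
  have h := conj_exp (2 * (j : ℝ)) x
  push_cast at h
  rw [h, ← exp_add]
  congr 1
  ring

theorem norm_sq_zeta (n : ℕ) (x : ℝ) : inner ℂ (zeta n x) (zeta n x) = (n : ℂ) := by
  rw [inner_zeta]; simp

/-- rank and trace -/
theorem rank_trace (n : ℕ) :
    ((n : ℝ) * ∑ i, b i) ^ 2 ≤ m * ∑ i, ∑ i', b i * b i' *
      ‖inner ℂ (zeta n (α i)) (zeta n (α i'))‖ ^ 2 := by
  classical
  set V : Submodule ℂ (EuclideanSpace ℂ (Fin n)) :=
    Submodule.span ℂ (Set.range fun i => zeta n (α i)) with hV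
  have hfin : Module.finrank ℂ V ≤ m := by
    have := finrank_range_le_card (R := ℂ) (fun i => zeta n (α i))
    rwa [Fintype.card_fin] at this
  set ζ : Fin m → V := fun i => ⟨zeta n (α i), Submodule.subset_span ⟨i, rfl⟩⟩ with hζ
  set e := stdOrthonormalBasis ℂ V with he
  let e' : Fin (Module.finrank ℂ V) → EuclideanSpace ℂ (Fin n) := fun l => (e l : V)
  have pars : ∀ i i', ∑ l, inner ℂ (zeta n (α i)) (e' l) * inner ℂ (e' l) (zeta n (α i'))
      = inner ℂ (zeta n (α i)) (zeta n (α i')) := fun i i' => e.sum_inner_mul_inner (ζ i) (ζ i')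
  have hnorm : ∀ l, ‖e' l‖ = 1 := fun l => e.orthonormal.1 l
  let t : Fin (Module.finrank ℂ V) → EuclideanSpace ℂ (Fin n) := fun l =>
    ∑ i, ((b i : ℂ) * inner ℂ (zeta n (α i)) (e' l)) • zeta n (α i)
  -- the trace
  have h1 : (((n : ℝ) * ∑ i, b i : ℝ) : ℂ) = ∑ l, inner ℂ (e' l) (t l) := by
    have a1 : ∀ l, inner ℂ (e' l) (t l) = ∑ i, (b i : ℂ) * (inner ℂ (zeta n (α i)) (e' l) *
        inner ℂ (e' l) (zeta n (α i))) := by
      intro l
      change inner ℂ (e' l) (∑ i, ((b i : ℂ) * inner ℂ (zeta n (α i)) (e' l)) • zeta n (α i)) = _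
      rw [inner_sum]
      refine sum_congr rfl fun i _ => ?_
      rw [inner_smul_right]; ring
    simp_rw [a1]
    rw [sum_comm]
    simp_rw [← mul_sum]
    have a2 : ∀ i, ∑ l, inner ℂ (zeta n (α i)) (e' l) * inner ℂ (e' l) (zeta n (α i))
        = (n : ℂ) := by
      intro i
      rw [pars, norm_sq_zeta]
    simp_rw [a2]
    rw [← sum_mul]
    push_cast
    ring
  -- the Hilbert-Schmidt norm
  have h2 : ((∑ l, ‖t l‖ ^ 2 : ℝ) : ℂ) = ((∑ i, ∑ i', b i * b i' *
      ‖inner ℂ (zeta n (α i)) (zeta n (α i'))‖ ^ 2 : ℝ) : ℂ) := by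
    have a1 : ∀ l, ((‖t l‖ : ℂ) ^ 2) = ∑ i, ∑ i', (b i : ℂ) * b i' *
        (inner ℂ (zeta n (α i)) (zeta n (α i')) *
          (inner ℂ (zeta n (α i')) (e' l) * inner ℂ (e' l) (zeta n (α i)))) := by
      intro l
      have : ((‖t l‖ : ℂ) ^ 2) = inner ℂ (t l) (t l) := by
        rw [inner_self_eq_norm_sq_to_K]; rfl
      rw [this]
      change inner ℂ (∑ i, ((b i : ℂ) * inner ℂ (zeta n (α i)) (e' l)) • zeta n (α i))
        (∑ i, ((b i : ℂ) * inner ℂ (zeta n (α i)) (e' l)) • zeta n (α i)) = _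
      rw [sum_inner]
      refine sum_congr rfl fun i _ => ?_
      rw [inner_sum]
      refine sum_congr rfl fun i' _ => ?_
      rw [inner_smul_left, inner_smul_right, map_mul, conj_ofReal, inner_conj_symm]
      ring
    push_cast
    simp_rw [a1]
    rw [sum_comm]
    refine sum_congr rfl fun i _ => ?_
    rw [sum_comm]
    refine sum_congr rfl fun i' _ => ?_
    rw [← mul_sum, ← mul_sum, pars]
    congr 1
    rw [← inner_conj_symm (zeta n (α i')) (zeta n (α i)), Complex.mul_conj,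
      Complex.normSq_eq_norm_sq]
    push_cast
    rfl
  have h2' : ∑ l, ‖t l‖ ^ 2 = ∑ i, ∑ i', b i * b i' *
      ‖inner ℂ (zeta n (α i)) (zeta n (α i'))‖ ^ 2 := by exact_mod_cast h2
  have h3 : |(n : ℝ) * ∑ i, b i| ≤ ∑ l, ‖t l‖ := by
    have a1 : |(n : ℝ) * ∑ i, b i| = ‖(((n : ℝ) * ∑ i, b i : ℝ) : ℂ)‖ := by
      rw [Complex.norm_real, Real.norm_eq_abs]
    rw [a1, h1]
    refine (norm_sum_le _ _).trans (sum_le_sum fun l _ => ?_)
    refine (norm_inner_le_norm _ _).trans ?_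
    rw [hnorm l, one_mul]
  have h4 : (∑ l, ‖t l‖) ^ 2 ≤ m * ∑ l, ‖t l‖ ^ 2 := by
    have a1 := sq_sum_le_card_mul_sum_sq (s := (univ : Finset (Fin (Module.finrank ℂ V))))
      (f := fun l => ‖t l‖)
    rw [card_univ, Fintype.card_fin] at a1
    refine a1.trans (mul_le_mul_of_nonneg_right (by exact_mod_cast hfin) ?_)
    exact sum_nonneg fun l _ => by positivity
  rw [← h2', ← sq_abs]
  exact (pow_le_pow_left₀ (abs_nonneg _) h3 2).trans h4

theorem norm_sq_pw (x : ℝ) : ((‖pw b α x‖ ^ 2 : ℝ) : ℂ)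
    = ∑ i, ∑ i', (b i : ℂ) * b i' * exp (x * (α i - α i') * I) := by
  have h1 : ((‖pw b α x‖ ^ 2 : ℝ) : ℂ) = pw b α x * (starRingEnd ℂ) (pw b α x) := by
    rw [Complex.mul_conj, Complex.normSq_eq_norm_sq]
  rw [h1, pw, map_sum, sum_mul_sum]
  refine sum_congr rfl fun i _ => sum_congr rfl fun i' _ => ?_
  rw [map_mul, conj_ofReal, conj_exp]
  have : exp ((x : ℂ) * (α i - α i') * I) = exp (x * α i * I) * exp (-(x * α i' * I)) := by
    rw [← exp_add]; congr 1; ring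
  rw [this]
  ring

/-- the Dirichlet form -/
theorem dirichlet (k : ℕ) : ∑ i, ∑ i', b i * b i' * chU k (Real.cos (α i - α i'))
    = ∑ s ∈ range (k + 1), ‖pw b α ((k : ℝ) - 2 * s : ℝ)‖ ^ 2 := by
  have key : ((∑ i, ∑ i', b i * b i' * chU k (Real.cos (α i - α i')) : ℝ) : ℂ)
      = ((∑ s ∈ range (k + 1), ‖pw b α ((k : ℝ) - 2 * s : ℝ)‖ ^ 2 : ℝ) : ℂ) := by
    rw [ofReal_sum, ofReal_sum]
    simp_rw [norm_sq_pw]
    rw [sum_comm]
    refine sum_congr rfl fun i _ => ?_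
    rw [ofReal_sum, sum_comm]
    refine sum_congr rfl fun i' _ => ?_
    rw [ofReal_mul, chU_exp, mul_sum]
    refine sum_congr rfl fun s _ => ?_
    push_cast
    rfl
  exact_mod_cast key

theorem fejer (n : ℕ) : ∑ i, ∑ i', b i * b i' * ‖inner ℂ (zeta n (α i)) (zeta n (α i'))‖ ^ 2
    = ∑ p ∈ range n, ∑ p' ∈ range n, ‖pw b α ((2 * ((p' : ℝ) - p)) : ℝ)‖ ^ 2 := by
  have key : ((∑ i, ∑ i', b i * b i' *
      ‖inner ℂ (zeta n (α i)) (zeta n (α i'))‖ ^ 2 : ℝ) : ℂ)
      = ((∑ p ∈ range n, ∑ p' ∈ range n, ‖pw b α ((2 * ((p' : ℝ) - p)) : ℝ)‖ ^ 2 : ℝ) : ℂ) := by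
    rw [ofReal_sum, ofReal_sum]
    simp_rw [ofReal_sum, norm_sq_pw]
    have a1 : ∀ i i', ((b i * b i' * ‖inner ℂ (zeta n (α i)) (zeta n (α i'))‖ ^ 2 : ℝ) : ℂ)
        = ∑ p ∈ range n, ∑ p' ∈ range n,
          (b i : ℂ) * b i' * exp (((2 * ((p' : ℝ) - p) : ℝ) : ℂ) * (α i - α i') * I) := by
      intro i i'
      have a2 : ((‖inner ℂ (zeta n (α i)) (zeta n (α i'))‖ ^ 2 : ℝ) : ℂ)
          = inner ℂ (zeta n (α i)) (zeta n (α i')) * inner ℂ (zeta n (α i')) (zeta n (α i)) := by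
        rw [← inner_conj_symm (zeta n (α i')) (zeta n (α i)), Complex.mul_conj,
          Complex.normSq_eq_norm_sq]
      rw [ofReal_mul, a2, inner_zeta, inner_zeta, Fin.sum_univ_eq_sum_range
        (fun j => exp (2 * (j : ℂ) * (α i' - α i) * I)), Fin.sum_univ_eq_sum_range
        (fun j => exp (2 * (j : ℂ) * (α i - α i') * I)), sum_mul_sum, mul_sum]
      refine sum_congr rfl fun p _ => ?_
      rw [mul_sum]
      refine sum_congr rfl fun p' _ => ?_
      rw [← exp_add]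
      push_cast
      congr 2
      ring
    simp_rw [a1]
    calc ∑ i, ∑ i', ∑ p ∈ range n, ∑ p' ∈ range n, (b i : ℂ) * b i' *
          exp (((2 * ((p' : ℝ) - p) : ℝ) : ℂ) * (α i - α i') * I)
        = ∑ i, ∑ p ∈ range n, ∑ p' ∈ range n, ∑ i', (b i : ℂ) * b i' *
          exp (((2 * ((p' : ℝ) - p) : ℝ) : ℂ) * (α i - α i') * I) := by
          refine sum_congr rfl fun i _ => ?_
          rw [sum_comm]
          refine sum_congr rfl fun p _ => ?_
          rw [sum_comm]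
      _ = _ := by
          rw [sum_comm]
          refine sum_congr rfl fun p _ => ?_
          rw [sum_comm]
  exact_mod_cast key

/-- **Two-sided power sum inequality.** -/
theorem power_sum {n k : ℕ} (hn : 1 ≤ n) (hk : k + 2 = 2 * n) :
    (n : ℝ) * (∑ i, b i) ^ 2 ≤ m * ∑ i, ∑ i', b i * b i' * chU k (Real.cos (α i - α i')) := by
  have h1 := rank_trace b α n
  rw [fejer, mul_pow] at h1
  rw [dirichlet]
  have h2 : ∑ p ∈ range n, ∑ p' ∈ range n, ‖pw b α ((2 * ((p' : ℝ) - p)) : ℝ)‖ ^ 2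
      ≤ n * ∑ s ∈ range (k + 1), ‖pw b α ((k : ℝ) - 2 * s : ℝ)‖ ^ 2 := by
    calc ∑ p ∈ range n, ∑ p' ∈ range n, ‖pw b α ((2 * ((p' : ℝ) - p)) : ℝ)‖ ^ 2
        ≤ ∑ _p ∈ range n, ∑ s ∈ range (k + 1), ‖pw b α ((k : ℝ) - 2 * s : ℝ)‖ ^ 2 := by
          refine sum_le_sum fun p hp => ?_
          have hp' := mem_range.1 hp
          have e1 : ∑ p' ∈ range n, ‖pw b α ((2 * ((p' : ℝ) - p)) : ℝ)‖ ^ 2
              = ∑ p' ∈ range n, (fun s : ℕ => ‖pw b α ((k : ℝ) - 2 * s : ℝ)‖ ^ 2)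
                (n - 1 + p - p') := by
            refine sum_congr rfl fun p' hp'' => ?_
            have hp3 := mem_range.1 hp''
            simp only
            have : ((n - 1 + p - p' : ℕ) : ℝ) = (n : ℝ) - 1 + p - p' := by
              rw [Nat.cast_sub (by omega), Nat.cast_add, Nat.cast_sub hn]; push_cast; ring
            rw [this]
            have hk' : (k : ℝ) = 2 * n - 2 := by
              have : ((k + 2 : ℕ) : ℝ) = ((2 * n : ℕ) : ℝ) := by rw [hk]
              push_cast at this; linarith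
            rw [hk']
            congr 3
            push_cast
            ring
          rw [e1]
          rw [← sum_image (s := range n) (g := fun p' => n - 1 + p - p')
            (f := fun s : ℕ => ‖pw b α ((k : ℝ) - 2 * s : ℝ)‖ ^ 2)]
          · refine sum_le_sum_of_subset_of_nonneg ?_ fun _ _ _ => by positivity
            intro s hs
            obtain ⟨p', hp', rfl⟩ := mem_image.1 hs
            have := mem_range.1 hp'
            exact mem_range.2 (by omega)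
          · intro x hx y hy hxy
            have := mem_range.1 (mem_coe.1 hx)
            have := mem_range.1 (mem_coe.1 hy)
            simp only at hxy
            omega
      _ = n * ∑ s ∈ range (k + 1), ‖pw b α ((k : ℝ) - 2 * s : ℝ)‖ ^ 2 := by
          rw [sum_const, card_range, nsmul_eq_mul]
  have hn0 : (0 : ℝ) < n := by exact_mod_cast hn
  have h3 : (n : ℝ) ^ 2 * (∑ i, b i) ^ 2 ≤ m * (n * ∑ s ∈ range (k + 1),
      ‖pw b α ((k : ℝ) - 2 * s : ℝ)‖ ^ 2) :=
    h1.trans (mul_le_mul_of_nonneg_left h2 (by positivity))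
  have h4 : (n : ℝ) * ((n : ℝ) * (∑ i, b i) ^ 2) ≤ n * (m * ∑ s ∈ range (k + 1),
      ‖pw b α ((k : ℝ) - 2 * s : ℝ)‖ ^ 2) := by nlinarith
  exact le_of_mul_le_mul_left h4 hn0

end

end Pool.Agent.Lib.MP_7d2bee_an
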