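import Pool.Agent.Lib.MP_7d2bee_an.Rate
import Pool.Agent.Lib.MP_7d2bee_an.Turan

/-!
# Lower bounds: averages of Chebyshev ridge polynomials over all directions
-/

set_option autoImplicit false

namespace Pool.Agent.Lib.MP_7d2bee_an

open MeasureTheory Filter Topology Finset

theorem NN_pos (k : ℕ) : 0 < NN k := by
  rcases eq_or_lt_of_le (NN_nonneg k) with h | h
  swap
  · exact h
  exfalso
  have h0 : uL k e0 = 0 := uL_eq_zero h.symm norm_e0
  have h1 : ∀ᵐ x ∂diskMeasure, uF k e0 x = 0 := by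
    have h2 : ∀ᵐ x ∂diskMeasure, (uL k e0) x = 0 := by
      rw [h0]
      filter_upwards [Lp.coeFn_zero ℝ 2 diskMeasure] with x hx
      rw [hx]; rfl
    filter_upwards [h2, (memLp_cont (continuous_uF k e0)).coeFn_toLp] with x a b
    rw [← b]; exact a
  rw [ae_disk_iff] at h1
  set O : Set Plane := {x | ‖x‖ < 1} ∩ {x | 0 < uF k e0 x} with hO
  have hOopen : IsOpen O := (isOpen_lt continuous_norm continuous_const).inter
    (isOpen_lt continuous_const (continuous_uF k e0))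
  have hOne : O.Nonempty := by
    have hpos : 0 < chU k 1 := by rw [chU_one]; positivity
    have h2 : ∀ᶠ t in 𝓝 (1 : ℝ), 0 < chU k t :=
      (continuous_chU k).continuousAt.eventually (lt_mem_nhds hpos)
    have h3 : ∀ᶠ t in 𝓝[<] (1 : ℝ), 0 < chU k t := h2.filter_mono nhdsWithin_le_nhds
    have h4 : ∀ᶠ t in 𝓝[<] (1 : ℝ), t ∈ Set.Ioo (0 : ℝ) 1 := Ioo_mem_nhdsLT one_pos
    obtain ⟨t, ht1, ht2⟩ := (h3.and h4).exists
    refine ⟨t • e0, ?_, ?_⟩
    · change ‖t • e0‖ < 1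
      rw [norm_smul, norm_e0, mul_one, Real.norm_of_nonneg ht2.1.le]
      exact ht2.2
    · change 0 < uF k e0 (t • e0)
      rw [uF, inner_smul_left, real_inner_self_eq_norm_sq, norm_e0]
      simpa using ht1
  have h5 := hOopen.measure_pos volume hOne
  have h6 : volume O = 0 := by
    refine measure_mono_null ?_ (ae_iff.1 h1)
    rintro x ⟨hx1, hx2⟩ h7
    have := h7 (mem_closedBall_zero_iff.2 (le_of_lt hx1))
    exact (ne_of_gt hx2) this
  exact (ne_of_gt h5) h6

/-- normalised Chebyshev ridge polynomials -/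
noncomputable def wL (k : ℕ) (e : Plane) : L2D := (√(NN k))⁻¹ • uL k e

theorem inner_wL (k : ℕ) {e e' : Plane} (he : ‖e‖ = 1) (he' : ‖e'‖ = 1) :
    inner ℝ (wL k e) (wL k e') = lam k (inner ℝ e e') := by
  have h := NN_pos k
  have h2 : (√(NN k))⁻¹ * (√(NN k))⁻¹ * NN k = 1 := by
    rw [← mul_inv, Real.mul_self_sqrt h.le, inv_mul_cancel₀ h.ne']
  rw [wL, wL, inner_smul_left, inner_smul_right, inner_uL_eq k he he', conj_trivial]
  linear_combination lam k (inner ℝ e e') * h2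

theorem norm_wL (k : ℕ) {e : Plane} (he : ‖e‖ = 1) : ‖wL k e‖ = 1 := by
  have h1 : ‖wL k e‖ ^ 2 = 1 := by
    rw [← real_inner_self_eq_norm_sq, inner_wL k he he, real_inner_self_eq_norm_sq, he, one_pow,
      lam_one]
  have := norm_nonneg (wL k e)
  nlinarith

theorem ridgeIn_wL (k : ℕ) (e : Plane) : RidgeIn e (wL k e) := (ridgeIn_uL k e).smul _

theorem RidgeIn.isRidge {e : Plane} (he : ‖e‖ = 1) {u : L2D} (h : RidgeIn e u) : IsRidge u := by
  obtain ⟨g, hg⟩ := h
  exact ⟨g, e, he, hg⟩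

/-- the average over the directions -/
noncomputable def avg (k : ℕ) : L2D := ((k : ℝ) + 1)⁻¹ • ∑ j ∈ range (k + 1), wL k (dd k j)

theorem avg_mem (k : ℕ) : avg k ∈ classA1 := by
  rw [avg, smul_sum]
  refine subset_closure ((convex_convexHull ℝ _).sum_mem (fun j _ => by positivity) ?_
    fun j _ => subset_convexHull ℝ _ (Or.inl ⟨(ridgeIn_wL k _).isRidge (norm_dd k j),
      norm_wL k (norm_dd k j)⟩))
  rw [sum_const, card_range, nsmul_eq_mul]
  push_cast
  exact mul_inv_cancel₀ (by positivity)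

open Complex in
theorem sum_chU_even {k n : ℕ} (hk : k + 2 = 2 * n) (β : ℝ) :
    ∑ j ∈ range (k + 1), chU k (Real.cos (ang k j - β)) = k + 1 := by
  have hn : 1 ≤ n := by omega
  have key : ((∑ j ∈ range (k + 1), chU k (Real.cos (ang k j - β)) : ℝ) : ℂ)
      = ((((k : ℝ) + 1 : ℝ)) : ℂ) := by
    rw [ofReal_sum]
    simp_rw [chU_exp]
    rw [sum_comm, sum_eq_single (n - 1)]
    · have h1 : ∀ j ∈ range (k + 1),
          exp (((k : ℂ) - 2 * ((n - 1 : ℕ) : ℂ)) * ((ang k j - β : ℝ) : ℂ) * I) = 1 := by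
        intro j _
        have h2 : (k : ℂ) - 2 * ((n - 1 : ℕ) : ℂ) = 0 := by
          have h3 : k = 2 * (n - 1) := by omega
          have h4 : (k : ℂ) = ((2 * (n - 1) : ℕ) : ℂ) := by exact_mod_cast congrArg Nat.cast h3
          rw [h4]; push_cast; ring
        rw [h2]; simp
      rw [sum_congr rfl h1]
      simp
    · intro s hs hne
      have hs' := mem_range.1 hs
      have h2 : ∀ j ∈ range (k + 1),
          exp (((k : ℂ) - 2 * s) * ((ang k j - β : ℝ) : ℂ) * I)
          = exp (-(((k : ℂ) - 2 * s) * β * I)) *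
            exp ((2 * ((n - 1 : ℕ) : ℂ) - 2 * s) * (Real.pi * j / (k + 1)) * I) := by
        intro j _
        have h3 : k = 2 * (n - 1) := by omega
        have h4 : (k : ℂ) = 2 * ((n - 1 : ℕ) : ℂ) := by exact_mod_cast congrArg Nat.cast h3
        rw [← exp_add]
        congr 1
        rw [ang]
        push_cast
        rw [← h4]
        ring
      rw [sum_congr rfl h2, ← mul_sum, sum_exp_zero (by omega) (by omega) (Ne.symm hne), mul_zero]
    · intro h
      exact absurd (mem_range.2 (by omega)) h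
  exact_mod_cast key

theorem inner_avg {k n : ℕ} (hk : k + 2 = 2 * n) {e : Plane} (he : ‖e‖ = 1) :
    inner ℝ (avg k) (wL k e) = ((k : ℝ) + 1)⁻¹ := by
  obtain ⟨β, rfl⟩ := exists_dir he
  rw [avg, inner_smul_left, sum_inner, conj_trivial]
  have h1 : ∀ j ∈ range (k + 1), inner ℝ (wL k (dd k j)) (wL k (dir β))
      = chU k (Real.cos (ang k j - β)) / (k + 1) := by
    intro j _
    rw [inner_wL k (norm_dd k j) he, dd, inner_dir, lam]
  rw [sum_congr rfl h1, ← sum_div, sum_chU_even hk, div_self (by positivity), mul_one]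

theorem norm_sq_avg {k n : ℕ} (hk : k + 2 = 2 * n) : ‖avg k‖ ^ 2 = ((k : ℝ) + 1)⁻¹ := by
  rw [← real_inner_self_eq_norm_sq]
  conv_lhs =>
    arg 3
    rw [avg]
  rw [inner_smul_right, inner_sum]
  have h1 : ∀ j ∈ range (k + 1), inner ℝ (avg k) (wL k (dd k j)) = ((k : ℝ) + 1)⁻¹ :=
    fun j _ => inner_avg hk (norm_dd k j)
  rw [sum_congr rfl h1, sum_const, card_range, nsmul_eq_mul]
  push_cast
  field_simp

/-- the span of the Chebyshev ridge polynomials of degree `k` -/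
noncomputable def Wk (k : ℕ) : Submodule ℝ L2D := Submodule.span ℝ {u | ∃ e, ‖e‖ = 1 ∧ u = wL k e}

theorem inner_of_mem_Wk {k : ℕ} {h : L2D} (hh : h ∈ Wk k) {v : L2D} {e : Plane} (he : ‖e‖ = 1)
    (hv : RidgeIn e v) : inner ℝ v h = inner ℝ v (wL k e) * inner ℝ (wL k e) h := by
  induction hh using Submodule.span_induction with
  | mem x hx =>
    obtain ⟨f, hf, rfl⟩ := hx
    rw [inner_wL k he hf]
    have := ridge_key he hf hv k
    rw [wL, wL, inner_smul_right, inner_smul_right, this]; ring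
  | zero => rw [inner_zero_right, inner_zero_right, mul_zero]
  | add x y _ _ hx hy => rw [inner_add_right, inner_add_right, hx, hy]; ring
  | smul c x _ hx => rw [inner_smul_right, inner_smul_right, hx]; ring

theorem avg_mem_Wk (k : ℕ) : avg k ∈ Wk k :=
  Submodule.smul_mem _ _ (Submodule.sum_mem _ fun j _ =>
    Submodule.subset_span ⟨dd k j, norm_dd k j, rfl⟩)

/-- the key inequality -/
theorem inner_avg_sq_le {m k n : ℕ} (hk : k + 2 = 2 * n) {d : Fin m → Plane}
    (hd : ∀ i, ‖d i‖ = 1) (b : Fin m → ℝ) :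
    (n : ℝ) * inner ℝ (avg k) (∑ i, b i • wL k (d i)) ^ 2
      ≤ m * (((k : ℝ) + 1)⁻¹ * ‖∑ i, b i • wL k (d i)‖ ^ 2) := by
  have hn : 1 ≤ n := by omega
  choose α hα using fun i => exists_dir (hd i)
  have h1 : inner ℝ (avg k) (∑ i, b i • wL k (d i)) = ((k : ℝ) + 1)⁻¹ * ∑ i, b i := by
    rw [inner_sum, mul_sum]
    refine sum_congr rfl fun i _ => ?_
    rw [inner_smul_right, inner_avg hk (hd i)]; ring
  have h2 : ‖∑ i, b i • wL k (d i)‖ ^ 2
      = ((k : ℝ) + 1)⁻¹ * ∑ i, ∑ i', b i * b i' * chU k (Real.cos (α i - α i')) := by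
    rw [← real_inner_self_eq_norm_sq, sum_inner, mul_sum]
    refine sum_congr rfl fun i _ => ?_
    rw [inner_sum, mul_sum]
    refine sum_congr rfl fun i' _ => ?_
    rw [inner_smul_left, inner_smul_right, inner_wL k (hd i) (hd i'), hα i, hα i', inner_dir,
      lam, conj_trivial]
    ring
  have h3 := power_sum b α hn hk
  rw [h1, h2, mul_pow]
  have hk0 : 0 ≤ (((k : ℝ) + 1)⁻¹) ^ 2 := by positivity
  calc (n : ℝ) * ((((k : ℝ) + 1)⁻¹) ^ 2 * (∑ i, b i) ^ 2)
      = (((k : ℝ) + 1)⁻¹) ^ 2 * (n * (∑ i, b i) ^ 2) := by ring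
    _ ≤ (((k : ℝ) + 1)⁻¹) ^ 2 * (m * ∑ i, ∑ i', b i * b i' * chU k (Real.cos (α i - α i'))) :=
        mul_le_mul_of_nonneg_left h3 hk0
    _ = _ := by ring

/-- **Distance of the average to sums of `m` ridge functions.** -/
theorem dist_avg {m k n : ℕ} (hk : k + 2 = 2 * n) {u : Fin m → L2D} (hu : ∀ i, IsRidge (u i)) :
    (1 - (m : ℝ) / n) * ((k : ℝ) + 1)⁻¹ ≤ ‖avg k - ∑ i, u i‖ ^ 2 := by
  have hn : 1 ≤ n := by omega
  have hn0 : (0 : ℝ) < n := by exact_mod_cast hn
  choose g d hd hg using hu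
  have hR : ∀ i, RidgeIn (d i) (u i) := fun i => ⟨g i, hg i⟩
  set Y : Submodule ℝ L2D := Submodule.span ℝ (Set.range fun i => wL k (d i)) with hY
  have : FiniteDimensional ℝ Y := FiniteDimensional.span_of_finite ℝ (Set.finite_range _)
  set p := Y.starProjection (avg k) with hp
  have hpY : p ∈ Y := Submodule.starProjection_apply_mem _ _
  set h := avg k - p with hh
  have hhY : ∀ y ∈ Y, inner ℝ h y = 0 := fun y hy =>
    Submodule.starProjection_inner_eq_zero _ _ hy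
  have hYW : Y ≤ Wk k := by
    rw [hY, Submodule.span_le]
    rintro _ ⟨i, rfl⟩
    exact Submodule.subset_span ⟨d i, hd i, rfl⟩
  have hhW : h ∈ Wk k := Submodule.sub_mem _ (avg_mem_Wk k) (hYW hpY)
  have h0 : ∀ i, inner ℝ (u i) h = 0 := by
    intro i
    rw [inner_of_mem_Wk hhW (hd i) (hR i)]
    have := hhY (wL k (d i)) (Submodule.subset_span ⟨i, rfl⟩)
    rw [real_inner_comm] at this
    rw [this, mul_zero]
  have h00 : inner ℝ (∑ i, u i) h = 0 := by
    rw [sum_inner]; exact sum_eq_zero fun i _ => h0 i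
  have h1 : inner ℝ (avg k - ∑ i, u i) h = ‖h‖ ^ 2 := by
    rw [inner_sub_left, h00, sub_zero, ← real_inner_self_eq_norm_sq]
    have h2 : inner ℝ h h = inner ℝ (avg k) h - inner ℝ p h := by
      conv_lhs =>
        arg 2
        rw [hh]
      rw [inner_sub_left]
    have h3 := hhY p hpY
    rw [real_inner_comm] at h3
    rw [h2, h3, sub_zero]
  have h2 : ‖h‖ ≤ ‖avg k - ∑ i, u i‖ := by
    have h3 := real_inner_le_norm (avg k - ∑ i, u i) h
    rw [h1, sq] at h3
    rcases eq_or_lt_of_le (norm_nonneg h) with h4 | h4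
    · rw [← h4]; exact norm_nonneg _
    · exact le_of_mul_le_mul_right h3 h4
  have h3 : ‖p‖ ^ 2 = inner ℝ (avg k) p := by
    rw [← real_inner_self_eq_norm_sq]
    have := hhY p hpY
    rw [hh, inner_sub_left, sub_eq_zero] at this
    exact this.symm
  have h4 : ‖h‖ ^ 2 = ‖avg k‖ ^ 2 - ‖p‖ ^ 2 := by
    rw [hh, @norm_sub_sq_real, ← h3]; ring
  obtain ⟨b, hb⟩ := (Submodule.mem_span_range_iff_exists_fun ℝ).1 hpY
  have h5 := inner_avg_sq_le hk hd b
  rw [hb, ← h3] at h5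
  have h6 : ‖p‖ ^ 2 ≤ (m : ℝ) / n * ((k : ℝ) + 1)⁻¹ := by
    rcases eq_or_lt_of_le (sq_nonneg ‖p‖) with h7 | h7
    · rw [← h7]; positivity
    · have h8 : (n : ℝ) * ‖p‖ ^ 2 ≤ m * ((k : ℝ) + 1)⁻¹ := by
        have h9 : ((n : ℝ) * ‖p‖ ^ 2) * ‖p‖ ^ 2 ≤ (m * ((k : ℝ) + 1)⁻¹) * ‖p‖ ^ 2 := by
          calc ((n : ℝ) * ‖p‖ ^ 2) * ‖p‖ ^ 2 = n * (‖p‖ ^ 2) ^ 2 := by ring
            _ ≤ _ := h5
            _ = _ := by ring
        exact le_of_mul_le_mul_right h9 h7
      rw [div_mul_eq_mul_div, le_div_iff₀ hn0, mul_comm]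
      exact h8
  rw [norm_sq_avg hk] at h4
  have h7 := pow_le_pow_left₀ (norm_nonneg h) h2 2
  rw [h4] at h7
  linarith

end Pool.Agent.Lib.MP_7d2bee_an
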