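import Pool.Agent.Lib.MP_7d2bee_an.Mono

/-!
# The rate of the pure greedy algorithm on classes of smooth functions
-/

set_option autoImplicit false

namespace Pool.Agent.Lib.MP_7d2bee_an

open MeasureTheory Filter Topology Finset

theorem norm_anti {f φ : ℕ → L2D} (h : IsRealization f φ) {m n : ℕ} (hmn : m ≤ n) :
    ‖f n‖ ≤ ‖f m‖ := by
  induction n, hmn using Nat.le_induction with
  | base => exact le_rfl
  | succ n _ ih => exact (norm_step_le h n).trans ih

theorem proj_mono {f φ : ℕ → L2D} (h : IsRealization f φ) (K n : ℕ) :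
    ‖f n - (Pol K).starProjection (f n)‖ ^ 2 ≤ ‖f 0 - (Pol K).starProjection (f 0)‖ ^ 2 := by
  induction n with
  | zero => exact le_rfl
  | succ n ih =>
    refine le_trans ?_ ih
    have := norm_sub_proj_step (h.mem n) (h.isMax n) K
    rwa [← h.step n] at this

theorem IsRealization.shift {f φ : ℕ → L2D} (h : IsRealization f φ) (n : ℕ) :
    IsRealization (fun k => f (n + k)) (fun k => φ (n + k)) :=
  ⟨fun k => h.mem _, fun k => h.isMax _, fun k => h.step (n + k)⟩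

theorem greedy_le_shift {f φ : ℕ → L2D} (h : IsRealization f φ) (K n m : ℕ) :
    ‖f (n + m)‖ ^ 2 ≤ polyDist K (f 0) ^ 2 + (1 - 1 / ((K : ℝ) + 1)) ^ m * ‖f n‖ ^ 2 := by
  have h1 := greedy_le (h.shift n) K m
  have h2 := proj_mono h K n
  have h3 := pow_le_pow_left₀ (norm_nonneg _) (norm_sub_proj_le K (f 0)) 2
  simp only [add_zero] at h1
  linarith

theorem pow_le_exp (t j : ℕ) (htj : t ≤ j) :
    (1 - 1 / (2 : ℝ) ^ (j - t)) ^ (2 ^ j) ≤ Real.exp (-(2 : ℝ) ^ t) := by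
  have h2 : (0 : ℝ) < 2 ^ (j - t) := by positivity
  have h1 : 1 - 1 / (2 : ℝ) ^ (j - t) ≤ Real.exp (-(1 / (2 : ℝ) ^ (j - t))) := by
    have := Real.add_one_le_exp (-(1 / (2 : ℝ) ^ (j - t)))
    linarith
  have h0 : 0 ≤ 1 - 1 / (2 : ℝ) ^ (j - t) := by
    rw [sub_nonneg, div_le_one h2]
    exact one_le_pow₀ one_le_two
  refine (pow_le_pow_left₀ h0 h1 _).trans ?_
  rw [← Real.exp_nat_mul]
  refine Real.exp_le_exp.2 (le_of_eq ?_)
  push_cast
  have h3 : (2 : ℝ) ^ j = 2 ^ t * 2 ^ (j - t) := by rw [← pow_add]; congr 1; omega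
  rw [h3]
  field_simp

/-- **Rate.** On the class of all starting elements whose distance to the polynomials of degree
`K` is `O(K ^ (-s))`, the pure greedy algorithm has the rate `O(m ^ (-s))`. -/
theorem rate {s : ℝ} (hs : 0 < s) : ∃ C : ℝ, ∀ f φ : ℕ → L2D, IsRealization f φ →
    ∀ M : ℝ, ‖f 0‖ ≤ M → (∀ K : ℕ, polyDist K (f 0) ≤ M * ((K : ℝ) + 1) ^ (-s)) →
      ∀ m : ℕ, ‖f m‖ ≤ C * M * ((m : ℝ) + 1) ^ (-s) := by
  set q : ℝ := (2 : ℝ) ^ (-(2 * s)) with hq
  have hq0 : 0 < q := Real.rpow_pos_of_pos two_pos _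
  have hq1 : q < 1 := Real.rpow_lt_one_of_one_lt_of_neg one_lt_two (by linarith)
  have hlim : Tendsto (fun t : ℕ => Real.exp (-(2 : ℝ) ^ t)) atTop (𝓝 0) :=
    Real.tendsto_exp_neg_atTop_nhds_zero.comp (tendsto_pow_atTop_atTop_of_one_lt one_lt_two)
  obtain ⟨t, ht⟩ := (hlim.eventually (gt_mem_nhds (half_pos hq0))).exists
  set D : ℝ := 2 * (q ^ (t + 1))⁻¹ with hD
  have hqt : 0 < q ^ (t + 1) := by positivity
  have hqt1 : q ^ (t + 1) ≤ 1 := pow_le_one₀ hq0.le hq1.le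
  have hD1 : 1 ≤ D := by
    have : 1 ≤ (q ^ (t + 1))⁻¹ := (one_le_inv₀ hqt).2 hqt1
    rw [hD]; linarith
  refine ⟨√(D / q), fun f φ h M hM hE m => ?_⟩
  have hM0 : 0 ≤ M := (norm_nonneg _).trans hM
  have key : ∀ j n : ℕ, 2 ^ j ≤ n + 1 → ‖f n‖ ^ 2 ≤ D * M ^ 2 * q ^ j := by
    intro j
    induction j with
    | zero =>
      intro n _
      have h1 := (norm_anti h (Nat.zero_le n)).trans hM
      have h2 : ‖f n‖ ^ 2 ≤ M ^ 2 := pow_le_pow_left₀ (norm_nonneg _) h1 2
      rw [pow_zero, mul_one]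
      nlinarith [sq_nonneg M]
    | succ j ih =>
      intro n hn
      by_cases hjt : j < t
      · have h1 := (norm_anti h (Nat.zero_le n)).trans hM
        have h2 : ‖f n‖ ^ 2 ≤ M ^ 2 := pow_le_pow_left₀ (norm_nonneg _) h1 2
        have h3 : q ^ (t + 1) ≤ q ^ (j + 1) := pow_le_pow_of_le_one hq0.le hq1.le (by omega)
        have h4 : 1 ≤ D * q ^ (j + 1) := by
          have h5 : D * q ^ (t + 1) = 2 := by rw [hD]; field_simp
          have h6 : D * q ^ (t + 1) ≤ D * q ^ (j + 1) :=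
            mul_le_mul_of_nonneg_left h3 (by linarith)
          linarith
        calc ‖f n‖ ^ 2 ≤ M ^ 2 * 1 := by linarith
          _ ≤ M ^ 2 * (D * q ^ (j + 1)) := mul_le_mul_of_nonneg_left h4 (sq_nonneg M)
          _ = _ := by ring
      · have hjt' : t ≤ j := by omega
        set K : ℕ := 2 ^ (j - t) - 1 with hK
        have hpos : 0 < 2 ^ (j - t) := by positivity
        have hK1 : (K : ℝ) + 1 = 2 ^ (j - t) := by
          have : K + 1 = 2 ^ (j - t) := by omega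
          exact_mod_cast this
        set n0 : ℕ := 2 ^ j - 1 with hn0
        have hposj : 0 < 2 ^ j := by positivity
        have hn0' : n0 + 2 ^ j ≤ n := by rw [pow_succ] at hn; omega
        have h1 : ‖f n‖ ^ 2 ≤ ‖f (n0 + 2 ^ j)‖ ^ 2 :=
          pow_le_pow_left₀ (norm_nonneg _) (norm_anti h hn0') 2
        have h2 := greedy_le_shift h K n0 (2 ^ j)
        rw [hK1] at h2
        have h3 := pow_le_exp t j hjt'
        have h4 := ih n0 (by omega)
        have h5 : polyDist K (f 0) ^ 2 ≤ M ^ 2 * q ^ (j - t) := by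
          have h6 := hE K
          rw [hK1] at h6
          have h7 : 0 ≤ polyDist K (f 0) := Metric.infDist_nonneg
          have h8 := pow_le_pow_left₀ h7 h6 2
          refine h8.trans (le_of_eq ?_)
          rw [mul_pow]
          congr 1
          rw [hq, ← Real.rpow_natCast (2 : ℝ) (j - t), ← Real.rpow_mul two_pos.le,
            ← Real.rpow_natCast ((2 : ℝ) ^ (((j - t : ℕ) : ℝ) * -s)) 2, ← Real.rpow_mul two_pos.le,
            ← Real.rpow_natCast ((2 : ℝ) ^ (-(2 * s))) (j - t), ← Real.rpow_mul two_pos.le]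
          congr 1
          push_cast
          ring
        have h9 : M ^ 2 * q ^ (j - t) = D * M ^ 2 * q ^ (j + 1) / 2 := by
          have : q ^ (j + 1) = q ^ (t + 1) * q ^ (j - t) := by rw [← pow_add]; congr 1; omega
          rw [this, hD]
          field_simp
        have h10 : (1 - 1 / (2 : ℝ) ^ (j - t)) ^ (2 ^ j) * ‖f n0‖ ^ 2
            ≤ q / 2 * (D * M ^ 2 * q ^ j) :=
          mul_le_mul (h3.trans ht.le) h4 (sq_nonneg _) (by positivity)
        have h11 : q / 2 * (D * M ^ 2 * q ^ j) = D * M ^ 2 * q ^ (j + 1) / 2 := by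
          rw [pow_succ]; ring
        linarith
  -- conclusion
  set j := Nat.log 2 (m + 1) with hj
  have hj1 : 2 ^ j ≤ m + 1 := Nat.pow_log_le_self 2 (by omega)
  have hj2 : m + 1 < 2 ^ (j + 1) := Nat.lt_pow_succ_log_self (by norm_num) _
  have h1 := key j m hj1
  have h2 : q ^ j ≤ q⁻¹ * (((m : ℝ) + 1) ^ (-s)) ^ 2 := by
    have h3 : q ^ (j + 1) ≤ (((m : ℝ) + 1) ^ (-s)) ^ 2 := by
      have h4 : (((m : ℝ) + 1) ^ (-s)) ^ 2 = ((m : ℝ) + 1) ^ (-(2 * s)) := by
        rw [← Real.rpow_natCast, ← Real.rpow_mul (by positivity)]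
        congr 1; push_cast; ring
      have h5 : q ^ (j + 1) = ((2 : ℝ) ^ (j + 1)) ^ (-(2 * s)) := by
        rw [hq, ← Real.rpow_natCast (2 : ℝ) (j + 1), ← Real.rpow_mul two_pos.le,
          ← Real.rpow_natCast ((2 : ℝ) ^ (-(2 * s))) (j + 1), ← Real.rpow_mul two_pos.le]
        congr 1; ring
      rw [h4, h5]
      refine Real.rpow_le_rpow_of_nonpos (by positivity) ?_ (by linarith)
      exact_mod_cast hj2.le
    rw [pow_succ] at h3
    rw [inv_mul_eq_div, le_div_iff₀ hq0]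
    exact h3
  have h3 : ‖f m‖ ^ 2 ≤ (√(D / q) * M * ((m : ℝ) + 1) ^ (-s)) ^ 2 := by
    rw [mul_pow, mul_pow, Real.sq_sqrt (by positivity)]
    refine h1.trans ?_
    calc D * M ^ 2 * q ^ j ≤ D * M ^ 2 * (q⁻¹ * (((m : ℝ) + 1) ^ (-s)) ^ 2) :=
          mul_le_mul_of_nonneg_left h2 (by positivity)
      _ = _ := by ring
  exact (sq_le_sq₀ (norm_nonneg _) (by positivity)).1 h3

end Pool.Agent.Lib.MP_7d2bee_an
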