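import Pool.Agent.Lib.MP_7d2bee_an.Basic

/-!
# Alternating sums of translates annihilate ridge functions
-/

set_option autoImplicit false

namespace Pool.Agent.Lib.MP_7d2bee_an

open MeasureTheory Filter Topology Finset

/-- the vector orthogonal to `d` -/
noncomputable def perp (d : Plane) : Plane := !₂[-(d 1), d 0]

/-- the determinant of two vectors -/
def det2 (d e : Plane) : ℝ := d 0 * e 1 - d 1 * e 0

theorem inner_perp (d e : Plane) : inner ℝ (perp d) e = det2 d e := by
  simp [perp, det2, PiLp.inner_apply, Fin.sum_univ_two]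
  ring

theorem norm_sq_plane (d : Plane) : ‖d‖ ^ 2 = d 0 ^ 2 + d 1 ^ 2 := by
  rw [EuclideanSpace.norm_sq_eq]
  simp [Fin.sum_univ_two]

theorem norm_perp (d : Plane) : ‖perp d‖ = ‖d‖ := by
  have : ‖perp d‖ ^ 2 = ‖d‖ ^ 2 := by
    rw [norm_sq_plane, norm_sq_plane]; simp [perp]; ring
  exact (sq_eq_sq₀ (norm_nonneg _) (norm_nonneg _)).1 this

theorem abs_det2_le (d e : Plane) : |det2 d e| ≤ ‖d‖ * ‖e‖ := by
  rw [← inner_perp, ← norm_perp d]
  exact abs_real_inner_le_norm _ _

theorem det2_self (d : Plane) : det2 d d = 0 := by rw [det2]; ring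

theorem abs_det2_le_add {d e e' : Plane} (hd : ‖d‖ = 1) (he : ‖e‖ = 1) (he' : ‖e'‖ = 1) :
    |det2 e e'| ≤ |det2 d e| + |det2 d e'| := by
  have h1 : d 0 ^ 2 + d 1 ^ 2 = 1 := by rw [← norm_sq_plane, hd]; norm_num
  have h2 : det2 e e' = inner ℝ d e * det2 d e' - inner ℝ d e' * det2 d e := by
    simp only [det2, PiLp.inner_apply, Fin.sum_univ_two, RCLike.inner_apply, conj_trivial]
    linear_combination (-(e 0 * e' 1) + e 1 * e' 0) * h1
  have h3 : |inner ℝ d e| ≤ 1 := (abs_real_inner_le_norm _ _).trans (by rw [hd, he]; norm_num)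
  have h4 : |inner ℝ d e'| ≤ 1 := (abs_real_inner_le_norm _ _).trans (by rw [hd, he']; norm_num)
  calc |det2 e e'| ≤ |inner ℝ d e * det2 d e'| + |inner ℝ d e' * det2 d e| := by
        rw [h2]; exact abs_sub _ _
    _ ≤ 1 * |det2 d e'| + 1 * |det2 d e| := by
        rw [abs_mul, abs_mul]
        exact add_le_add (mul_le_mul_of_nonneg_right h3 (abs_nonneg _))
          (mul_le_mul_of_nonneg_right h4 (abs_nonneg _))
    _ = |det2 d e| + |det2 d e'| := by ring

variable {m : ℕ}

/-- the shift vectors -/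
noncomputable def sh (d : Fin m → Plane) (l : ℝ) (S : Finset (Fin m)) : Plane :=
  l⁻¹ • ∑ i ∈ S, perp (d i)

/-- the alternating sum of translates -/
noncomputable def alt (d : Fin m → Plane) (l : ℝ) (Ψ : Plane → ℝ) (y : Plane) : ℝ :=
  ∑ S ∈ (univ : Finset (Fin m)).powerset, (-1) ^ S.card * Ψ (y - sh d l S)

theorem norm_sh_le {d : Fin m → Plane} (hd : ∀ i, ‖d i‖ = 1) {l : ℝ} (hl : 0 < l)
    (S : Finset (Fin m)) : ‖sh d l S‖ ≤ m / l := by
  rw [sh, norm_smul, norm_inv, Real.norm_of_nonneg hl.le, inv_mul_eq_div]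
  refine div_le_div_of_nonneg_right ?_ hl.le
  calc ‖∑ i ∈ S, perp (d i)‖ ≤ ∑ i ∈ S, ‖perp (d i)‖ := norm_sum_le _ _
    _ = S.card := by simp [norm_perp, hd]
    _ ≤ m := by
        have := Finset.card_le_univ S
        rw [Fintype.card_fin] at this
        exact_mod_cast this

theorem measurable_alt {d : Fin m → Plane} {l : ℝ} {Ψ : Plane → ℝ} (h : Measurable Ψ) :
    Measurable (alt d l Ψ) := by
  refine Finset.measurable_sum _ fun S _ => ?_
  exact (h.comp (measurable_id.sub_const _)).const_mul _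

theorem abs_alt_le {d : Fin m → Plane} {l : ℝ} {Ψ : Plane → ℝ} {C : ℝ} (h : ∀ x, |Ψ x| ≤ C)
    (y : Plane) : |alt d l Ψ y| ≤ 2 ^ m * C := by
  refine (Finset.abs_sum_le_sum_abs _ _).trans ?_
  calc ∑ S ∈ (univ : Finset (Fin m)).powerset, |(-1) ^ S.card * Ψ (y - sh d l S)|
      ≤ ∑ S ∈ (univ : Finset (Fin m)).powerset, C := by
        refine Finset.sum_le_sum fun S _ => ?_
        rw [abs_mul, abs_pow, abs_neg, abs_one, one_pow, one_mul]
        exact h _
    _ = 2 ^ m * C := by simp

theorem integral_alt_eq_zero {d : Fin m → Plane} {l : ℝ} {Ψ : Plane → ℝ} (hΨm : Measurable Ψ)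
    {C : ℝ} (hΨb : ∀ x, |Ψ x| ≤ C) {r : ℝ} (hΨs : ∀ x, r < ‖x‖ → Ψ x = 0)
    (hsh : ∀ S, r + ‖sh d l S‖ ≤ 1) {u : Plane → ℝ} (hu : Integrable u diskMeasure)
    (g : ℝ → ℝ) (i : Fin m) (hg : ∀ᵐ x ∂diskMeasure, u x = g (inner ℝ x (d i))) :
    ∫ x, u x * alt d l Ψ x ∂diskMeasure = 0 := by
  have hg' : ∀ᵐ x ∂((volume : Measure Plane).restrict (Metric.closedBall 0 1)),
      u x = g (inner ℝ x (d i)) := by
    rw [diskMeasure] at hg
    exact (Measure.ae_ennreal_smul_measure_iff (by
      simpa using Real.pi_pos)).1 hg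
  set T : Finset (Fin m) → ℝ := fun S => ∫ y, g (inner ℝ (y + sh d l S) (d i)) * Ψ y with hT
  have h1 : ∀ S, ∫ x, u x * Ψ (x - sh d l S) ∂diskMeasure = Real.pi⁻¹ * T S := by
    intro S
    rw [integral_disk]
    congr 1
    have e1 : ∫ x in Metric.closedBall (0 : Plane) 1, u x * Ψ (x - sh d l S)
        = ∫ x in Metric.closedBall (0 : Plane) 1, g (inner ℝ x (d i)) * Ψ (x - sh d l S) := by
      refine integral_congr_ae ?_
      filter_upwards [hg'] with x hx
      rw [hx]
    rw [e1, setIntegral_eq_integral_of_forall_compl_eq_zero]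
    · rw [hT]
      have := integral_sub_right_eq_self
        (fun y : Plane => g (inner ℝ (y + sh d l S) (d i)) * Ψ y) (μ := volume) (sh d l S)
      simpa using this
    · intro x hx
      rw [hΨs, mul_zero]
      have h2 : 1 < ‖x‖ := by simpa using hx
      have h3 := norm_sub_norm_le x (sh d l S)
      have h4 := hsh S
      linarith
  have hint : ∀ S, Integrable (fun x => u x * Ψ (x - sh d l S)) diskMeasure := by
    intro S
    have hm : AEStronglyMeasurable (fun x => Ψ (x - sh d l S)) diskMeasure :=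
      (hΨm.comp (measurable_id.sub_const _)).aestronglyMeasurable
    have := hu.bdd_mul hm (c := C) (Eventually.of_forall fun x => by
      rw [Real.norm_eq_abs]; exact hΨb _)
    simpa [mul_comm] using this
  have h2 : ∫ x, u x * alt d l Ψ x ∂diskMeasure
      = ∑ S ∈ (univ : Finset (Fin m)).powerset, (-1) ^ S.card * (Real.pi⁻¹ * T S) := by
    have : ∀ x, u x * alt d l Ψ x = ∑ S ∈ (univ : Finset (Fin m)).powerset,
        (-1) ^ S.card * (u x * Ψ (x - sh d l S)) := by
      intro x
      rw [alt, Finset.mul_sum]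
      exact Finset.sum_congr rfl fun S _ => by ring
    simp_rw [this]
    rw [integral_finsetSum _ fun S _ => (hint S).const_mul _]
    refine Finset.sum_congr rfl fun S _ => ?_
    rw [integral_const_mul, h1]
  rw [h2, ← Finset.insert_erase (Finset.mem_univ i),
    Finset.sum_powerset_insert (Finset.notMem_erase i _), ← Finset.sum_add_distrib]
  refine Finset.sum_eq_zero fun S hS => ?_
  have hi : i ∉ S := fun h => by
    have := (Finset.mem_powerset.1 hS) h
    simp at this
  have h3 : T (insert i S) = T S := by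
    simp only [hT]
    refine integral_congr_ae (Eventually.of_forall fun y => ?_)
    have : inner ℝ (y + sh d l (insert i S)) (d i) = inner ℝ (y + sh d l S) (d i) := by
      rw [sh, sh, Finset.sum_insert hi, smul_add, ← add_assoc, add_right_comm, inner_add_left,
        inner_smul_left, inner_perp, det2_self]
      simp
    simp only [this]
  rw [Finset.card_insert_of_notMem hi, h3, pow_succ]
  ring

/-- the multiplier of a plane wave -/
noncomputable def mult (d : Fin m → Plane) (e : Plane) : ℂ :=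
  ∏ i, (1 - Complex.exp (-(det2 (d i) e : ℂ) * Complex.I))

theorem sum_alt_exp {d : Fin m → Plane} {l : ℝ} (hl : l ≠ 0) (e y : Plane) :
    ∑ S ∈ (univ : Finset (Fin m)).powerset,
      (-1 : ℂ) ^ S.card * Complex.exp ((l * inner ℝ (y - sh d l S) e : ℝ) * Complex.I)
      = Complex.exp ((l * inner ℝ y e : ℝ) * Complex.I) * mult d e := by
  have h := Finset.prod_one_add (univ : Finset (Fin m))
    (f := fun i => -Complex.exp (-(det2 (d i) e : ℂ) * Complex.I))
  have h2 : mult d e = ∏ i, (1 + -Complex.exp (-(det2 (d i) e : ℂ) * Complex.I)) := by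
    rw [mult]; exact Finset.prod_congr rfl fun i _ => by ring
  rw [h2, h, Finset.mul_sum]
  refine Finset.sum_congr rfl fun S _ => ?_
  rw [Finset.prod_neg, ← Complex.exp_sum, mul_left_comm, ← Complex.exp_add]
  congr 2
  rw [inner_sub_left, sh, inner_smul_left, sum_inner]
  simp_rw [inner_perp]
  have : ((l * (inner ℝ y e - (starRingEnd ℝ) l⁻¹ * ∑ i ∈ S, det2 (d i) e) : ℝ) : ℂ)
      = (l * inner ℝ y e : ℝ) - ∑ i ∈ S, (det2 (d i) e : ℂ) := by
    rw [conj_trivial, mul_sub, ← mul_assoc, mul_inv_cancel₀ hl, one_mul]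
    push_cast; rfl
  rw [this, sub_mul, Finset.sum_mul, sub_eq_add_neg, ← Finset.sum_neg_distrib]
  congr 1
  exact Finset.sum_congr rfl fun i _ => by ring

theorem norm_mult_ge {d : Fin m → Plane} {e : Plane} {s : ℝ} (hs0 : 0 < s)
    (hs : ∀ i, s ≤ |det2 (d i) e|) (h1 : ∀ i, |det2 (d i) e| ≤ 1) :
    Real.sin s ^ m ≤ ‖mult d e‖ := by
  rw [mult, norm_prod]
  have hs1 : ∀ i : Fin m, s ≤ 1 := fun i => (hs i).trans (h1 i)
  have hpi := Real.pi_gt_three
  have key : ∀ i : Fin m, Real.sin s ≤ ‖1 - Complex.exp (-(det2 (d i) e : ℂ) * Complex.I)‖ := by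
    intro i
    have e1 : (1 - Complex.exp (-(det2 (d i) e : ℂ) * Complex.I)).im = Real.sin (det2 (d i) e) := by
      have : (-(det2 (d i) e : ℂ) * Complex.I) = ((-(det2 (d i) e) : ℝ) : ℂ) * Complex.I := by
        push_cast; ring
      rw [this, Complex.sub_im, Complex.one_im, Complex.exp_ofReal_mul_I_im, Real.sin_neg]
      ring
    refine le_trans ?_ (Complex.abs_im_le_norm _)
    rw [e1]
    have h3 : |Real.sin (det2 (d i) e)| = Real.sin |det2 (d i) e| := by
      rcases abs_cases (det2 (d i) e) with ⟨h, h'⟩ | ⟨h, h'⟩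
      · rw [h]; exact abs_of_nonneg (Real.sin_nonneg_of_nonneg_of_le_pi h' (by
          have := h1 i; rw [h] at this; linarith))
      · rw [h, Real.sin_neg]
        have hb : -1 ≤ det2 (d i) e := by have := h1 i; rw [h] at this; linarith
        have : Real.sin (det2 (d i) e) ≤ 0 := Real.sin_nonpos_of_nonpos_of_neg_pi_le h'.le (by linarith)
        rw [abs_of_nonpos this]
    rw [h3]
    refine Real.sin_le_sin_of_le_of_le_pi_div_two (by linarith) ?_ (hs i)
    have := h1 i
    linarith
  have hsin : ∀ i : Fin m, 0 ≤ Real.sin s := fun i =>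
    Real.sin_nonneg_of_nonneg_of_le_pi hs0.le (by have := hs1 i; linarith)
  calc Real.sin s ^ m = ∏ _i : Fin m, Real.sin s := by simp
    _ ≤ _ := Finset.prod_le_prod (fun i _ => hsin i) fun i _ => key i

end Pool.Agent.Lib.MP_7d2bee_an
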