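import Pool.Agent.Lib.MP_7d2bee_an.Gram

/-!
# Polynomials and the pure greedy algorithm for ridge functions
-/

set_option autoImplicit false

namespace Pool.Agent.Lib.MP_7d2bee_an

open MeasureTheory Filter Topology Finset

/-! ### ridge functions in a direction form a subspace -/

theorem RidgeIn.add {e : Plane} {u v : L2D} (hu : RidgeIn e u) (hv : RidgeIn e v) :
    RidgeIn e (u + v) := by
  obtain ⟨g, hg⟩ := hu
  obtain ⟨h, hh⟩ := hv
  refine ⟨fun t => g t + h t, ?_⟩
  filter_upwards [hg, hh, Lp.coeFn_add u v] with x h1 h2 h3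
  rw [h3, Pi.add_apply, h1, h2]

theorem RidgeIn.smul {e : Plane} {u : L2D} (hu : RidgeIn e u) (c : ℝ) : RidgeIn e (c • u) := by
  obtain ⟨g, hg⟩ := hu
  refine ⟨fun t => c * g t, ?_⟩
  filter_upwards [hg, Lp.coeFn_smul c u] with x h1 h2
  rw [h2, Pi.smul_apply, h1, smul_eq_mul]

theorem RidgeIn.zero (e : Plane) : RidgeIn e 0 := by
  refine ⟨fun _ => 0, ?_⟩
  filter_upwards [Lp.coeFn_zero ℝ 2 diskMeasure] with x h
  rw [h]; rfl

theorem RidgeIn.sub {e : Plane} {u v : L2D} (hu : RidgeIn e u) (hv : RidgeIn e v) :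
    RidgeIn e (u - v) := by
  have := hu.add (hv.smul (-1))
  rwa [neg_one_smul, ← sub_eq_add_neg] at this

theorem RidgeIn.sum {e : Plane} {ι : Type} (s : Finset ι) {u : ι → L2D}
    (hu : ∀ i ∈ s, RidgeIn e (u i)) : RidgeIn e (∑ i ∈ s, u i) := by
  classical
  induction s using Finset.induction_on with
  | empty => simpa using RidgeIn.zero e
  | insert i s hi ih =>
    rw [Finset.sum_insert hi]
    exact (hu i (Finset.mem_insert_self _ _)).add
      (ih fun j hj => hu j (Finset.mem_insert_of_mem hj))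

/-! ### the frame expansion -/

/-- the equally spaced directions -/
noncomputable def dd (K j : ℕ) : Plane := dir (ang K j)

theorem norm_dd (K j : ℕ) : ‖dd K j‖ = 1 := norm_dir _

/-- the weights -/
noncomputable def wt (K k : ℕ) : ℝ := (k + 1) / ((K + 1) * NN k)

/-- the part of the expansion in direction `j` -/
noncomputable def comp (K j : ℕ) (u : L2D) : L2D :=
  ∑ k ∈ range (K + 1), (wt K k * inner ℝ u (uL k (dd K j))) • uL k (dd K j)

/-- the expansion -/
noncomputable def SS (K : ℕ) (u : L2D) : L2D := ∑ j ∈ range (K + 1), comp K j u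

theorem comp_add (K j : ℕ) (u v : L2D) : comp K j (u + v) = comp K j u + comp K j v := by
  rw [comp, comp, comp, ← sum_add_distrib]
  refine sum_congr rfl fun k _ => ?_
  rw [inner_add_left, mul_add, add_smul]

theorem comp_smul (K j : ℕ) (c : ℝ) (u : L2D) : comp K j (c • u) = c • comp K j u := by
  rw [comp, comp, smul_sum]
  refine sum_congr rfl fun k _ => ?_
  rw [inner_smul_left, smul_smul, conj_trivial]
  congr 1
  ring

theorem ridgeIn_comp (K j : ℕ) (u : L2D) : RidgeIn (dd K j) (comp K j u) :=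
  RidgeIn.sum _ fun k _ => (ridgeIn_uL k _).smul _

theorem lam_one (k : ℕ) : lam k 1 = 1 := by
  rw [lam, chU_one, div_self (by positivity)]

theorem norm_sq_uL (k : ℕ) {e : Plane} (he : ‖e‖ = 1) : inner ℝ (uL k e) (uL k e) = NN k := by
  rw [inner_uL_eq k he he, real_inner_self_eq_norm_sq, he, one_pow, lam_one, one_mul]

theorem uL_eq_zero {k : ℕ} (h : NN k = 0) {e : Plane} (he : ‖e‖ = 1) : uL k e = 0 := by
  rw [← inner_self_eq_zero (𝕜 := ℝ), norm_sq_uL k he, h]

theorem wt_nonneg (K k : ℕ) : 0 ≤ wt K k := by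
  rw [wt]; have := NN_nonneg k; positivity

theorem wt_mul_le {K k : ℕ} (hk : k ≤ K) : wt K k * NN k ≤ 1 := by
  rw [wt]
  rcases eq_or_ne (NN k) 0 with h | h
  · rw [h]; simp
  · have h1 : ((k : ℝ) + 1) / ((K + 1) * NN k) * NN k = (k + 1) / (K + 1) := by
      field_simp
    rw [h1, div_le_one (by positivity)]
    have : (k : ℝ) ≤ K := by exact_mod_cast hk
    linarith

theorem SS_uL {K k : ℕ} (hk : k ≤ K) {e : Plane} (he : ‖e‖ = 1) : SS K (uL k e) = uL k e := by
  rcases eq_or_ne (NN k) 0 with h0 | h0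
  · rw [uL_eq_zero h0 he, SS]
    refine sum_eq_zero fun j _ => ?_
    rw [comp]
    refine sum_eq_zero fun l _ => ?_
    rw [inner_zero_left, mul_zero, zero_smul]
  have hcomp : ∀ j, comp K j (uL k e)
      = ((k + 1) / (K + 1) * lam k (inner ℝ e (dd K j))) • uL k (dd K j) := by
    intro j
    rw [comp, sum_eq_single k]
    · rw [inner_uL_eq k he (norm_dd K j), wt]
      congr 1
      field_simp
    · intro l _ hl
      rw [inner_uL_ne (Ne.symm hl) he (norm_dd K j), mul_zero, zero_smul]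
    · intro h
      exact absurd (mem_range.2 (by omega)) h
  set X := SS K (uL k e) with hX
  have hXe : X = ∑ j ∈ range (K + 1),
      ((k + 1) / (K + 1) * lam k (inner ℝ e (dd K j))) • uL k (dd K j) := by
    rw [hX, SS]; exact sum_congr rfl fun j _ => hcomp j
  have hinner : ∀ f : Plane, ‖f‖ = 1 → inner ℝ X (uL k f) = inner ℝ (uL k e) (uL k f) := by
    intro f hf
    obtain ⟨α, rfl⟩ := exists_dir he
    obtain ⟨β, rfl⟩ := exists_dir hf
    rw [hXe, sum_inner, inner_uL_eq k he hf]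
    have h1 : ∀ j ∈ range (K + 1), inner ℝ (((k + 1) / (K + 1) *
        lam k (inner ℝ (dir α) (dd K j))) • uL k (dd K j)) (uL k (dir β))
        = NN k / ((K + 1) * (k + 1)) *
          (chU k (Real.cos (α - ang K j)) * chU k (Real.cos (ang K j - β))) := by
      intro j _
      rw [inner_smul_left, inner_uL_eq k (norm_dd K j) hf, dd, inner_dir, inner_dir, lam, lam,
        conj_trivial]
      field_simp
    rw [sum_congr rfl h1, ← mul_sum, disc hk, inner_dir, lam]
    field_simp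
  have h2 : ∀ f : Plane, ‖f‖ = 1 → inner ℝ (X - uL k e) (uL k f) = 0 := fun f hf => by
    rw [inner_sub_left, hinner f hf, sub_self]
  have h3 : inner ℝ (X - uL k e) X = 0 := by
    have h30 : inner ℝ (X - uL k e) (∑ j ∈ range (K + 1),
        ((k + 1) / (K + 1) * lam k (inner ℝ e (dd K j))) • uL k (dd K j)) = 0 := by
      rw [inner_sum]
      refine sum_eq_zero fun j _ => ?_
      rw [inner_smul_right, h2 _ (norm_dd K j), mul_zero]
    rwa [← hXe] at h30
  have h4 : inner ℝ (X - uL k e) (X - uL k e) = 0 := by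
    rw [inner_sub_right, h3, h2 e he, sub_self]
  exact sub_eq_zero.1 (inner_self_eq_zero.1 h4)

/-- the space of polynomials of degree at most `K`, spanned by Chebyshev ridge polynomials -/
noncomputable def Pol (K : ℕ) : Submodule ℝ L2D :=
  Submodule.span ℝ (Set.range fun p : Fin (K + 1) × Fin (K + 1) => uL p.1 (dd K p.2))

instance (K : ℕ) : FiniteDimensional ℝ (Pol K) :=
  FiniteDimensional.span_of_finite ℝ (Set.finite_range _)

theorem uL_dd_mem {K k j : ℕ} (hk : k ≤ K) (hj : j ≤ K) : uL k (dd K j) ∈ Pol K :=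
  Submodule.subset_span ⟨(⟨k, by omega⟩, ⟨j, by omega⟩), rfl⟩

theorem comp_mem {K j : ℕ} (hj : j ≤ K) (u : L2D) : comp K j u ∈ Pol K :=
  Submodule.sum_mem _ fun _ hk => Submodule.smul_mem _ _
    (uL_dd_mem (by have := mem_range.1 hk; omega) hj)

theorem SS_mem (K : ℕ) (u : L2D) : SS K u ∈ Pol K :=
  Submodule.sum_mem _ fun _ hj => comp_mem (by have := mem_range.1 hj; omega) u

theorem uL_mem {K k : ℕ} (hk : k ≤ K) {e : Plane} (he : ‖e‖ = 1) : uL k e ∈ Pol K := by
  rw [← SS_uL hk he]; exact SS_mem K _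

theorem SS_eq {K : ℕ} {p : L2D} (hp : p ∈ Pol K) : SS K p = p := by
  induction hp using Submodule.span_induction with
  | mem x hx =>
    obtain ⟨⟨k, j⟩, rfl⟩ := hx
    exact SS_uL (by omega) (norm_dd _ _)
  | zero =>
    rw [SS]
    refine sum_eq_zero fun j _ => ?_
    rw [comp]
    exact sum_eq_zero fun l _ => by rw [inner_zero_left, mul_zero, zero_smul]
  | add x y _ _ hx hy =>
    rw [SS] at hx hy ⊢
    simp_rw [comp_add]
    rw [sum_add_distrib, hx, hy]
  | smul c x _ hx =>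
    rw [SS] at hx ⊢
    simp_rw [comp_smul]
    rw [← smul_sum, hx]

theorem norm_sq_comp {K j : ℕ} (u : L2D) :
    ‖comp K j u‖ ^ 2 ≤ ∑ k ∈ range (K + 1), wt K k * inner ℝ u (uL k (dd K j)) ^ 2 := by
  rw [← real_inner_self_eq_norm_sq]
  conv_lhs => rw [comp]
  rw [inner_sum]
  refine sum_le_sum fun k hk => ?_
  rw [inner_smul_right, sum_inner, sum_eq_single k]
  · rw [inner_smul_left, norm_sq_uL k (norm_dd K j), conj_trivial]
    have h1 := wt_mul_le (K := K) (k := k) (by have := mem_range.1 hk; omega)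
    have h2 := wt_nonneg K k
    have h3 : 0 ≤ wt K k * inner ℝ u (uL k (dd K j)) ^ 2 := by positivity
    calc wt K k * inner ℝ u (uL k (dd K j)) * (wt K k * inner ℝ u (uL k (dd K j)) * NN k)
        = (wt K k * inner ℝ u (uL k (dd K j)) ^ 2) * (wt K k * NN k) := by ring
      _ ≤ (wt K k * inner ℝ u (uL k (dd K j)) ^ 2) * 1 := mul_le_mul_of_nonneg_left h1 h3
      _ = _ := mul_one _
  · intro l _ hl
    rw [inner_smul_left, inner_uL_ne hl (norm_dd K j) (norm_dd K j), mul_zero]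
  · intro h; exact absurd hk h

theorem sum_norm_sq_comp {K : ℕ} {p : L2D} (hp : p ∈ Pol K) :
    ∑ j ∈ range (K + 1), ‖comp K j p‖ ^ 2 ≤ ‖p‖ ^ 2 := by
  have h1 : ‖p‖ ^ 2 = ∑ j ∈ range (K + 1), ∑ k ∈ range (K + 1),
      wt K k * inner ℝ p (uL k (dd K j)) ^ 2 := by
    rw [← real_inner_self_eq_norm_sq]
    conv_lhs => rw [← SS_eq hp]
    rw [SS_eq hp]
    conv_lhs =>
      arg 3
      rw [← SS_eq hp]
    rw [SS, inner_sum]
    refine sum_congr rfl fun j _ => ?_
    rw [comp, inner_sum]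
    refine sum_congr rfl fun k _ => ?_
    rw [inner_smul_right]
    ring
  rw [h1]
  exact sum_le_sum fun j _ => norm_sq_comp p

/-- one greedy step captures a definite part of the polynomial part -/
theorem norm_sq_proj_le {r : L2D} {α : ℝ} (hα : ∀ g ∈ ridgeDictionary, |inner ℝ r g| ≤ α)
    (K : ℕ) : ‖(Pol K).starProjection r‖ ^ 2 ≤ (K + 1) * α ^ 2 := by
  have hα0 : 0 ≤ α := (abs_nonneg _).trans
    (hα (phL 0 e0) ⟨isRidge_phL 0 norm_e0, norm_phL (by rw [nu_zero]; exact one_pos)⟩)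
  have hdir : ∀ (e : Plane) (v : L2D), ‖e‖ = 1 → RidgeIn e v → inner ℝ r v ≤ α * ‖v‖ := by
    intro e v he hv
    rcases eq_or_ne v 0 with rfl | hv0
    · simp
    · have hn : 0 < ‖v‖ := norm_pos_iff.2 hv0
      have h1 : ‖v‖⁻¹ • v ∈ ridgeDictionary := by
        refine ⟨?_, ?_⟩
        · obtain ⟨g, hg⟩ := hv.smul ‖v‖⁻¹
          exact ⟨g, e, he, hg⟩
        · rw [norm_smul, norm_inv, norm_norm, inv_mul_cancel₀ hn.ne']
      have h2 := (le_abs_self _).trans (hα _ h1)
      rw [inner_smul_right, inv_mul_le_iff₀ hn] at h2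
      linarith
  set p := (Pol K).starProjection r with hp
  have hpm : p ∈ Pol K := Submodule.starProjection_apply_mem _ _
  have h1 : ‖p‖ ^ 2 = inner ℝ r p := by
    rw [← real_inner_self_eq_norm_sq]
    have := Submodule.starProjection_inner_eq_zero (K := Pol K) r p hpm
    rw [inner_sub_left, sub_eq_zero] at this
    exact this.symm
  have h2 : inner ℝ r p ≤ ∑ j ∈ range (K + 1), α * ‖comp K j p‖ := by
    conv_lhs => rw [← SS_eq hpm]
    rw [SS, inner_sum]
    exact sum_le_sum fun j _ => hdir _ _ (norm_dd K j) (ridgeIn_comp K j p)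
  have h3 : (∑ j ∈ range (K + 1), ‖comp K j p‖) ^ 2 ≤ (K + 1) * ‖p‖ ^ 2 := by
    have := sq_sum_le_card_mul_sum_sq (s := range (K + 1)) (f := fun j => ‖comp K j p‖)
    rw [card_range] at this
    push_cast at this
    exact this.trans (mul_le_mul_of_nonneg_left (sum_norm_sq_comp hpm) (by positivity))
  rw [← mul_sum] at h2
  have h4 : ‖p‖ ^ 2 ≤ α * ∑ j ∈ range (K + 1), ‖comp K j p‖ := h1.le.trans h2
  have h5 : (‖p‖ ^ 2) ^ 2 ≤ α ^ 2 * ((K + 1) * ‖p‖ ^ 2) := by
    calc (‖p‖ ^ 2) ^ 2 ≤ (α * ∑ j ∈ range (K + 1), ‖comp K j p‖) ^ 2 :=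
          pow_le_pow_left₀ (by positivity) h4 2
      _ = α ^ 2 * (∑ j ∈ range (K + 1), ‖comp K j p‖) ^ 2 := by ring
      _ ≤ _ := mul_le_mul_of_nonneg_left h3 (by positivity)
  rcases eq_or_lt_of_le (sq_nonneg ‖p‖) with h6 | h6
  · rw [← h6]; positivity
  · nlinarith

/-! ### the polynomial projection preserves ridge functions -/

theorem ridgeIn_proj {e : Plane} (he : ‖e‖ = 1) {v : L2D} (hv : RidgeIn e v) (K : ℕ) :
    RidgeIn e ((Pol K).starProjection v) := by
  set w : L2D := ∑ k ∈ range (K + 1), (inner ℝ v (uL k e) / NN k) • uL k e with hw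
  have h1 : w ∈ Pol K := Submodule.sum_mem _ fun k hk => Submodule.smul_mem _ _
    (uL_mem (by have := mem_range.1 hk; omega) he)
  have h2 : RidgeIn e w := RidgeIn.sum _ fun k _ => (ridgeIn_uL k e).smul _
  have h3 : ∀ k f, k ≤ K → ‖f‖ = 1 → inner ℝ (v - w) (uL k f) = 0 := by
    intro k f hk hf
    rw [inner_sub_left, ridge_key he hf hv k, ridge_key he hf h2 k, hw, sum_inner,
      sum_eq_single k]
    · rw [inner_smul_left, norm_sq_uL k he, conj_trivial]
      rcases eq_or_ne (NN k) 0 with h0 | h0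
      · rw [uL_eq_zero h0 he, inner_zero_right]; simp
      · rw [div_mul_cancel₀ _ h0, sub_self]
    · intro l _ hl
      rw [inner_smul_left, inner_uL_ne hl he he, mul_zero]
    · intro h; exact absurd (mem_range.2 (by omega)) h
  have h4 : ∀ p ∈ Pol K, inner ℝ (v - w) p = 0 := by
    intro p hp
    induction hp using Submodule.span_induction with
    | mem x hx =>
      obtain ⟨⟨k, j⟩, rfl⟩ := hx
      exact h3 _ _ (by omega) (norm_dd _ _)
    | zero => exact inner_zero_right _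
    | add x y _ _ hx hy => rw [inner_add_right, hx, hy, add_zero]
    | smul c x _ hx => rw [inner_smul_right, hx, mul_zero]
  rw [Submodule.eq_starProjection_of_mem_of_inner_eq_zero h1 h4]
  exact h2

/-- the maximiser is the normalised projection -/
theorem inner_eq_of_max {e : Plane} (he : ‖e‖ = 1) {r φ : L2D} (hφ : RidgeIn e φ)
    (hφ1 : ‖φ‖ = 1) (hmax : ∀ g ∈ ridgeDictionary, |inner ℝ r g| ≤ |inner ℝ r φ|)
    {v : L2D} (hv : RidgeIn e v) : inner ℝ r v = inner ℝ r φ * inner ℝ φ v := by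
  set w : L2D := v - (inner ℝ φ v : ℝ) • φ with hw
  have hwφ : inner ℝ φ w = 0 := by
    rw [hw, inner_sub_right, inner_smul_right, real_inner_self_eq_norm_sq, hφ1]; ring
  have hwR : RidgeIn e w := hv.sub (hφ.smul _)
  have hrw : inner ℝ r w = 0 := by
    by_contra hne
    have hw0 : w ≠ 0 := fun h => hne (by rw [h, inner_zero_right])
    have hwn : 0 < ‖w‖ ^ 2 := by have := norm_pos_iff.2 hw0; positivity
    set a : ℝ := inner ℝ r φ
    set b : ℝ := inner ℝ r w
    set u : L2D := a • φ + (b / ‖w‖ ^ 2) • w with hu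
    have hru : inner ℝ r u = a ^ 2 + b ^ 2 / ‖w‖ ^ 2 := by
      rw [hu, inner_add_right, inner_smul_right, inner_smul_right]; ring
    have hun : ‖u‖ ^ 2 = a ^ 2 + b ^ 2 / ‖w‖ ^ 2 := by
      rw [hu, @norm_add_sq_real, norm_smul, norm_smul, inner_smul_left, inner_smul_right, hwφ,
        mul_pow, mul_pow, hφ1, Real.norm_eq_abs, Real.norm_eq_abs, sq_abs, sq_abs]
      field_simp
      simp
    have hpos : 0 < a ^ 2 + b ^ 2 / ‖w‖ ^ 2 := by
      have : 0 < b ^ 2 / ‖w‖ ^ 2 := div_pos (by positivity) hwn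
      positivity
    have hun0 : 0 < ‖u‖ := by
      by_contra h
      have : ‖u‖ = 0 := le_antisymm (not_lt.1 h) (norm_nonneg _)
      rw [this] at hun; norm_num at hun; linarith
    have hmem : ‖u‖⁻¹ • u ∈ ridgeDictionary := by
      refine ⟨?_, ?_⟩
      · obtain ⟨g, hg⟩ := ((hφ.smul a).add (hwR.smul (b / ‖w‖ ^ 2))).smul ‖u‖⁻¹
        exact ⟨g, e, he, hg⟩
      · rw [norm_smul, norm_inv, norm_norm, inv_mul_cancel₀ hun0.ne']
    have h1 := hmax _ hmem
    rw [inner_smul_right, hru, ← hun] at h1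
    have h2 : ‖u‖⁻¹ * ‖u‖ ^ 2 = ‖u‖ := by field_simp
    rw [h2, abs_of_pos hun0] at h1
    have h3 : ‖u‖ ^ 2 ≤ |a| ^ 2 := pow_le_pow_left₀ hun0.le h1 2
    rw [sq_abs, hun] at h3
    have : 0 < b ^ 2 / ‖w‖ ^ 2 := div_pos (by positivity) hwn
    linarith
  rw [hw, inner_sub_right, inner_smul_right, sub_eq_zero] at hrw
  rw [hrw]; ring

/-- the distance to the polynomials does not increase -/
theorem norm_sub_proj_step {r φ : L2D} (hφ : φ ∈ ridgeDictionary)
    (hmax : ∀ g ∈ ridgeDictionary, |inner ℝ r g| ≤ |inner ℝ r φ|) (K : ℕ) :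
    ‖(r - (inner ℝ r φ : ℝ) • φ) - (Pol K).starProjection (r - (inner ℝ r φ : ℝ) • φ)‖ ^ 2
      ≤ ‖r - (Pol K).starProjection r‖ ^ 2 := by
  obtain ⟨⟨g, e, he, hg⟩, hφ1⟩ := hφ
  have hR : RidgeIn e φ := ⟨g, hg⟩
  set P := (Pol K).starProjection
  set a : ℝ := inner ℝ r φ with ha
  set q := r - P r with hq
  set ψ := φ - P φ with hψ
  have h1 : (r - a • φ) - P (r - a • φ) = q - a • ψ := by
    rw [map_sub, map_smul, hq, hψ, smul_sub]; abel
  have hψR : RidgeIn e ψ := hR.sub (ridgeIn_proj he hR K)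
  have h2 := inner_eq_of_max he hR hφ1 hmax hψR
  have hPr : P r ∈ Pol K := Submodule.starProjection_apply_mem _ _
  have hPφ : P φ ∈ Pol K := Submodule.starProjection_apply_mem _ _
  have h3 : inner ℝ (P r) ψ = 0 := by
    rw [real_inner_comm]; exact Submodule.starProjection_inner_eq_zero φ _ hPr
  have h4 : inner ℝ (P φ) ψ = 0 := by
    rw [real_inner_comm]; exact Submodule.starProjection_inner_eq_zero φ _ hPφ
  have h5 : inner ℝ q ψ = inner ℝ r ψ := by rw [hq, inner_sub_left, h3, sub_zero]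
  have h6 : inner ℝ φ ψ = ‖ψ‖ ^ 2 := by
    rw [← real_inner_self_eq_norm_sq]
    conv_rhs => rw [hψ]
    rw [← hψ, inner_sub_left, h4, sub_zero]
  rw [h1, @norm_sub_sq_real, inner_smul_right, h5, h2, h6, norm_smul, mul_pow,
    Real.norm_eq_abs, sq_abs]
  nlinarith [sq_nonneg (a * ‖ψ‖)]

/-- the main inequality in terms of the spaces `Pol K` -/
theorem greedy_le {f φ : ℕ → L2D} (h : IsRealization f φ) (K m : ℕ) :
    ‖f m‖ ^ 2 ≤ ‖f 0 - (Pol K).starProjection (f 0)‖ ^ 2
      + (1 - 1 / ((K : ℝ) + 1)) ^ m * ‖f 0‖ ^ 2 := by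
  have hK : (0 : ℝ) < K + 1 := by positivity
  set P := (Pol K).starProjection with hP
  set B : ℕ → ℝ := fun n => ‖f n - P (f n)‖ ^ 2 with hB
  have hBmono : ∀ n, B n ≤ B 0 := by
    intro n
    induction n with
    | zero => exact le_rfl
    | succ n ih =>
      refine le_trans ?_ ih
      have := norm_sub_proj_step (h.mem n) (h.isMax n) K
      rw [← h.step n] at this
      exact this
  have hpyth : ∀ n, ‖f n‖ ^ 2 = ‖P (f n)‖ ^ 2 + B n := by
    intro n
    have h1 : inner ℝ (f n - P (f n)) (P (f n)) = 0 :=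
      Submodule.starProjection_inner_eq_zero _ _ (Submodule.starProjection_apply_mem _ _)
    have h2 : f n = (f n - P (f n)) + P (f n) := by abel
    conv_lhs => rw [h2]
    rw [@norm_add_sq_real, h1, hB]
    ring
  have hstep : ∀ n, ‖f (n + 1)‖ ^ 2 - B 0 ≤ (1 - 1 / ((K : ℝ) + 1)) * (‖f n‖ ^ 2 - B 0) := by
    intro n
    have h1 : ‖f (n + 1)‖ ^ 2 = ‖f n‖ ^ 2 - (inner ℝ (f n) (φ n)) ^ 2 := by
      rw [h.step, @norm_sub_sq_real, inner_smul_right, norm_smul, (h.mem n).2, Real.norm_eq_abs,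
        mul_one, sq_abs]
      ring
    have h2 := norm_sq_proj_le (h.isMax n) K
    rw [sq_abs, ← hP] at h2
    have h3 : ‖f n‖ ^ 2 - B 0 ≤ (K + 1) * inner ℝ (f n) (φ n) ^ 2 := by
      have := hpyth n
      have := hBmono n
      linarith
    have h4 : 1 / ((K : ℝ) + 1) * (‖f n‖ ^ 2 - B 0) ≤ inner ℝ (f n) (φ n) ^ 2 := by
      rw [div_mul_eq_mul_div, one_mul, div_le_iff₀ hK]
      linarith
    rw [h1, sub_mul, one_mul]
    linarith
  have hθ : (0 : ℝ) ≤ 1 - 1 / ((K : ℝ) + 1) := by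
    rw [sub_nonneg, div_le_one hK]
    have : (0 : ℝ) ≤ K := by positivity
    linarith
  have hall : ‖f m‖ ^ 2 - B 0 ≤ (1 - 1 / ((K : ℝ) + 1)) ^ m * (‖f 0‖ ^ 2 - B 0) := by
    induction m with
    | zero => simp
    | succ m ih =>
      refine (hstep m).trans ?_
      rw [pow_succ (1 - 1 / ((K : ℝ) + 1)) m, mul_comm ((1 - 1 / ((K : ℝ) + 1)) ^ m), mul_assoc]
      exact mul_le_mul_of_nonneg_left ih hθ
  have hB0 : 0 ≤ B 0 := by rw [hB]; positivity
  have h5 : (1 - 1 / ((K : ℝ) + 1)) ^ m * (‖f 0‖ ^ 2 - B 0)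
      ≤ (1 - 1 / ((K : ℝ) + 1)) ^ m * ‖f 0‖ ^ 2 :=
    mul_le_mul_of_nonneg_left (by linarith) (by positivity)
  linarith

end Pool.Agent.Lib.MP_7d2bee_an
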