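import Pool.Agent.Lib.MP_7d2bee_an.Shift

/-!
# Plane waves
-/

set_option autoImplicit false

namespace Pool.Agent.Lib.MP_7d2bee_an

open MeasureTheory Filter Topology Finset

/-- plane wave -/
noncomputable def cw (l : ℝ) (e x : Plane) : ℝ := Real.cos (l * inner ℝ x e)

theorem continuous_cw (l : ℝ) (e : Plane) : Continuous (cw l e) :=
  Real.continuous_cos.comp (continuous_const.mul (continuous_id.inner continuous_const))

theorem abs_cw_le (l : ℝ) (e x : Plane) : |cw l e x| ≤ 1 := Real.abs_cos_le_one _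

theorem integrable_of_bdd {h : Plane → ℝ} (hm : Measurable h) {C : ℝ} (hb : ∀ x, |h x| ≤ C)
    (s : Set Plane) : Integrable h (diskMeasure.restrict s) :=
  Integrable.of_bound hm.aestronglyMeasurable C (Eventually.of_forall fun x => by
    rw [Real.norm_eq_abs]; exact hb x)

/-- the norm of a plane wave -/
noncomputable def nu (l : ℝ) (e : Plane) : ℝ := √(∫ x, cw l e x * cw l e x ∂diskMeasure)

theorem cw_mul (l : ℝ) (e e' x : Plane) :
    cw l e x * cw l e' x
      = 2⁻¹ * (Real.cos (l * inner ℝ x (e - e')) + Real.cos (l * inner ℝ x (e + e'))) := by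
  have h1 := Real.cos_sub (l * inner ℝ x e) (l * inner ℝ x e')
  have h2 := Real.cos_add (l * inner ℝ x e) (l * inner ℝ x e')
  rw [cw, cw, inner_sub_right, inner_add_right, mul_sub, mul_add l (inner ℝ x e), h1, h2]
  ring

theorem measurable_cos (l : ℝ) (w : Plane) :
    Measurable (fun x : Plane => Real.cos (l * inner ℝ x w)) := (continuous_cw l w).measurable

theorem setIntegral_cw_mul (r l : ℝ) (e e' : Plane) :
    ∫ x in Metric.closedBall (0 : Plane) r, cw l e x * cw l e' x ∂diskMeasure
      = 2⁻¹ * (∫ x in Metric.closedBall (0 : Plane) r,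
          Real.cos (l * inner ℝ x (e - e')) ∂diskMeasure
        + ∫ x in Metric.closedBall (0 : Plane) r,
          Real.cos (l * inner ℝ x (e + e')) ∂diskMeasure) := by
  simp_rw [cw_mul]
  rw [integral_const_mul, integral_add]
  · exact integrable_of_bdd (measurable_cos _ _) (fun x => Real.abs_cos_le_one _) _
  · exact integrable_of_bdd (measurable_cos _ _) (fun x => Real.abs_cos_le_one _) _

theorem tendsto_cw_mul {r : ℝ} (h0 : 0 ≤ r) (h1 : r ≤ 1) {e e' : Plane} (h : e + e' ≠ 0) :
    Tendsto (fun l : ℝ => ∫ x in Metric.closedBall (0 : Plane) r,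
      cw l e x * cw l e' x ∂diskMeasure) atTop (𝓝 (if e = e' then r ^ 2 / 2 else 0)) := by
  have hp := tendsto_integral_cos h h1
  simp_rw [setIntegral_cw_mul]
  split_ifs with hee
  · subst hee
    have : ∀ l : ℝ, ∫ x in Metric.closedBall (0 : Plane) r,
        Real.cos (l * inner ℝ x (e - e)) ∂diskMeasure = r ^ 2 := by
      intro l
      rw [← diskMeasure_real_closedBall h0 h1]
      simp
    simp_rw [this]
    have := (hp.const_add (r ^ 2)).const_mul (2⁻¹)
    rw [add_zero] at this
    rwa [inv_mul_eq_div] at this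
  · have hm := tendsto_integral_cos (sub_ne_zero.2 hee) h1
    have := (hm.add hp).const_mul (2⁻¹)
    simpa using this

theorem integral_cw_self (l : ℝ) (e : Plane) :
    ∫ x, cw l e x * cw l e x ∂diskMeasure
      = ∫ x in Metric.closedBall (0 : Plane) 1, cw l e x * cw l e x ∂diskMeasure := by
  rw [integral_disk, setIntegral_disk _ le_rfl]

theorem tendsto_nu {e : Plane} (he : e ≠ 0) : Tendsto (fun l => nu l e) atTop (𝓝 √(1 / 2)) := by
  have h := tendsto_cw_mul (r := 1) zero_le_one le_rfl (e := e) (e' := e) (by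
    intro h; apply he
    have : (2 : ℝ) • e = 0 := by rw [two_smul]; exact h
    exact (smul_eq_zero.1 this).resolve_left two_ne_zero)
  simp only [if_true, one_pow] at h
  have h2 := (Real.continuous_sqrt.tendsto _).comp h
  refine h2.congr fun l => ?_
  rw [Function.comp, nu, integral_cw_self]

/-- the normalised Gram integral on the disk of radius `r` -/
noncomputable def gram (r l : ℝ) (e e' : Plane) : ℝ :=
  (nu l e)⁻¹ * (nu l e')⁻¹ *
    ∫ x in Metric.closedBall (0 : Plane) r, cw l e x * cw l e' x ∂diskMeasure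

theorem tendsto_gram {r : ℝ} (h0 : 0 ≤ r) (h1 : r ≤ 1) {e e' : Plane} (he : e ≠ 0) (he' : e' ≠ 0)
    (h : e + e' ≠ 0) :
    Tendsto (fun l : ℝ => gram r l e e') atTop (𝓝 (if e = e' then r ^ 2 else 0)) := by
  have hs : (√(1 / 2 : ℝ)) ≠ 0 := by positivity
  have h2 := (((tendsto_nu he).inv₀ hs).mul ((tendsto_nu he').inv₀ hs)).mul
    (tendsto_cw_mul h0 h1 h)
  refine h2.congr' ?_ |>.trans ?_
  · exact Eventually.of_forall fun l => rfl
  · have : (√(1 / 2 : ℝ))⁻¹ * (√(1 / 2 : ℝ))⁻¹ = 2 := by
      rw [← mul_inv, Real.mul_self_sqrt (by norm_num)]; norm_num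
    rw [this]
    split_ifs
    · rw [show (2 : ℝ) * (r ^ 2 / 2) = r ^ 2 by ring]
    · rw [mul_zero]

/-- normalised plane wave -/
noncomputable def ph (l : ℝ) (e x : Plane) : ℝ := (nu l e)⁻¹ * cw l e x

theorem continuous_ph (l : ℝ) (e : Plane) : Continuous (ph l e) :=
  continuous_const.mul (continuous_cw l e)

theorem abs_ph_le {l : ℝ} {e : Plane} (h : 1 / 2 ≤ nu l e) (x : Plane) : |ph l e x| ≤ 2 := by
  have h0 : 0 < nu l e := by linarith
  rw [ph, abs_mul, abs_inv, abs_of_pos h0]
  have h1 : (nu l e)⁻¹ ≤ 2 := by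
    rw [inv_le_comm₀ h0 two_pos]; linarith
  calc (nu l e)⁻¹ * |cw l e x| ≤ 2 * 1 :=
        mul_le_mul h1 (abs_cw_le _ _ _) (abs_nonneg _) two_pos.le
    _ = 2 := by norm_num

theorem gram_eq (r l : ℝ) (e e' : Plane) :
    gram r l e e' = ∫ x in Metric.closedBall (0 : Plane) r, ph l e x * ph l e' x ∂diskMeasure := by
  rw [gram, ← integral_const_mul]
  refine integral_congr_ae (Eventually.of_forall fun x => ?_)
  simp only [ph]
  ring

/-- the function whose alternating sum of translates is the sum of the plane waves -/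
noncomputable def psi {m N : ℕ} (d : Fin m → Plane) (l : ℝ) (e : Fin N → Plane)
    (J : Finset (Fin N)) (x : Plane) : ℝ :=
  ∑ j ∈ J, (nu l (e j))⁻¹ *
    (Complex.exp ((l * inner ℝ x (e j) : ℝ) * Complex.I) / mult d (e j)).re

theorem continuous_psi {m N : ℕ} (d : Fin m → Plane) (l : ℝ) (e : Fin N → Plane)
    (J : Finset (Fin N)) : Continuous (psi d l e J) := by
  refine continuous_finsetSum _ fun j _ => continuous_const.mul ?_
  refine Complex.continuous_re.comp (Continuous.div_const ?_ _)
  refine Complex.continuous_exp.comp (Continuous.mul ?_ continuous_const)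
  exact Complex.continuous_ofReal.comp
    (continuous_const.mul (continuous_id.inner continuous_const))

theorem alt_psi {m N : ℕ} (d : Fin m → Plane) {l : ℝ} (hl : l ≠ 0) (e : Fin N → Plane)
    {J : Finset (Fin N)} (hJ : ∀ j ∈ J, mult d (e j) ≠ 0) (y : Plane) :
    alt d l (psi d l e J) y = ∑ j ∈ J, ph l (e j) y := by
  rw [alt]
  simp_rw [psi, Finset.mul_sum]
  rw [Finset.sum_comm]
  refine Finset.sum_congr rfl fun j hj => ?_
  have h := sum_alt_exp (d := d) hl (e j) y
  have h2 : ∑ S ∈ (univ : Finset (Fin m)).powerset, (-1 : ℝ) ^ S.card *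
      ((nu l (e j))⁻¹ * (Complex.exp ((l * inner ℝ (y - sh d l S) (e j) : ℝ) * Complex.I)
        / mult d (e j)).re)
      = (nu l (e j))⁻¹ * ((∑ S ∈ (univ : Finset (Fin m)).powerset,
        (-1 : ℂ) ^ S.card * Complex.exp ((l * inner ℝ (y - sh d l S) (e j) : ℝ) * Complex.I))
        / mult d (e j)).re := by
    rw [Finset.sum_div, Complex.re_sum, Finset.mul_sum]
    refine Finset.sum_congr rfl fun S _ => ?_
    have : ((-1 : ℂ) ^ S.card * Complex.exp ((l * inner ℝ (y - sh d l S) (e j) : ℝ) * Complex.I)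
        / mult d (e j)) = (((-1 : ℝ) ^ S.card : ℝ) : ℂ) *
        (Complex.exp ((l * inner ℝ (y - sh d l S) (e j) : ℝ) * Complex.I) / mult d (e j)) := by
      push_cast; ring
    rw [this, Complex.re_ofReal_mul]
    ring
  rw [h2, h, mul_div_assoc, div_self (hJ j hj), mul_one, Complex.exp_ofReal_mul_I_re, ph, cw]

theorem abs_psi_le {m N : ℕ} {d : Fin m → Plane} {l : ℝ} {e : Fin N → Plane}
    {J : Finset (Fin N)} {z : ℝ} (hz : 0 < z) (hJ : ∀ j ∈ J, z ≤ ‖mult d (e j)‖)
    (hnu : ∀ j, 1 / 2 ≤ nu l (e j)) (x : Plane) : |psi d l e J x| ≤ N * (2 / z) := by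
  rw [psi]
  refine (Finset.abs_sum_le_sum_abs _ _).trans ?_
  calc ∑ j ∈ J, |(nu l (e j))⁻¹ *
        (Complex.exp ((l * inner ℝ x (e j) : ℝ) * Complex.I) / mult d (e j)).re|
      ≤ ∑ j ∈ J, 2 / z := by
        refine Finset.sum_le_sum fun j hj => ?_
        have h0 : 0 < nu l (e j) := by linarith [hnu j]
        have h1 : (nu l (e j))⁻¹ ≤ 2 := by
          rw [inv_le_comm₀ h0 two_pos]; linarith [hnu j]
        rw [abs_mul, abs_inv, abs_of_pos h0]
        have h2 : |(Complex.exp ((l * inner ℝ x (e j) : ℝ) * Complex.I) / mult d (e j)).re|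
            ≤ 1 / z := by
          refine (Complex.abs_re_le_norm _).trans ?_
          rw [norm_div, Complex.norm_exp_ofReal_mul_I]
          exact one_div_le_one_div_of_le hz (hJ j hj)
        calc _ ≤ 2 * (1 / z) := mul_le_mul h1 h2 (abs_nonneg _) two_pos.le
          _ = 2 / z := by ring
    _ = J.card * (2 / z) := by rw [Finset.sum_const, nsmul_eq_mul]
    _ ≤ N * (2 / z) := by
        have := Finset.card_le_univ J
        rw [Fintype.card_fin] at this
        refine mul_le_mul_of_nonneg_right (by exact_mod_cast this) (by positivity)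

end Pool.Agent.Lib.MP_7d2bee_an
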